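import Pool.Agent.LibScat.Diff

/-!
Behaviour on the axes, sorted lists of directions, and comparison on all series.
-/

namespace Pool.Agent.LibScat

open MvPowerSeries Finset

set_option linter.unusedSectionVars false

variable {K : Type*} [Field K] [CharZero K]

/-- Equality of the coefficients with exponent zero in the variable `t`. -/
def Axd (t : Fin 2) (f g : MvPowerSeries (Fin 2) K) : Prop :=
  ∀ n : N2, n t = 0 → coeff n f = coeff n g

theorem Axd.refl (t : Fin 2) (f : MvPowerSeries (Fin 2) K) : Axd t f f := fun _ _ => rfl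

theorem Axd.symm {t : Fin 2} {f g : MvPowerSeries (Fin 2) K} (h : Axd t f g) : Axd t g f :=
  fun n hn => (h n hn).symm

theorem Axd.trans {t : Fin 2} {f g k : MvPowerSeries (Fin 2) K} (h : Axd t f g)
    (h' : Axd t g k) : Axd t f k := fun n hn => (h n hn).trans (h' n hn)

theorem Axd.mul {t : Fin 2} {f g f' g' : MvPowerSeries (Fin 2) K} (h : Axd t f g)
    (h' : Axd t f' g') : Axd t (f * f') (g * g') := by
  intro n hn
  rw [coeff_mul, coeff_mul]
  refine Finset.sum_congr rfl fun p hp => ?_
  rw [Finset.HasAntidiagonal.mem_antidiagonal] at hp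
  have h1 : p.1 t + p.2 t = n t := by rw [← hp]; rfl
  rw [h p.1 (by omega), h' p.2 (by omega)]

theorem Axd.cross {t : Fin 2} {v : N2} {f g g' : MvPowerSeries (Fin 2) K} (h : Axd t g g') :
    Axd t (cross v f g) (cross v f g') := by
  intro n hn
  have hT : ∀ d ≤ n, d ∈ Finset.Iic n := fun d hd => Finset.mem_Iic.2 hd
  rw [coeff_cross_sum v f g hT, coeff_cross_sum v f g' hT]
  refine Finset.sum_congr rfl fun d hd => ?_
  rw [Finset.mem_Iic] at hd
  have h1 : d t ≤ n t := hd t
  rw [h d (by omega)]

theorem axd_cross {t : Fin 2} {v : N2} {f : MvPowerSeries (Fin 2) K} (hv : v t ≠ 0)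
    (h : IsWallFun v f) (g : MvPowerSeries (Fin 2) K) : Axd t (LibScat.cross v f g) g := by
  intro n hn
  have hT : ∀ d ≤ n, d ∈ Finset.Iic n := fun d hd => Finset.mem_Iic.2 hd
  rw [coeff_cross_sum v f g hT, Finset.sum_eq_single n]
  · rw [coeff_monomial_mul, if_pos le_rfl, tsub_self, coeff_zero_eq_constantCoeff_apply,
      uf_const h.1]
    ring
  · intro d hd hdn
    rw [Finset.mem_Iic] at hd
    rw [coeff_monomial_mul, if_pos hd]
    have h2 : coeff (n - d) (uf v f d) = 0 := by
      by_contra hne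
      obtain ⟨k, hk⟩ := uf_sup h d _ hne
      have h3 : k * v t = (n - d) t := congrArg (fun z : N2 => z t) hk
      have h4 : (n - d) t = n t - d t := rfl
      have h5 : k * v t = 0 := by omega
      have h6 : k = 0 := by
        rcases Nat.mul_eq_zero.1 h5 with h6 | h6
        · exact h6
        · exact absurd h6 hv
      have h7 : (0 : N2) = n - d := by
        rw [← hk, h6]
        exact (zero_smul ℕ v).symm
      have h8 := tsub_add_cancel_of_le hd
      rw [← h7, zero_add] at h8
      exact hdn h8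
    rw [h2]
    ring
  · intro h3
    exact absurd (Finset.mem_Iic.2 le_rfl) h3

theorem axd_mf {s t : Fin 2} {v : N2} {f : MvPowerSeries (Fin 2) K} (hv : v t ≠ 0)
    (h : IsWallFun v f) : Axd t (mf s v f) 1 := by
  intro n hn
  by_cases h0 : n = 0
  · rw [h0, coeff_zero_eq_constantCoeff_apply, coeff_zero_eq_constantCoeff_apply,
      mf_const s h, map_one]
  · rw [coeff_one, if_neg h0]
    by_contra hne
    obtain ⟨k, hk⟩ := mf_sup s h _ hne
    have h3 : k * v t = n t := congrArg (fun z : N2 => z t) hk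
    have h5 : k * v t = 0 := by omega
    rcases Nat.mul_eq_zero.1 h5 with h6 | h6
    · apply h0
      rw [← hk, h6]
      exact zero_smul ℕ v
    · exact hv h6

theorem axd_uu {s t : Fin 2} {f : N2 → MvPowerSeries (Fin 2) K} {l : List N2}
    (h : ∀ v ∈ l, v t ≠ 0 ∧ IsWallFun v (f v)) (W : List (N2 × MvPowerSeries (Fin 2) K)) :
    Axd t (uu s (wl f l ++ W)) (uu s W) := by
  induction l with
  | nil => exact Axd.refl t _
  | cons v l ih =>
    obtain ⟨h1, h2⟩ := h v List.mem_cons_self
    have ih' := ih fun u hu => h u (List.mem_cons_of_mem _ hu)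
    rw [wl_cons, List.cons_append, uu_cons]
    have h3 := (axd_mf (s := s) h1 h2).mul ((axd_cross h1 h2 _).trans ih')
    rw [one_mul] at h3
    exact h3

/-- the directions of the two lines -/
noncomputable def e0 : N2 := Finsupp.single 0 1

/-- the directions of the two lines -/
noncomputable def e1 : N2 := Finsupp.single 1 1

theorem e0_zero : e0 0 = 1 := by unfold e0; simp
theorem e0_one : e0 1 = 0 := by unfold e0; simp
theorem e1_zero : e1 0 = 0 := by unfold e1; simp
theorem e1_one : e1 1 = 1 := by unfold e1; simp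

/-- the directions on the right hand side of the consistency equation -/
noncomputable def Rl (l : List N2) : List N2 := (e1 :: l) ++ [e0]

theorem axis {f : N2 → MvPowerSeries (Fin 2) K} (h0 : IsWallFun e0 (f e0))
    (h1 : IsWallFun e1 (f e1)) {l : List N2} (hl : ∀ v ∈ l, Prim v ∧ IsWallFun v (f v))
    (s : Fin 2) : Axd s (uu s (wl f [e0, e1])) (uu s (wl f (Rl l))) := by
  have z : mf 1 e1 (f e1) = 1 := by
    show f e1 ^ e1 0 = 1
    rw [e1_zero, pow_zero]
  have z' : mf 0 e0 (f e0) = 1 := by
    show (f e0)⁻¹ ^ e0 1 = 1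
    rw [e0_one, pow_zero]
  fin_cases s
  · -- exponent of the first variable zero
    show Axd 0 (uu 0 (wl f [e0, e1])) (uu 0 (wl f (Rl l)))
    have hL : Axd 0 (uu 0 (wl f [e0, e1])) (mf 0 e1 (f e1)) := by
      rw [wl_cons, wl_cons, uu_cons, uu_cons]
      show Axd 0 (mf 0 e0 (f e0) * cross e0 (f e0) (mf 0 e1 (f e1) * cross e1 (f e1) 1)) _
      rw [z', cross_one, mul_one, one_mul]
      exact axd_cross (by rw [e0_zero]; exact one_ne_zero) h0 _
    have hR : Axd 0 (uu 0 (wl f (Rl l))) (mf 0 e1 (f e1)) := by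
      have e : Rl l = e1 :: (l ++ [e0]) := rfl
      rw [e, wl_cons, uu_cons, wl_append]
      have h2 : Axd 0 (uu 0 (wl f l ++ wl f [e0])) 1 := by
        refine (axd_uu (fun v hv => ⟨?_, (hl v hv).2⟩) _).trans ?_
        · have := (hl v hv).1.1
          omega
        · rw [wl_cons, uu_cons]
          show Axd 0 (mf 0 e0 (f e0) * cross e0 (f e0) 1) 1
          rw [z', cross_one, one_mul]
          exact Axd.refl 0 _
      have h3 := (Axd.refl 0 (mf 0 e1 (f e1))).mul (h2.cross (v := e1) (f := f e1))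
      rw [cross_one, mul_one] at h3
      exact h3
    exact hL.trans hR.symm
  · -- exponent of the second variable zero
    show Axd 1 (uu 1 (wl f [e0, e1])) (uu 1 (wl f (Rl l)))
    have hL : uu 1 (wl f [e0, e1]) = mf 1 e0 (f e0) := by
      rw [wl_cons, wl_cons, uu_cons, uu_cons]
      show mf 1 e0 (f e0) * cross e0 (f e0) (mf 1 e1 (f e1) * cross e1 (f e1) 1) = _
      rw [z, cross_one, one_mul, cross_one, mul_one]
    have hR : Axd 1 (uu 1 (wl f (Rl l))) (mf 1 e0 (f e0)) := by
      have e : Rl l = (e1 :: l) ++ [e0] := rfl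
      rw [e, wl_append]
      refine (axd_uu (fun v hv => ?_) _).trans ?_
      · rcases List.mem_cons.1 hv with rfl | hv
        · exact ⟨by rw [e1_one]; exact one_ne_zero, h1⟩
        · refine ⟨?_, (hl v hv).2⟩
          have := (hl v hv).1.2.1
          omega
      · rw [wl_cons, uu_cons]
        show Axd 1 (mf 1 e0 (f e0) * cross e0 (f e0) 1) (mf 1 e0 (f e0))
        rw [cross_one, mul_one]
        exact Axd.refl 1 _
    rw [hL]
    exact hR.symm

/-! ### Sorted lists -/

/-- decreasing slopes -/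
def Srt (l : List N2) : Prop := l.Pairwise (fun v w => w 1 * v 0 < v 1 * w 0)

theorem Srt.nodup {l : List N2} (h : Srt l) : l.Nodup := by
  apply List.Pairwise.imp _ h
  rintro v w hvw rfl
  exact absurd hvw (lt_irrefl _)

theorem Srt.unique {l l' : List N2} (h : Srt l) (h' : Srt l') (hm : ∀ v, v ∈ l ↔ v ∈ l') :
    l = l' := by
  apply List.Perm.eq_of_pairwise (le := fun v w : N2 => w 1 * v 0 < v 1 * w 0) _ h h'
    ((List.perm_ext_iff_of_nodup h.nodup h'.nodup).2 hm)
  intro v w _ _ h1 h2
  have h3 : v 1 * w 0 < w 1 * v 0 := h2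
  omega

theorem slope_trans {u v w : N2} (hu : 0 < u 0) (hv : 0 < v 0) (hw : 0 < w 0)
    (h1 : v 1 * u 0 < u 1 * v 0) (h2 : w 1 * v 0 < v 1 * w 0) : w 1 * u 0 < u 1 * w 0 := by
  have h3 : v 0 * (w 1 * u 0) < v 0 * (u 1 * w 0) := by
    calc v 0 * (w 1 * u 0) = (w 1 * v 0) * u 0 := by ring
      _ < (v 1 * w 0) * u 0 := Nat.mul_lt_mul_of_pos_right h2 hu
      _ = (v 1 * u 0) * w 0 := by ring
      _ < (u 1 * v 0) * w 0 := Nat.mul_lt_mul_of_pos_right h1 hw
      _ = v 0 * (u 1 * w 0) := by ring
  exact Nat.lt_of_mul_lt_mul_left h3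

theorem Prim.eq_of_slope {v w : N2} (hv : Prim v) (hw : Prim w) (h : v 1 * w 0 = w 1 * v 0) :
    v = w := by
  have h1 : v 0 ∣ w 0 := by
    have : v 0 ∣ v 1 * w 0 := by rw [h]; exact dvd_mul_left _ _
    exact Nat.Coprime.dvd_of_dvd_mul_left hv.2.2 this
  have h2 : w 0 ∣ v 0 := by
    have : w 0 ∣ w 1 * v 0 := by rw [← h]; exact dvd_mul_left _ _
    exact Nat.Coprime.dvd_of_dvd_mul_left hw.2.2 this
  have h3 : v 0 = w 0 := Nat.dvd_antisymm h1 h2
  have h4 : v 1 = w 1 := by
    rw [h3] at h
    exact Nat.eq_of_mul_eq_mul_right hw.1 h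
  ext i
  fin_cases i
  · exact h3
  · exact h4

theorem exists_srt (S : Finset N2) (hS : ∀ v ∈ S, Prim v) :
    ∃ l, Srt l ∧ ∀ v, v ∈ l ↔ v ∈ S := by
  classical
  induction S using Finset.induction_on with
  | empty => exact ⟨[], List.Pairwise.nil, fun v => by simp⟩
  | insert a S ha ih =>
    obtain ⟨l, hl, hm⟩ := ih fun v hv => hS v (Finset.mem_insert_of_mem hv)
    have hpa := hS a (Finset.mem_insert_self a S)
    have hp : ∀ v ∈ l, Prim v := fun v hv => hS v (Finset.mem_insert_of_mem ((hm v).1 hv))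
    refine ⟨l.filter (fun v => decide (a 1 * v 0 < v 1 * a 0)) ++
      a :: l.filter (fun v => decide (v 1 * a 0 < a 1 * v 0)), ?_, ?_⟩
    · unfold Srt
      rw [List.pairwise_append, List.pairwise_cons]
      refine ⟨List.Pairwise.filter _ hl, ⟨?_, List.Pairwise.filter _ hl⟩, ?_⟩
      · intro w hw
        rw [List.mem_filter] at hw
        exact of_decide_eq_true hw.2
      · intro v hv w hw
        rw [List.mem_filter] at hv
        have h1 : a 1 * v 0 < v 1 * a 0 := of_decide_eq_true hv.2
        rcases List.mem_cons.1 hw with rfl | hw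
        · exact h1
        · rw [List.mem_filter] at hw
          have h2 : w 1 * a 0 < a 1 * w 0 := of_decide_eq_true hw.2
          exact slope_trans (hp v hv.1).1 hpa.1 (hp w hw.1).1 h1 h2
    · intro v
      rw [List.mem_append, List.mem_cons, List.mem_filter, List.mem_filter, Finset.mem_insert,
        ← hm v]
      constructor
      · rintro (h | h | h)
        · exact Or.inr h.1
        · exact Or.inl h
        · exact Or.inr h.1
      · rintro (h | h)
        · exact Or.inr (Or.inl h)
        · rcases lt_trichotomy (a 1 * v 0) (v 1 * a 0) with h1 | h1 | h1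
          · exact Or.inl ⟨h, decide_eq_true h1⟩
          · exact Or.inr (Or.inl ((hp v h).eq_of_slope hpa h1.symm))
          · exact Or.inr (Or.inr ⟨h, decide_eq_true h1⟩)

/-- membership in the list to order `N` -/
def Ful (N : ℕ) (l : List N2) : Prop := ∀ v, v ∈ l ↔ Prim v ∧ v 0 + v 1 ≤ N

theorem vec_self (v : N2) : vec (v 0) (v 1) = v := by
  ext i
  unfold vec
  fin_cases i <;> simp

theorem exists_list (N : ℕ) : ∃ l, Srt l ∧ Ful N l := by
  classical
  obtain ⟨l, h1, h2⟩ := exists_srt
    (((Finset.range (N + 1) ×ˢ Finset.range (N + 1)).image fun p => vec p.1 p.2).filter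
      fun v => Prim v ∧ v 0 + v 1 ≤ N) (fun v hv => (Finset.mem_filter.1 hv).2.1)
  refine ⟨l, h1, fun v => ?_⟩
  rw [h2 v, Finset.mem_filter]
  constructor
  · exact fun h => h.2
  · intro h
    refine ⟨?_, h⟩
    rw [Finset.mem_image]
    refine ⟨(v 0, v 1), ?_, vec_self v⟩
    rw [Finset.mem_product, Finset.mem_range, Finset.mem_range]
    exact ⟨by omega, by omega⟩

theorem Srt.filter {l : List N2} (h : Srt l) (p : N2 → Bool) : Srt (l.filter p) :=
  List.Pairwise.filter _ h

/-! ### From the variables to all series -/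

theorem hasSubst_uu (u : Fin 2 → MvPowerSeries (Fin 2) K) :
    HasSubst (fun s => (X s : MvPowerSeries (Fin 2) K) * u s) := by
  apply hasSubst_of_constantCoeff_zero
  intro s
  rw [map_mul, constantCoeff_X, zero_mul]

theorem act_subst (W : List (N2 × MvPowerSeries (Fin 2) K)) (g : MvPowerSeries (Fin 2) K) :
    act W g = subst (fun s => (X s : MvPowerSeries (Fin 2) K) * uu s W) g := by
  induction W with
  | nil =>
    have h : (fun s => (X s : MvPowerSeries (Fin 2) K) * uu s []) = X := by
      funext s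
      rw [uu_nil, mul_one]
    rw [h, subst_self]
    rfl
  | cons p W ih =>
    rw [act_cons, ih]
    unfold cross
    rw [subst_comp_subst_apply (hasSubst_uu _) (hasSubst_crossVar _ _)]
    congr 1
    funext s
    show cross p.1 p.2 (X s * uu s W) = X s * uu s (p :: W)
    rw [cross_mul, cross_X, uu_cons, mul_assoc]

theorem eqd_act {N : ℕ} {W W' : List (N2 × MvPowerSeries (Fin 2) K)}
    (h : ∀ s, Eqd N (uu s W) (uu s W')) (g : MvPowerSeries (Fin 2) K) :
    Eqd N (act W g) (act W' g) := by
  intro e he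
  rw [act_subst, act_subst, coeff_subst (hasSubst_uu _), coeff_subst (hasSubst_uu _)]
  refine finsum_congr fun d => ?_
  rw [Finsupp.prod_fintype _ _ (fun _ => pow_zero _), Finsupp.prod_fintype _ _
    (fun _ => pow_zero _), Fin.prod_univ_two, Fin.prod_univ_two]
  rw [((((Eqd.refl N (X 0)).mul (h 0)).pow (d 0)).mul
    (((Eqd.refl N (X 1)).mul (h 1)).pow (d 1))) e he]

end Pool.Agent.LibScat
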