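import Pool.Agent.LibScat.Integral

/-!
The divided power integrality of the solution of the pair of equations.
-/

namespace Pool.Agent.LibScat

open MvPowerSeries Finset
open scoped Nat

set_option linter.unusedSectionVars false

variable {R : Type*} [CommRing R] [Algebra ℚ R]

omit [Algebra ℚ R] in
theorem inv1_mem {I : Subring R} {f : MvPowerSeries (Fin 2) R} (hf : constantCoeff f = 1)
    (hI : ∀ n, coeff n f ∈ I) : ∀ n, coeff n (inv1 f) ∈ I := by
  have key : ∀ (d : ℕ) (n : N2), Finsupp.degree n ≤ d → coeff n (inv1 f) ∈ I := by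
    intro d
    induction d with
    | zero =>
      intro n hn
      have hn0 : n = 0 := (Finsupp.degree_eq_zero_iff n).1 (by omega)
      rw [hn0, coeff_zero_eq_constantCoeff_apply, constantCoeff_inv1]
      exact I.one_mem
    | succ d ih =>
      intro n hn
      by_cases hn0 : n = 0
      · rw [hn0, coeff_zero_eq_constantCoeff_apply, constantCoeff_inv1]
        exact I.one_mem
      rw [coeff_inv1_eq hf hn0]
      refine I.neg_mem (I.sum_mem fun p hp => ?_)
      rw [Finset.mem_erase] at hp
      have hdeg := degree_le_of_antidiagonal hp.2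
      have hp2 := hp.2
      rw [Finset.HasAntidiagonal.mem_antidiagonal] at hp2
      have hd1 : Finsupp.degree p.1 ≠ 0 := by
        intro h'
        have h1 := (Finsupp.degree_eq_zero_iff _).1 h'
        apply hp.1
        rw [h1, zero_add] at hp2
        exact Prod.ext h1 hp2
      exact I.mul_mem (hI _) (ih _ (by omega))
  intro n
  exact key _ n le_rfl

/-- Truncated supports. -/
def Supd (M : ℕ) (S : AddSubmonoid N2) (f : MvPowerSeries (Fin 2) R) : Prop :=
  ∀ n, Finsupp.degree n ≤ M → coeff n f ≠ 0 → n ∈ S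

theorem supd_of_lg {M : ℕ} {S : AddSubmonoid N2} {f : MvPowerSeries (Fin 2) R}
    (hf : constantCoeff f = 1) (h : Supd M S (lg f)) : Supd M S f := by
  have key : ∀ (d : ℕ) (n : N2), Finsupp.degree n ≤ d → Finsupp.degree n ≤ M →
      coeff n f ≠ 0 → n ∈ S := by
    intro d
    induction d with
    | zero =>
      intro n hn _ _
      have hn0 : n = 0 := (Finsupp.degree_eq_zero_iff n).1 (by omega)
      rw [hn0]; exact S.zero_mem
    | succ d ih =>
      intro n hn hM hne
      by_cases hn0 : n = 0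
      · rw [hn0]; exact S.zero_mem
      have hd : Finsupp.degree n ≠ 0 := fun h' => hn0 ((Finsupp.degree_eq_zero_iff n).1 h')
      have h1 := congrArg (coeff n) (eul_lg_mul Finsupp.degree hf)
      rw [coeff_eul, coeff_mul] at h1
      have h2 : ∑ p ∈ antidiagonal n, coeff p.1 (eul Finsupp.degree (lg f)) * coeff p.2 f ≠ 0 := by
        rw [h1]
        intro h3
        exact hne (cast_inj hd (by rw [h3, mul_zero]))
      obtain ⟨p, hp, hpne⟩ := Finset.exists_ne_zero_of_sum_ne_zero h2
      have hdeg := degree_le_of_antidiagonal hp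
      rw [Finset.HasAntidiagonal.mem_antidiagonal] at hp
      rw [coeff_eul] at hpne
      have h3 := left_ne_zero_of_mul hpne
      have h4 := right_ne_zero_of_mul hpne
      have h5 : Finsupp.degree p.1 ≠ 0 := by
        intro h6
        rw [h6, Nat.cast_zero, zero_mul] at h3
        exact h3 rfl
      have h7 := h p.1 (by omega) (right_ne_zero_of_mul h3)
      have h8 := ih p.2 (by omega) (by omega) h4
      rw [← hp]
      exact S.add_mem h7 h8
  intro n hn
  exact key _ n le_rfl hn

/-- The pair of equations up to degree `M`. -/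
structure Sys (s t : Fin 2) (i j M : ℕ) (b c : R) (fp fm : MvPowerSeries (Fin 2) R) : Prop where
  hp : constantCoeff fp = 1
  hm : constantCoeff fm = 1
  eqp : ∀ n : N2, Finsupp.degree n ≤ M → coeff n (lg fp) =
    if j * n t < i * n s then b * coeff n (lg (1 + X s * fm)) else 0
  eqm : ∀ n : N2, Finsupp.degree n ≤ M → coeff n (lg fm) =
    if j * n t < i * n s then 0 else c * coeff n (lg (1 + X t * fp))

/-- The power `(1 + x)^c` with its integrality. -/
structure EData (s t : Fin 2) (I : Subring R) (c : R) (i j : ℕ)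
    (E : MvPowerSeries (Fin 2) R) : Prop where
  h1 : constantCoeff E = 1
  sup : ∀ n : N2, coeff n E ≠ 0 → n s = 0
  lgE : lg E = C c * lg (1 + X t)
  H1 : ∀ m p : ℕ, 1 ≤ m → p ≤ m →
    (((m - 1)! : ℕ) : R) * coeff (Finsupp.single t p) (E ^ m) ∈ I
  H2 : ∃ r ∈ I, ((Nat.gcd i j * (j - 1)! : ℕ) : R) * (algebraMap ℚ R (1 / (j : ℚ)) *
    coeff (Finsupp.single t i) (E ^ j)) = c * r

/-- the submonoid where the exponent of `s` vanishes -/
def subS (s : Fin 2) : AddSubmonoid N2 where
  carrier := {n | n s = 0}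
  zero_mem' := rfl
  add_mem' := by
    intro a b ha hb
    show a s + b s = 0
    have h1 : a s = 0 := ha
    have h2 : b s = 0 := hb
    omega

/-- the submonoid of small slopes -/
def subLe (s t : Fin 2) (i j : ℕ) : AddSubmonoid N2 where
  carrier := {n | i * n s ≤ j * n t}
  zero_mem' := by show i * 0 ≤ j * 0; simp
  add_mem' := by
    intro a b ha hb
    show i * (a s + b s) ≤ j * (a t + b t)
    have h1 : i * a s ≤ j * a t := ha
    have h2 : i * b s ≤ j * b t := hb
    rw [mul_add, mul_add]
    omega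

theorem expand {s : Fin 2} (E G : MvPowerSeries (Fin 2) R) (n : N2) :
    coeff n (lg (1 + X s * (E * G))) = ∑ m ∈ range (n s), lc R m *
      ∑ p ∈ antidiagonal (n - Finsupp.single s (m + 1)),
        coeff p.1 (E ^ (m + 1)) * coeff p.2 (G ^ (m + 1)) := by
  have hu : VS s 1 (X s * (E * G)) := by
    have := (VS.X (R := R) s).mul (VS.zero s (E * G))
    simpa using this
  rw [lg_one_add hu (n s) n le_rfl]
  refine Finset.sum_congr rfl fun m hm => ?_
  rw [Finset.mem_range] at hm
  rw [mul_pow, mul_pow, X_pow_eq, coeff_monomial_mul, if_pos, one_mul, coeff_mul]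
  intro a
  by_cases h : s = a
  · subst h; rw [Finsupp.single_eq_same]; omega
  · rw [Finsupp.single_eq_of_ne (Ne.symm h)]; exact Nat.zero_le _

theorem fac_lc (q m : ℕ) (h : m + 1 ≤ q) : (((q)! : ℕ) : R) * lc R m =
    (-1) ^ m * (q.choose (m + 1) : R) * ((m ! : ℕ) : R) * (((q - (m + 1))! : ℕ) : R) := by
  have h1 := Nat.choose_mul_factorial_mul_factorial h
  rw [← h1, Nat.factorial_succ]
  push_cast
  have h2 := lc_mul (R := R) m
  push_cast at h2
  linear_combination ((q.choose (m + 1) : R) * (m ! : R) * ((q - (m + 1))! : R)) * h2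

/-- facts on a splitting used twice -/
theorem split_facts {s t : Fin 2} (hst : s ≠ t) {n : N2} {m : ℕ} (hm : m < n s)
    {p : N2 × N2} (hp : p ∈ antidiagonal (n - Finsupp.single s (m + 1))) :
    p.1 s + p.2 s + (m + 1) = n s ∧ p.1 t + p.2 t = n t ∧
      Finsupp.degree p.1 + Finsupp.degree p.2 + (m + 1) = Finsupp.degree n := by
  rw [Finset.HasAntidiagonal.mem_antidiagonal] at hp
  have h1 : p.1 s + p.2 s = n s - (m + 1) := by
    have := congrArg (fun z : N2 => z s) hp
    simpa using this
  have h2 : p.1 t + p.2 t = n t := by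
    have := congrArg (fun z : N2 => z t) hp
    simpa [hst, Ne.symm hst] using this
  refine ⟨by omega, h2, ?_⟩
  rw [deg_eq hst, deg_eq hst, deg_eq hst]
  omega

theorem key_mem {s t : Fin 2} (hst : s ≠ t) {I : Subring R} {i j N : ℕ} (hj : 0 < j)
    (hij : i ≤ j) {E G : MvPowerSeries (Fin 2) R}
    (hE : ∀ (m : ℕ) (n : N2), coeff n (E ^ m) ≠ 0 → n s = 0)
    (H1 : ∀ m p : ℕ, 1 ≤ m → p ≤ m →
      (((m - 1)! : ℕ) : R) * coeff (Finsupp.single t p) (E ^ m) ∈ I)
    (hG : ∀ m : ℕ, DP s I N (G ^ m))
    (hGs : ∀ (m : ℕ) (n : N2), Finsupp.degree n ≤ N → coeff n (G ^ m) ≠ 0 → i * n s ≤ j * n t)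
    {n : N2} (hn : Finsupp.degree n ≤ N + 1) (hsl : j * n t ≤ i * n s) :
    (((n s)! : ℕ) : R) * coeff n (lg (1 + X s * (E * G))) ∈ I := by
  rw [expand, Finset.mul_sum]
  refine I.sum_mem fun m hm => ?_
  rw [Finset.mem_range] at hm
  rw [← mul_assoc, fac_lc (n s) m hm, Finset.mul_sum]
  refine I.sum_mem fun p hp => ?_
  obtain ⟨h1, h2, h3⟩ := split_facts hst hm hp
  by_cases hA : coeff p.1 (E ^ (m + 1)) = 0
  · rw [hA, zero_mul, mul_zero]; exact I.zero_mem
  by_cases hB : coeff p.2 (G ^ (m + 1)) = 0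
  · rw [hB, mul_zero, mul_zero]; exact I.zero_mem
  have hp1s := hE _ _ hA
  have hp2 := hGs _ _ (by omega) hB
  have hp1 : p.1 = Finsupp.single t (p.1 t) := by
    apply ext_st hst
    · rw [hp1s, Finsupp.single_eq_of_ne hst]
    · rw [Finsupp.single_eq_same]
  have hle : p.1 t ≤ m + 1 := by
    have h4 : j * p.1 t ≤ i * (m + 1) := by
      have h5 : j * n t = j * p.1 t + j * p.2 t := by rw [← h2, mul_add]
      have h6 : i * n s = i * (m + 1) + i * p.2 s := by
        rw [← h1, hp1s, zero_add]; ring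
      omega
    have h7 : i * (m + 1) ≤ j * (m + 1) := Nat.mul_le_mul_right _ hij
    exact Nat.le_of_mul_le_mul_left (le_trans h4 h7) hj
  have hA' := H1 (m + 1) (p.1 t) (by omega) hle
  rw [← hp1, Nat.add_sub_cancel] at hA'
  have hB' := hG (m + 1) p.2 (by omega)
  rw [show p.2 s = n s - (m + 1) by omega] at hB'
  have h4 : (-1) ^ m * ((n s).choose (m + 1) : R) * ((m ! : ℕ) : R) *
      (((n s - (m + 1))! : ℕ) : R) * (coeff p.1 (E ^ (m + 1)) * coeff p.2 (G ^ (m + 1))) =
      (-1) ^ m * ((n s).choose (m + 1) : R) * (((m ! : ℕ) : R) * coeff p.1 (E ^ (m + 1))) *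
        ((((n s - (m + 1))! : ℕ) : R) * coeff p.2 (G ^ (m + 1))) := by ring
  rw [h4]
  exact I.mul_mem (I.mul_mem (I.mul_mem (I.pow_mem (I.neg_mem I.one_mem) _)
    (natCast_mem I _)) hA') hB'

theorem y0_of_lg {s : Fin 2} {N : ℕ} {f : MvPowerSeries (Fin 2) R} (hf : constantCoeff f = 1)
    (h0 : ∀ n : N2, Finsupp.degree n ≤ N → n s = 0 → coeff n (lg f) = 0) :
    ∀ n : N2, Finsupp.degree n ≤ N → n s = 0 → n ≠ 0 → coeff n f = 0 := by
  intro n hn hns hn0
  have h := congrArg (coeff n) (eul_lg_mul Finsupp.degree hf)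
  rw [coeff_eul, coeff_mul, Finset.sum_eq_zero] at h
  · have hd : Finsupp.degree n ≠ 0 := fun h' => hn0 ((Finsupp.degree_eq_zero_iff n).1 h')
    exact cast_inj hd (by rw [← h, mul_zero])
  · intro p hp
    have hdeg := degree_le_of_antidiagonal hp
    rw [Finset.HasAntidiagonal.mem_antidiagonal] at hp
    have hs : p.1 s + p.2 s = n s := by rw [← hp]; rfl
    rw [coeff_eul, h0 p.1 (by omega) (by omega), mul_zero, zero_mul]

section main

variable {s t : Fin 2} {I : Subring R} {i j M : ℕ} {b c : R}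
  {fp fm E : MvPowerSeries (Fin 2) R}

theorem constantCoeff_one_add_X_mul (t : Fin 2) (f : MvPowerSeries (Fin 2) R) :
    constantCoeff (1 + X t * f) = 1 := by
  rw [map_add, map_one, map_mul, constantCoeff_X, zero_mul, add_zero]

theorem constantCoeff_one_add_X (t : Fin 2) :
    constantCoeff (1 + X t : MvPowerSeries (Fin 2) R) = 1 := by
  rw [map_add, map_one, constantCoeff_X, add_zero]

/-- The auxiliary series `H`. -/
noncomputable def HH (t : Fin 2) (fp : MvPowerSeries (Fin 2) R) : MvPowerSeries (Fin 2) R :=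
  1 + X t * inv1 (1 + X t) * (fp - 1)

theorem HH_mul (t : Fin 2) (fp : MvPowerSeries (Fin 2) R) :
    (1 + X t) * HH t fp = 1 + X t * fp := by
  have h := mul_inv1 (constantCoeff_one_add_X (R := R) t)
  unfold HH
  linear_combination (X t * (fp - 1)) * h

theorem HH_const (t : Fin 2) (fp : MvPowerSeries (Fin 2) R) :
    constantCoeff (HH t fp) = 1 := by
  unfold HH
  rw [map_add, map_one, map_mul, map_mul, constantCoeff_X, zero_mul, zero_mul, add_zero]

theorem lg_HH (t : Fin 2) (fp : MvPowerSeries (Fin 2) R) :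
    lg (1 + X t * fp) = lg (1 + X t) + lg (HH t fp) := by
  rw [← HH_mul, lg_mul (constantCoeff_one_add_X t) (HH_const t fp)]

theorem lg_one_add_X_sup (hst : s ≠ t) {n : N2}
    (h : coeff n (lg (1 + X t : MvPowerSeries (Fin 2) R)) ≠ 0) : n s = 0 := by
  have h1 : Sup ((subS s : AddSubmonoid N2) : Set N2) (1 + X t : MvPowerSeries (Fin 2) R) := by
    intro m hm
    rw [map_add, coeff_one, coeff_X] at hm
    show m s = 0
    by_cases h0 : m = 0
    · rw [h0]; rfl
    · by_cases h1 : m = Finsupp.single t 1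
      · rw [h1, Finsupp.single_eq_of_ne hst]
      · rw [if_neg h0, if_neg h1, add_zero] at hm
        exact absurd rfl hm
  exact Sup.lg (constantCoeff_one_add_X t) h1 n h

/-- Facts on `H` from integrality of `fp` in lower degree. -/
theorem HH_facts (hst : s ≠ t) {N : ℕ}
    (h0 : ∀ n : N2, Finsupp.degree n ≤ N → n s = 0 → n ≠ 0 → coeff n fp = 0)
    (hp : constantCoeff fp = 1) (hD : DP s I N fp) :
    (∀ n : N2, Finsupp.degree n ≤ N + 1 → n s = 0 → n ≠ 0 → coeff n (HH t fp) = 0) ∧
      DP s I (N + 1) (HH t fp) := by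
  -- the series w
  set w : MvPowerSeries (Fin 2) R := inv1 (1 + X t) with hw
  have hwI : ∀ n, coeff n w ∈ I := by
    apply inv1_mem (constantCoeff_one_add_X t)
    intro n
    rw [map_add, coeff_one, coeff_X]
    refine I.add_mem ?_ ?_
    · split_ifs
      · exact I.one_mem
      · exact I.zero_mem
    · split_ifs
      · exact I.one_mem
      · exact I.zero_mem
  have hws : ∀ n, coeff n w ≠ 0 → n s = 0 := by
    intro n hn
    have h1 : Sup ((subS s : AddSubmonoid N2) : Set N2) (1 + X t : MvPowerSeries (Fin 2) R) := by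
      intro m hm
      rw [map_add, coeff_one, coeff_X] at hm
      show m s = 0
      by_cases h0 : m = 0
      · rw [h0]; rfl
      · by_cases h1 : m = Finsupp.single t 1
        · rw [h1, Finsupp.single_eq_of_ne hst]
        · rw [if_neg h0, if_neg h1, add_zero] at hm
          exact absurd rfl hm
    exact Sup.inv1 (constantCoeff_one_add_X t) h1 n hn
  have hform : ∀ n : N2, coeff n (HH t fp) = coeff n (1 : MvPowerSeries (Fin 2) R) +
      (if Finsupp.single t 1 ≤ n then
        ∑ p ∈ antidiagonal (n - Finsupp.single t 1), coeff p.1 w * coeff p.2 (fp - 1) else 0) := by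
    intro n
    unfold HH
    rw [← hw, map_add, mul_assoc, ← pow_one (X t : MvPowerSeries (Fin 2) R), X_pow_eq,
      coeff_monomial_mul, one_mul, coeff_mul]
  have hsub : ∀ n : N2, coeff n (fp - 1) = if n = 0 then 0 else coeff n fp := by
    intro n
    rw [map_sub, coeff_one]
    split_ifs with h
    · rw [h, coeff_zero_eq_constantCoeff_apply, hp, sub_self]
    · rw [sub_zero]
  have hsplit : ∀ n : N2, Finsupp.single t 1 ≤ n →
      ∀ p : N2 × N2, p ∈ antidiagonal (n - Finsupp.single t 1) →
      p.1 s + p.2 s = n s ∧ Finsupp.degree p.2 + 1 ≤ Finsupp.degree n := by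
    intro n hn p hp
    rw [Finset.HasAntidiagonal.mem_antidiagonal] at hp
    have h1 : p.1 s + p.2 s = n s := by
      have := congrArg (fun z : N2 => z s) hp
      simpa [hst, Ne.symm hst] using this
    have h2 : p.1 t + p.2 t = n t - 1 := by
      have := congrArg (fun z : N2 => z t) hp
      simpa using this
    have h3 : 1 ≤ n t := by
      have := hn t
      rw [Finsupp.single_eq_same] at this
      exact this
    refine ⟨h1, ?_⟩
    rw [deg_eq hst, deg_eq hst]
    omega
  constructor
  · intro n hn hns hn0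
    rw [hform, coeff_one, if_neg hn0, zero_add]
    split_ifs with hle
    · refine Finset.sum_eq_zero fun p hp => ?_
      obtain ⟨h1, h2⟩ := hsplit n hle p hp
      rw [hsub]
      split_ifs with hp0
      · rw [mul_zero]
      · rw [h0 p.2 (by omega) (by omega) hp0, mul_zero]
    · rfl
  · intro n hn
    rw [hform, mul_add]
    refine I.add_mem ?_ ?_
    · rw [coeff_one]
      split_ifs
      · rw [mul_one]; exact natCast_mem I _
      · rw [mul_zero]; exact I.zero_mem
    · split_ifs with hle
      · rw [Finset.mul_sum]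
        refine I.sum_mem fun p hp => ?_
        obtain ⟨h1, h2⟩ := hsplit n hle p hp
        by_cases hw0 : coeff p.1 w = 0
        · rw [hw0, zero_mul, mul_zero]; exact I.zero_mem
        · have h3 := hws _ hw0
          rw [hsub]
          split_ifs with hp0
          · rw [mul_zero, mul_zero]; exact I.zero_mem
          · have h4 := hD p.2 (by omega)
            rw [show p.2 s = n s by omega] at h4
            have h5 : (((n s)! : ℕ) : R) * (coeff p.1 w * coeff p.2 fp) =
                coeff p.1 w * ((((n s)! : ℕ) : R) * coeff p.2 fp) := by ring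
            rw [h5]
            exact I.mul_mem (hwI _) h4
      · rw [mul_zero]; exact I.zero_mem

/-- Facts on `G`. -/
theorem G_facts (hst : s ≠ t) (hc : c ∈ I) (hS : Sys s t i j M b c fp fm)
    (hE : EData s t I c i j E) {N : ℕ} (hNM : N ≤ M)
    (hD : DP s I N (HH t fp))
    (h0 : ∀ n : N2, Finsupp.degree n ≤ N → n s = 0 → n ≠ 0 → coeff n (HH t fp) = 0) (m : ℕ) :
    (∀ n : N2, Finsupp.degree n ≤ N → n s = 0 → n ≠ 0 → coeff n ((fm * inv1 E) ^ m) = 0) ∧
    (∀ n : N2, Finsupp.degree n ≤ N → n ≠ 0 →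
      ∃ r ∈ I, (((n s)! : ℕ) : R) * coeff n ((fm * inv1 E) ^ m) = ((m : R) * c) * r) ∧
    (∀ n : N2, Finsupp.degree n ≤ N → coeff n ((fm * inv1 E) ^ m) ≠ 0 → i * n s ≤ j * n t) := by
  set G := fm * inv1 E with hGdef
  have hG1 : constantCoeff G = 1 := by
    rw [hGdef, map_mul, hS.hm, constantCoeff_inv1, one_mul]
  have hlgG : lg G = lg fm - C c * lg (1 + X t) := by
    rw [hGdef, lg_mul hS.hm (constantCoeff_inv1 E), lg_inv1 hE.h1, hE.lgE, sub_eq_add_neg]
  have hcoef : ∀ n : N2, Finsupp.degree n ≤ M → coeff n (lg G) =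
      if j * n t < i * n s then 0 else c * coeff n (lg (HH t fp)) := by
    intro n hn
    rw [hlgG, map_sub, hS.eqm n hn, coeff_C_mul, lg_HH, map_add]
    split_ifs with h
    · have : coeff n (lg (1 + X t : MvPowerSeries (Fin 2) R)) = 0 := by
        by_contra hne
        have := lg_one_add_X_sup hst hne
        rw [this, mul_zero] at h
        omega
      rw [this, mul_zero, sub_zero]
    · ring
  have hH := lg_DP (HH_const t fp) h0 hD
  have hlm : ∀ n : N2, coeff n (lg (G ^ m)) = (m : R) * coeff n (lg G) := by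
    intro n
    rw [lg_pow hG1, nsmul_eq_mul, ← map_natCast (C : R →+* MvPowerSeries (Fin 2) R), coeff_C_mul]
  have hGm1 := constantCoeff_pow1 hG1 m
  have hz : ∀ n : N2, Finsupp.degree n ≤ N → n s = 0 → coeff n (lg (G ^ m)) = 0 := by
    intro n hn hns
    rw [hlm, hcoef n (by omega)]
    split_ifs
    · rw [mul_zero]
    · rw [hH.1 n hn hns, mul_zero, mul_zero]
  have hex : ∀ n : N2, Finsupp.degree n ≤ N →
      ∃ r ∈ I, (((n s)! : ℕ) : R) * coeff n (lg (G ^ m)) = ((m : R) * c) * r := by
    intro n hn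
    rw [hlm, hcoef n (by omega)]
    split_ifs
    · exact ⟨0, I.zero_mem, by ring⟩
    · exact ⟨_, hH.2 n hn, by ring⟩
  obtain ⟨r1, r2⟩ := of_lg (I.mul_mem (natCast_mem I m) hc) hGm1 hz hex
  refine ⟨r1, r2, ?_⟩
  have h3 : Supd N (subLe s t i j) (lg (G ^ m)) := by
    intro n hn hne
    rw [hlm, hcoef n (by omega)] at hne
    show i * n s ≤ j * n t
    by_contra hcon
    rw [if_pos (by omega), mul_zero] at hne
    exact hne rfl
  exact supd_of_lg hGm1 h3

theorem E_pow_sup (hE : EData s t I c i j E) (m : ℕ) (n : N2) (h : coeff n (E ^ m) ≠ 0) :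
    n s = 0 := by
  have h1 : Sup ((subS s : AddSubmonoid N2) : Set N2) E := fun k hk => hE.sup k hk
  exact Sup.pow' h1 m n h

theorem fm_eq (hE : EData s t I c i j E) : fm = E * (fm * inv1 E) := by
  have := mul_inv1 hE.h1
  linear_combination (-fm) * this

theorem fp_DP (hst : s ≠ t) (hj : 0 < j) (hij : i ≤ j) (hb : b ∈ I) (hc : c ∈ I)
    (hS : Sys s t i j M b c fp fm) (hE : EData s t I c i j E) :
    ∀ N ≤ M, DP s I N fp := by
  have hz : ∀ n : N2, Finsupp.degree n ≤ M → n s = 0 → coeff n (lg fp) = 0 := by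
    intro n hn hns
    rw [hS.eqp n hn, if_neg]
    rw [hns, mul_zero]; omega
  have hy0 := y0_of_lg hS.hp hz
  intro N
  induction N with
  | zero =>
    intro _ n hn
    have hn0 : n = 0 := (Finsupp.degree_eq_zero_iff n).1 (by omega)
    rw [hn0, coeff_zero_eq_constantCoeff_apply, hS.hp, mul_one]
    exact natCast_mem I _
  | succ N ih =>
    intro hNM
    have hD := ih (by omega)
    obtain ⟨hH0, hHD⟩ := HH_facts (t := t) hst (fun n hn => hy0 n (by omega)) hS.hp hD
    have hGf := G_facts hst hc hS hE (N := N + 1) hNM hHD hH0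
    have hGD : ∀ m : ℕ, DP s I (N + 1) ((fm * inv1 E) ^ m) := by
      intro m
      refine DP_of (I.mul_mem (natCast_mem I m) hc) ?_ (hGf m).2.1
      apply constantCoeff_pow1
      rw [map_mul, hS.hm, constantCoeff_inv1, one_mul]
    have hkey : ∀ n : N2, Finsupp.degree n ≤ N + 1 → j * n t < i * n s →
        (((n s)! : ℕ) : R) * coeff n (lg (1 + X s * fm)) ∈ I := by
      intro n hn hlt
      rw [fm_eq (fm := fm) hE]
      exact key_mem hst hj hij (E_pow_sup hE) hE.H1 hGD (fun m n hn hne => (hGf m).2.2 n hn hne)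
        (by omega) (le_of_lt hlt)
    have hL : ∀ n : N2, Finsupp.degree n ≤ N + 1 →
        ∃ r ∈ I, (((n s)! : ℕ) : R) * coeff n (lg fp) = 1 * r := by
      intro n hn
      rw [hS.eqp n (by omega)]
      split_ifs with h
      · refine ⟨_, I.mul_mem hb (hkey n hn h), by ring⟩
      · exact ⟨0, I.zero_mem, by ring⟩
    exact DP_of I.one_mem hS.hp
      (of_lg I.one_mem hS.hp (fun n hn => hz n (by omega)) hL).2

/-- **The integrality statement** for the coefficient on the ray. -/
theorem core (hst : s ≠ t) (hi : 0 < i) (hij : i ≤ j) (hb : b ∈ I) (hc : c ∈ I)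
    (hS : Sys s t i j M b c fp fm) (hE : EData s t I c i j E) (hM : i + j ≤ M + 1)
    {n : N2} (hnt : n t = i) (hns : n s = j) :
    ∃ r ∈ I, ((Nat.gcd i j * (j - 1)! : ℕ) : R) * coeff n (lg (1 + X s * fm)) = c * r := by
  have hj : 0 < j := by omega
  have hz : ∀ n : N2, Finsupp.degree n ≤ M → n s = 0 → coeff n (lg fp) = 0 := by
    intro n hn hns
    rw [hS.eqp n hn, if_neg]
    rw [hns, mul_zero]; omega
  have hy0 := y0_of_lg hS.hp hz
  have hD := fp_DP hst hj hij hb hc hS hE M le_rfl
  obtain ⟨hH0, hHD⟩ := HH_facts (t := t) hst hy0 hS.hp hD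
  have hGf := G_facts hst hc hS hE (N := M) le_rfl
    (fun n hn => hHD n (by omega)) (fun n hn => hH0 n (by omega))
  rw [fm_eq (fm := fm) hE, expand, hns, Finset.mul_sum]
  have hterm : ∀ m ∈ range j, ∃ r ∈ I, ((Nat.gcd i j * (j - 1)! : ℕ) : R) * (lc R m *
      ∑ p ∈ antidiagonal (n - Finsupp.single s (m + 1)),
        coeff p.1 (E ^ (m + 1)) * coeff p.2 ((fm * inv1 E) ^ (m + 1))) = c * r := by
    intro m hm
    rw [Finset.mem_range] at hm
    have hterm2 : ∀ p ∈ antidiagonal (n - Finsupp.single s (m + 1)), ∃ r ∈ I,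
        ((Nat.gcd i j * (j - 1)! : ℕ) : R) * (lc R m *
          (coeff p.1 (E ^ (m + 1)) * coeff p.2 ((fm * inv1 E) ^ (m + 1)))) = c * r := by
      intro p hp
      obtain ⟨h1, h2, h3⟩ := split_facts hst (by rw [hns]; exact hm) hp
      by_cases hA : coeff p.1 (E ^ (m + 1)) = 0
      · exact ⟨0, I.zero_mem, by rw [hA]; ring⟩
      by_cases hB : coeff p.2 ((fm * inv1 E) ^ (m + 1)) = 0
      · exact ⟨0, I.zero_mem, by rw [hB]; ring⟩
      have hp1s := E_pow_sup hE _ _ hA
      have hdn : Finsupp.degree n = i + j := by rw [deg_eq hst, hnt, hns]; omega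
      have hp2 := (hGf (m + 1)).2.2 p.2 (by omega) hB
      have hp1 : p.1 = Finsupp.single t (p.1 t) := by
        apply ext_st hst
        · rw [hp1s, Finsupp.single_eq_of_ne hst]
        · rw [Finsupp.single_eq_same]
      by_cases hp20 : p.2 = 0
      · -- the main term
        rw [hp20] at h1 h2
        have h1' : m + 1 = j := by
          have : (0 : N2) s = 0 := rfl
          omega
        have h2' : p.1 t = i := by
          have : (0 : N2) t = 0 := rfl
          omega
        obtain ⟨r, hr, hr'⟩ := hE.H2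
        refine ⟨(-1) ^ m * r, I.mul_mem (I.pow_mem (I.neg_mem I.one_mem) _) hr, ?_⟩
        have hG1 : constantCoeff ((fm * inv1 E) ^ j) = 1 := by
          apply constantCoeff_pow1
          rw [map_mul, hS.hm, constantCoeff_inv1, one_mul]
        rw [hp20, hp1, h2', h1', coeff_zero_eq_constantCoeff_apply, hG1, mul_one]
        have h4 : lc R m = (-1) ^ m * algebraMap ℚ R (1 / (j : ℚ)) := by
          unfold lc
          rw [← h1', show (-1 : ℚ) ^ m / ((m : ℚ) + 1) = (-1) ^ m * (1 / ((m + 1 : ℕ) : ℚ)) by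
            push_cast; ring, map_mul, map_pow, map_neg, map_one]
        rw [h4]
        linear_combination ((-1) ^ m) * hr'
      · obtain ⟨r, hr, hr'⟩ := (hGf (m + 1)).2.1 p.2 (by omega) hp20
        have hle : p.1 t ≤ m + 1 := by
          have h4 : j * p.1 t ≤ i * (m + 1) := by
            have h5 : j * i = j * p.1 t + j * p.2 t := by rw [← hnt, ← h2, mul_add]
            have h6 : i * j = i * (m + 1) + i * p.2 s := by
              rw [← hns, ← h1, hp1s, zero_add]; ring
            have h7 : j * i = i * j := Nat.mul_comm _ _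
            omega
          have h7 : i * (m + 1) ≤ j * (m + 1) := Nat.mul_le_mul_right _ hij
          exact Nat.le_of_mul_le_mul_left (le_trans h4 h7) hj
        have hA' := hE.H1 (m + 1) (p.1 t) (by omega) hle
        rw [← hp1, Nat.add_sub_cancel] at hA'
        have hfac : (((j - 1)! : ℕ) : R) = ((j - 1).choose m : R) * ((m ! : ℕ) : R) *
            (((p.2 s)! : ℕ) : R) := by
          have h8 := Nat.choose_mul_factorial_mul_factorial (show m ≤ j - 1 by omega)
          rw [show j - 1 - m = p.2 s by omega] at h8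
          rw [← h8]; push_cast; ring
        refine ⟨(Nat.gcd i j : R) * ((j - 1).choose m : R) * (-1) ^ m *
          (((m ! : ℕ) : R) * coeff p.1 (E ^ (m + 1))) * r, ?_, ?_⟩
        · exact I.mul_mem (I.mul_mem (I.mul_mem (I.mul_mem (natCast_mem I _) (natCast_mem I _))
            (I.pow_mem (I.neg_mem I.one_mem) _)) hA') hr
        · have hlc := lc_mul (R := R) m
          rw [Nat.cast_mul, hfac]
          calc _ = ((Nat.gcd i j : R) * ((j - 1).choose m : R) *
                (((m ! : ℕ) : R) * coeff p.1 (E ^ (m + 1)))) * lc R m *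
                ((((p.2 s)! : ℕ) : R) * coeff p.2 ((fm * inv1 E) ^ (m + 1))) := by ring
            _ = _ := by
              rw [hr', ← hlc]
              ring
    choose! r hr hr' using hterm2
    refine ⟨∑ p ∈ antidiagonal (n - Finsupp.single s (m + 1)), r p, I.sum_mem hr, ?_⟩
    rw [Finset.mul_sum, Finset.mul_sum, Finset.mul_sum]
    exact Finset.sum_congr rfl hr'
  choose! r hr hr' using hterm
  refine ⟨∑ m ∈ range j, r m, I.sum_mem hr, ?_⟩
  rw [Finset.mul_sum]
  exact Finset.sum_congr rfl hr'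

end main

end Pool.Agent.LibScat
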