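import Mathlib

/-!
Rank two cluster scattering diagrams.
-/

namespace Pool.Agent.LibScat

open MvPowerSeries

variable {K : Type*} [Field K]

/-- The images of the two variables under the wall-crossing automorphism attached to the
direction `v` and the wall-function `f`: `x₁ ↦ x₁ f^(-v₂)` and `x₂ ↦ x₂ f^(v₁)`. -/
noncomputable def crossVar (v : Fin 2 →₀ ℕ) (f : MvPowerSeries (Fin 2) K) :
    Fin 2 → MvPowerSeries (Fin 2) K :=
  ![X 0 * f⁻¹ ^ v 1, X 1 * f ^ v 0]

/-- The wall-crossing automorphism of the ring of power series in two variables. -/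
noncomputable def cross (v : Fin 2 →₀ ℕ) (f g : MvPowerSeries (Fin 2) K) :
    MvPowerSeries (Fin 2) K :=
  subst (crossVar v f) g

/-- A wall-function for the direction `v`: constant term one, and a power series in the monomial
with exponent `v`. -/
def IsWallFun (v : Fin 2 →₀ ℕ) (f : MvPowerSeries (Fin 2) K) : Prop :=
  constantCoeff f = 1 ∧ ∀ n, coeff n f ≠ 0 → ∃ k : ℕ, n = k • v

/-- Primitive vectors with positive entries. -/
def Prim (v : Fin 2 →₀ ℕ) : Prop := 0 < v 0 ∧ 0 < v 1 ∧ Nat.Coprime (v 0) (v 1)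

/-- The rank two cluster scattering diagram with parameters `b`, `c`. It has the two lines with
wall-functions `1 + x₁^b` and `1 + x₂^c`, and for each primitive vector `v` with positive entries
the ray in direction `-v` with wall-function `f v`. The path-ordered product of the wall-crossing
automorphisms around the origin is the identity: to every order `N`,
`θ₁ ∘ θ₂ = θ₂ ∘ (∏ θ_v) ∘ θ₁`, where `θ₁`, `θ₂` belong to the lines and the product is over the
rays with `v₁ + v₂ ≤ N`, in the order of decreasing slope `v₂ / v₁`. -/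
structure IsDiagram (b c : ℕ) (f : (Fin 2 →₀ ℕ) → MvPowerSeries (Fin 2) K) : Prop where
  wall : ∀ v, Prim v → IsWallFun v (f v)
  consistent : ∀ N : ℕ, ∃ l : List (Fin 2 →₀ ℕ),
    l.Pairwise (fun v w => w 1 * v 0 < v 1 * w 0) ∧
    (∀ v, v ∈ l ↔ Prim v ∧ v 0 + v 1 ≤ N) ∧
    ∀ (g : MvPowerSeries (Fin 2) K) (n : Fin 2 →₀ ℕ), n 0 + n 1 ≤ N →
      coeff n (cross (Finsupp.single 0 1) (1 + X 0 ^ b)
        (cross (Finsupp.single 1 1) (1 + X 1 ^ c) g)) =
      coeff n (cross (Finsupp.single 1 1) (1 + X 1 ^ c)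
        (l.foldr (fun v h => cross v (f v) h) (cross (Finsupp.single 0 1) (1 + X 0 ^ b) g)))

/-- The vector with entries `p`, `q`. -/
noncomputable def vec (p q : ℕ) : Fin 2 →₀ ℕ := Finsupp.single 0 p + Finsupp.single 1 q

/-- The coefficient `τ(i,j)`: the coefficient of `x₁^(ib) x₂^(jc)` in the wall-function of the ray
whose direction is that of `-(ib, jc)`. -/
noncomputable def tau (f : (Fin 2 →₀ ℕ) → MvPowerSeries (Fin 2) K) (b c i j : ℕ) : K :=
  coeff (vec (i * b) (j * c))
    (f (vec (i * b / Nat.gcd (i * b) (j * c)) (j * c / Nat.gcd (i * b) (j * c))))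

/-- The polynomial `T` in three variables with rational coefficients expresses `τ(i,j)` for the
family of diagrams `F`: for all positive `b`, `c` one has `τ(i,j) = T(b,c,g)` where
`g = gcd(ib, jc) / gcd(i, j)`. -/
def Expresses [CharZero K] (F : ℕ → ℕ → (Fin 2 →₀ ℕ) → MvPowerSeries (Fin 2) K) (i j : ℕ)
    (T : MvPolynomial (Fin 3) ℚ) : Prop :=
  ∀ b c : ℕ, 0 < b → 0 < c → tau (F b c) b c i j =
    MvPolynomial.aeval ![(b : K), (c : K), ((Nat.gcd (i * b) (j * c) / Nat.gcd i j : ℕ) : K)] T

end Pool.Agent.LibScat
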