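import Pool.Agent.LibScat.Core
import Pool.Agent.LibScat.Defs

/-!
Basic properties of wall-crossing automorphisms.
-/

namespace Pool.Agent.LibScat

open MvPowerSeries Finset

variable {K : Type*} [Field K]

theorem crossVar_zero (v : N2) (f : MvPowerSeries (Fin 2) K) :
    crossVar v f 0 = X 0 * f⁻¹ ^ v 1 := rfl

theorem crossVar_one (v : N2) (f : MvPowerSeries (Fin 2) K) :
    crossVar v f 1 = X 1 * f ^ v 0 := rfl

theorem hasSubst_crossVar (v : N2) (f : MvPowerSeries (Fin 2) K) : HasSubst (crossVar v f) := by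
  apply hasSubst_of_constantCoeff_zero
  intro s
  fin_cases s
  · show constantCoeff (X 0 * f⁻¹ ^ v 1) = 0
    rw [map_mul, constantCoeff_X, zero_mul]
  · show constantCoeff (X 1 * f ^ v 0) = 0
    rw [map_mul, constantCoeff_X, zero_mul]

theorem cross_mul (v : N2) (f g h : MvPowerSeries (Fin 2) K) :
    cross v f (g * h) = cross v f g * cross v f h := subst_mul (hasSubst_crossVar v f) g h

theorem cross_add (v : N2) (f g h : MvPowerSeries (Fin 2) K) :
    cross v f (g + h) = cross v f g + cross v f h := subst_add (hasSubst_crossVar v f) g h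

theorem cross_pow (v : N2) (f g : MvPowerSeries (Fin 2) K) (m : ℕ) :
    cross v f (g ^ m) = cross v f g ^ m := subst_pow (hasSubst_crossVar v f) g m

theorem cross_one (v : N2) (f : MvPowerSeries (Fin 2) K) : cross v f 1 = 1 := by
  have : (1 : MvPowerSeries (Fin 2) K) = C (1 : K) := by rw [map_one]
  unfold cross
  rw [this, subst_C]

theorem cross_X0 (v : N2) (f : MvPowerSeries (Fin 2) K) :
    cross v f (X 0) = X 0 * f⁻¹ ^ v 1 := subst_X (hasSubst_crossVar v f) 0

theorem cross_X1 (v : N2) (f : MvPowerSeries (Fin 2) K) :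
    cross v f (X 1) = X 1 * f ^ v 0 := subst_X (hasSubst_crossVar v f) 1

/-- the unit factor of the image of a monomial -/
noncomputable def uf (v : N2) (f : MvPowerSeries (Fin 2) K) (d : N2) : MvPowerSeries (Fin 2) K :=
  (f⁻¹ ^ v 1) ^ d 0 * (f ^ v 0) ^ d 1

theorem monomial_eq (d : N2) :
    (monomial d (1 : K) : MvPowerSeries (Fin 2) K) = X 0 ^ d 0 * X 1 ^ d 1 := by
  have h : d = Finsupp.single 0 (d 0) + Finsupp.single 1 (d 1) := by
    ext s
    fin_cases s <;> simp
  rw [X_pow_eq, X_pow_eq, monomial_mul_monomial, one_mul, ← h]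

theorem prod_crossVar (v : N2) (f : MvPowerSeries (Fin 2) K) (d : N2) :
    (d.prod fun s e => crossVar v f s ^ e) = monomial d (1 : K) * uf v f d := by
  rw [Finsupp.prod_fintype _ _ (fun _ => pow_zero _), Fin.prod_univ_two, crossVar_zero,
    crossVar_one, monomial_eq, uf, mul_pow, mul_pow]
  ring

theorem coeff_cross (v : N2) (f g : MvPowerSeries (Fin 2) K) (e : N2) :
    coeff e (cross v f g) =
      finsum fun d => coeff d g • coeff e (monomial d (1 : K) * uf v f d) := by
  unfold cross
  rw [coeff_subst (hasSubst_crossVar v f)]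
  refine finsum_congr fun d => ?_
  rw [prod_crossVar]

theorem coeff_cross_ne {v : N2} {f g : MvPowerSeries (Fin 2) K} {e : N2}
    (h : coeff e (cross v f g) ≠ 0) :
    ∃ d ≤ e, coeff d g ≠ 0 ∧ coeff (e - d) (uf v f d) ≠ 0 := by
  rw [coeff_cross] at h
  obtain ⟨d, hd⟩ : ∃ d : N2, coeff d g • coeff e (monomial d (1 : K) * uf v f d) ≠ 0 := by
    by_contra hcon
    push Not at hcon
    exact h (finsum_eq_zero_of_forall_eq_zero hcon)
  rw [coeff_monomial_mul] at hd
  have h1 := left_ne_zero_of_smul hd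
  have h2 := right_ne_zero_of_smul hd
  by_cases hde : d ≤ e
  · rw [if_pos hde, one_mul] at h2
    exact ⟨d, hde, h1, h2⟩
  · rw [if_neg hde] at h2
    exact absurd rfl h2

theorem Eqd.cross {N : ℕ} {v : N2} {f g h : MvPowerSeries (Fin 2) K} (hgh : Eqd N g h) :
    Eqd N (cross v f g) (cross v f h) := by
  intro e he
  rw [coeff_cross, coeff_cross]
  refine finsum_congr fun d => ?_
  rw [coeff_monomial_mul]
  split_ifs with hd
  · rw [hgh d (le_trans (Finsupp.degree_mono hd) he)]
  · rw [smul_zero, smul_zero]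

theorem constantCoeff_inv' {f : MvPowerSeries (Fin 2) K} (hf : constantCoeff f = 1) :
    constantCoeff f⁻¹ = 1 := by
  rw [constantCoeff_inv, hf, inv_one]

theorem mul_inv' {f : MvPowerSeries (Fin 2) K} (hf : constantCoeff f = 1) : f * f⁻¹ = 1 :=
  MvPowerSeries.mul_inv_cancel f (by rw [hf]; exact one_ne_zero)

theorem inv_eq_inv1 {f : MvPowerSeries (Fin 2) K} (hf : constantCoeff f = 1) : f⁻¹ = inv1 f :=
  inv1_unique hf (mul_inv' hf)

theorem inv_inv' {f : MvPowerSeries (Fin 2) K} (hf : constantCoeff f = 1) : f⁻¹⁻¹ = f := by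
  rw [inv_eq_inv1 (constantCoeff_inv' hf), inv_eq_inv1 hf, inv1_inv1 hf]

/-- the multiples of a vector -/
noncomputable def mults (v : N2) : AddSubmonoid N2 := AddSubmonoid.multiples v

theorem IsWallFun.sup {v : N2} {f : MvPowerSeries (Fin 2) K} (h : IsWallFun v f) :
    Sup (mults v : Set N2) f := by
  intro n hn
  obtain ⟨k, hk⟩ := h.2 n hn
  exact ⟨k, hk.symm⟩

theorem IsWallFun.inv {v : N2} {f : MvPowerSeries (Fin 2) K} (h : IsWallFun v f) :
    IsWallFun v f⁻¹ := by
  refine ⟨constantCoeff_inv' h.1, ?_⟩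
  intro n hn
  rw [inv_eq_inv1 h.1] at hn
  obtain ⟨k, hk⟩ := Sup.inv1 h.1 h.sup n hn
  exact ⟨k, hk.symm⟩

theorem uf_const {v : N2} {f : MvPowerSeries (Fin 2) K} (hf : constantCoeff f = 1) (d : N2) :
    constantCoeff (uf v f d) = 1 := by
  unfold uf
  rw [map_mul, map_pow, map_pow, map_pow, map_pow, constantCoeff_inv' hf, hf]
  simp

theorem uf_sup {v : N2} {f : MvPowerSeries (Fin 2) K} (h : IsWallFun v f) (d : N2) :
    Sup (mults v : Set N2) (uf v f d) :=
  Sup.mul' (Sup.pow' (Sup.pow' h.inv.sup _) _) (Sup.pow' (Sup.pow' h.sup _) _)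

/-- Wall-crossing preserves supports in a suitable submonoid. -/
theorem sup_cross {v : N2} {f g : MvPowerSeries (Fin 2) K} (h : IsWallFun v f)
    {S : AddSubmonoid N2} (hS : ∀ d ∈ S, d ≠ 0 → ∀ k : ℕ, d + k • v ∈ S)
    (hg : Sup (S : Set N2) g) : Sup (S : Set N2) (cross v f g) := by
  intro e he
  obtain ⟨d, hde, h1, h2⟩ := coeff_cross_ne he
  by_cases hd : d = 0
  · subst hd
    have h3 : uf v f (0 : N2) = 1 := by
      unfold uf
      simp
    rw [h3, tsub_zero, coeff_one] at h2
    by_cases he0 : e = 0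
    · rw [he0]; exact S.zero_mem
    · rw [if_neg he0] at h2; exact absurd rfl h2
  · obtain ⟨k, hk⟩ := uf_sup h d _ h2
    have h3 : e = d + k • v := by
      have hk' : k • v = e - d := hk
      rw [hk', add_tsub_cancel_of_le hde]
    rw [h3]
    exact hS d (hg d h1) hd k

theorem constantCoeff_cross {v : N2} {f g : MvPowerSeries (Fin 2) K}
    (hg : constantCoeff g = 1) : constantCoeff (cross v f g) = 1 := by
  have h : g = 1 + (g - 1) := by ring
  have h2 : constantCoeff (cross v f (g - 1)) = 0 := by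
    by_contra hne
    rw [← coeff_zero_eq_constantCoeff_apply] at hne
    obtain ⟨d, hd, h1, h2⟩ := coeff_cross_ne hne
    have hd0 : d = 0 := le_antisymm hd zero_le
    rw [hd0, map_sub, coeff_zero_eq_constantCoeff_apply, hg, coeff_zero_one, sub_self] at h1
    exact h1 rfl
  rw [h, cross_add, cross_one, map_add, h2, map_one, add_zero]

/-- A wall-function is invariant under its wall-crossing automorphism. -/
theorem cross_self {v : N2} {f g : MvPowerSeries (Fin 2) K} (hf : constantCoeff f = 1)
    (hg : ∀ n, coeff n g ≠ 0 → ∃ k : ℕ, n = k • v) : cross v f g = g := by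
  ext e
  rw [coeff_cross]
  have h1 : coeff e g = coeff e (subst (X : Fin 2 → MvPowerSeries (Fin 2) K) g) := by
    rw [subst_self]; rfl
  rw [h1, coeff_subst HasSubst.X]
  refine finsum_congr fun d => ?_
  by_cases hd : coeff d g = 0
  · rw [hd, zero_smul, zero_smul]
  · obtain ⟨k, hk⟩ := hg d hd
    have h2 : uf v f d = 1 := by
      unfold uf
      rw [hk]
      have e0 : (k • v) 0 = k * v 0 := rfl
      have e1 : (k • v) 1 = k * v 1 := rfl
      rw [e0, e1, ← pow_mul, ← pow_mul, show v 1 * (k * v 0) = v 0 * (k * v 1) by ring,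
        ← mul_pow, mul_comm, mul_inv' hf, one_pow]
    have h3 : (d.prod fun s e => (X s : MvPowerSeries (Fin 2) K) ^ e) = monomial d 1 := by
      rw [Finsupp.prod_fintype _ _ (fun _ => pow_zero _), Fin.prod_univ_two, monomial_eq]
    rw [h2, mul_one, h3]

theorem cross_inv_cross {v : N2} {f : MvPowerSeries (Fin 2) K} (h : IsWallFun v f)
    (g : MvPowerSeries (Fin 2) K) : cross v f⁻¹ (cross v f g) = g := by
  unfold cross
  rw [subst_comp_subst_apply (hasSubst_crossVar v f) (hasSubst_crossVar v f⁻¹)]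
  have h1 : (fun s => subst (crossVar v f⁻¹) (crossVar v f s)) =
      (X : Fin 2 → MvPowerSeries (Fin 2) K) := by
    funext s
    have hinv : cross v f⁻¹ f⁻¹ = f⁻¹ := cross_self h.inv.1 h.inv.2
    have hf : cross v f⁻¹ f = f := cross_self h.inv.1 h.2
    fin_cases s
    · show cross v f⁻¹ (X 0 * f⁻¹ ^ v 1) = X 0
      rw [cross_mul, cross_X0, cross_pow, hinv, inv_inv' h.1, mul_assoc, ← mul_pow, mul_inv' h.1,
        one_pow, mul_one]
    · show cross v f⁻¹ (X 1 * f ^ v 0) = X 1
      rw [cross_mul, cross_X1, cross_pow, hf, mul_assoc, ← mul_pow, mul_comm f⁻¹, mul_inv' h.1,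
        one_pow, mul_one]
  rw [h1, subst_self]
  rfl

/-! ### Lists of walls -/

/-- The product of wall-crossing automorphisms. -/
noncomputable def act (W : List (N2 × MvPowerSeries (Fin 2) K)) (g : MvPowerSeries (Fin 2) K) :
    MvPowerSeries (Fin 2) K := W.foldr (fun p h => cross p.1 p.2 h) g

theorem act_nil (g : MvPowerSeries (Fin 2) K) : act [] g = g := rfl

theorem act_cons (p : N2 × MvPowerSeries (Fin 2) K) (W : List (N2 × MvPowerSeries (Fin 2) K))
    (g : MvPowerSeries (Fin 2) K) : act (p :: W) g = cross p.1 p.2 (act W g) := rfl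

theorem act_append (W W' : List (N2 × MvPowerSeries (Fin 2) K)) (g : MvPowerSeries (Fin 2) K) :
    act (W ++ W') g = act W (act W' g) := List.foldr_append

/-- the inverse list -/
noncomputable def winv (W : List (N2 × MvPowerSeries (Fin 2) K)) :
    List (N2 × MvPowerSeries (Fin 2) K) := (W.map fun p => (p.1, p.2⁻¹)).reverse

/-- all entries are walls -/
def Walls (W : List (N2 × MvPowerSeries (Fin 2) K)) : Prop := ∀ p ∈ W, IsWallFun p.1 p.2

theorem Walls.winv {W : List (N2 × MvPowerSeries (Fin 2) K)} (h : Walls W) : Walls (winv W) := by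
  intro p hp
  unfold LibScat.winv at hp
  rw [List.mem_reverse, List.mem_map] at hp
  obtain ⟨q, hq, rfl⟩ := hp
  exact (h q hq).inv

theorem act_winv_act {W : List (N2 × MvPowerSeries (Fin 2) K)} (h : Walls W)
    (g : MvPowerSeries (Fin 2) K) : act (winv W) (act W g) = g := by
  induction W with
  | nil => rfl
  | cons p W ih =>
    have h1 : winv (p :: W) = winv W ++ [(p.1, p.2⁻¹)] := by
      unfold winv
      rw [List.map_cons, List.reverse_cons]
    rw [h1, act_append, act_cons, act_cons, act_nil, cross_inv_cross (h p List.mem_cons_self)]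
    exact ih fun q hq => h q (List.mem_cons_of_mem _ hq)

theorem act_mul (W : List (N2 × MvPowerSeries (Fin 2) K)) (g h : MvPowerSeries (Fin 2) K) :
    act W (g * h) = act W g * act W h := by
  induction W with
  | nil => rfl
  | cons p W ih => rw [act_cons, act_cons, act_cons, ih, cross_mul]

theorem act_add (W : List (N2 × MvPowerSeries (Fin 2) K)) (g h : MvPowerSeries (Fin 2) K) :
    act W (g + h) = act W g + act W h := by
  induction W with
  | nil => rfl
  | cons p W ih => rw [act_cons, act_cons, act_cons, ih, cross_add]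

theorem act_one (W : List (N2 × MvPowerSeries (Fin 2) K)) : act W 1 = 1 := by
  induction W with
  | nil => rfl
  | cons p W ih => rw [act_cons, ih, cross_one]

theorem act_pow (W : List (N2 × MvPowerSeries (Fin 2) K)) (g : MvPowerSeries (Fin 2) K) (m : ℕ) :
    act W (g ^ m) = act W g ^ m := by
  induction m with
  | zero => rw [pow_zero, pow_zero, act_one]
  | succ m ih => rw [pow_succ, pow_succ, act_mul, ih]

theorem Eqd.act {N : ℕ} {W : List (N2 × MvPowerSeries (Fin 2) K)}
    {g h : MvPowerSeries (Fin 2) K} (hgh : Eqd N g h) : Eqd N (act W g) (act W h) := by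
  induction W with
  | nil => exact hgh
  | cons p W ih => rw [act_cons, act_cons]; exact ih.cross

/-- the power of the wall function by which a variable is multiplied -/
noncomputable def mf (s : Fin 2) (v : N2) (f : MvPowerSeries (Fin 2) K) :
    MvPowerSeries (Fin 2) K := ![f⁻¹ ^ v 1, f ^ v 0] s

theorem cross_X (s : Fin 2) (v : N2) (f : MvPowerSeries (Fin 2) K) :
    cross v f (X s) = X s * mf s v f := by
  fin_cases s
  · exact cross_X0 v f
  · exact cross_X1 v f

theorem mf_const {v : N2} {f : MvPowerSeries (Fin 2) K} (s : Fin 2) (h : IsWallFun v f) :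
    constantCoeff (mf s v f) = 1 := by
  fin_cases s
  · show constantCoeff (f⁻¹ ^ v 1) = 1
    rw [map_pow, constantCoeff_inv' h.1, one_pow]
  · show constantCoeff (f ^ v 0) = 1
    rw [map_pow, h.1, one_pow]

theorem mf_sup {v : N2} {f : MvPowerSeries (Fin 2) K} (s : Fin 2) (h : IsWallFun v f) :
    Sup (mults v : Set N2) (mf s v f) := by
  fin_cases s
  · exact Sup.pow' h.inv.sup _
  · exact Sup.pow' h.sup _

theorem sup_mono {S T : Set N2} (hST : S ⊆ T) {f : MvPowerSeries (Fin 2) K} (h : Sup S f) :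
    Sup T f := fun n hn => hST (h n hn)

theorem mults_le {S : AddSubmonoid N2} {v : N2} (hv : v ∈ S) : (mults v : Set N2) ⊆ S := by
  rintro _ ⟨k, rfl⟩
  exact S.nsmul_mem hv k

/-- The action on a variable: multiplication by a series with support in a submonoid containing
all the directions. -/
theorem act_X {W : List (N2 × MvPowerSeries (Fin 2) K)} (hW : Walls W) {S : AddSubmonoid N2}
    (hS : ∀ p ∈ W, p.1 ∈ S) (s : Fin 2) :
    ∃ u, act W (X s) = X s * u ∧ constantCoeff u = 1 ∧ Sup (S : Set N2) u := by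
  induction W with
  | nil => exact ⟨1, by rw [act_nil, mul_one], map_one _, Sup.one S⟩
  | cons p W ih =>
    obtain ⟨u, h1, h2, h3⟩ := ih (fun q hq => hW q (List.mem_cons_of_mem _ hq))
      (fun q hq => hS q (List.mem_cons_of_mem _ hq))
    have hp := hW p List.mem_cons_self
    have hpS := hS p List.mem_cons_self
    refine ⟨mf s p.1 p.2 * cross p.1 p.2 u, ?_, ?_, ?_⟩
    · rw [act_cons, h1, cross_mul, cross_X, mul_assoc]
    · rw [map_mul, mf_const s hp, constantCoeff_cross h2, one_mul]
    · refine Sup.mul' (sup_mono (mults_le hpS) (mf_sup s hp)) (sup_cross hp ?_ h3)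
      intro d hd _ k
      exact S.add_mem hd (S.nsmul_mem hpS k)

theorem eqd_cancel {N : ℕ} {s : Fin 2} {f g : MvPowerSeries (Fin 2) K}
    (h : Eqd (N + 1) (X s * f) (X s * g)) : Eqd N f g := by
  intro n hn
  have h1 := h (Finsupp.single s 1 + n) (by
    rw [map_add, Finsupp.degree_single]; omega)
  have h2 : ∀ f : MvPowerSeries (Fin 2) K, coeff (Finsupp.single s 1 + n) (X s * f) =
      coeff n f := by
    intro f
    have := coeff_add_monomial_mul (Finsupp.single s 1) n f (1 : K)
    rw [one_mul] at this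
    exact this
  rw [h2, h2] at h1
  exact h1

end Pool.Agent.LibScat
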