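import Pool.Agent.LibScat.Tau

/-!
Zariski density of the triples of parameters, and the polynomials expressing the coefficients.
-/

namespace Pool.Agent.LibScat

open Finset
open scoped Nat

theorem line_zero (Q : MvPolynomial (Fin 3) ℚ) (A B : Fin 3 → ℚ)
    (h : ∀ n : ℕ, MvPolynomial.eval (fun i => A i + B i * n) Q = 0) (r : ℚ) :
    MvPolynomial.eval (fun i => A i + B i * r) Q = 0 := by
  set p : Polynomial ℚ := MvPolynomial.aeval
    (fun i => Polynomial.C (A i) + Polynomial.C (B i) * Polynomial.X) Q with hp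
  have hev : ∀ x : ℚ, p.eval x = MvPolynomial.eval (fun i => A i + B i * x) Q := by
    intro x
    have h1 : (Polynomial.evalRingHom x).comp
        (MvPolynomial.aeval (R := ℚ) (fun i : Fin 3 =>
          Polynomial.C (A i) + Polynomial.C (B i) * Polynomial.X)).toRingHom =
        MvPolynomial.eval (fun i => A i + B i * x) := by
      apply MvPolynomial.ringHom_ext
      · intro n
        simp
      · intro i
        simp
    exact RingHom.congr_fun h1 Q
  have hp0 : p = 0 := by
    apply Polynomial.eq_zero_of_infinite_isRoot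
    apply Set.Infinite.mono (s := Set.range (fun n : ℕ => (n : ℚ)))
    · rintro _ ⟨n, rfl⟩
      show p.eval (n : ℚ) = 0
      rw [hev, h n]
    · exact Set.infinite_range_of_injective Nat.cast_injective
  rw [← hev, hp0, Polynomial.eval_zero]

theorem gcd_param {d e : ℕ} (hde : Nat.Coprime d e) (G w u : ℕ) :
    Nat.gcd (d * (G * (1 + e * (1 + d * w) * u))) (e * (G * (1 + d * w))) = G := by
  have h1 : Nat.Coprime (d * (1 + e * (1 + d * w) * u)) (e * (1 + d * w)) := by
    apply Nat.Coprime.mul_left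
    · apply Nat.Coprime.mul_right hde
      have : 1 + d * w = 1 + w * d := by ring
      rw [this]
      simp
    · have : 1 + e * (1 + d * w) * u = 1 + u * (e * (1 + d * w)) := by ring
      rw [this]
      simp
  calc _ = Nat.gcd (G * (d * (1 + e * (1 + d * w) * u))) (G * (e * (1 + d * w))) := by
        congr 1 <;> ring
    _ = G := by rw [Nat.gcd_mul_left, h1, mul_one]

theorem line3 (Q : MvPolynomial (Fin 3) ℚ) (x0 x1 x2 y0 y1 y2 : ℚ)
    (h : ∀ n : ℕ, MvPolynomial.eval ![x0 + y0 * n, x1 + y1 * n, x2 + y2 * n] Q = 0) (r : ℚ) :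
    MvPolynomial.eval ![x0 + y0 * r, x1 + y1 * r, x2 + y2 * r] Q = 0 := by
  have key : ∀ r : ℚ, (fun i => ![x0, x1, x2] i + ![y0, y1, y2] i * r) =
      ![x0 + y0 * r, x1 + y1 * r, x2 + y2 * r] := by
    intro r
    funext i
    fin_cases i <;> rfl
  have h1 := line_zero Q ![x0, x1, x2] ![y0, y1, y2] (by
    intro n
    rw [key, h n]) r
  rw [key] at h1
  exact h1

/-- The triples of parameters are Zariski dense. -/
theorem dense {d e : ℕ} (hd : 0 < d) (he : 0 < e) (hde : Nat.Coprime d e)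
    (Q : MvPolynomial (Fin 3) ℚ)
    (h : ∀ b c : ℕ, 0 < b → 0 < c → MvPolynomial.eval
      ![(b : ℚ), (c : ℚ), ((Nat.gcd (d * b) (e * c) : ℕ) : ℚ)] Q = 0) : Q = 0 := by
  have hdQ : (d : ℚ) ≠ 0 := by exact_mod_cast hd.ne'
  have heQ : (e : ℚ) ≠ 0 := by exact_mod_cast he.ne'
  -- first step
  have s1 : ∀ (G w : ℕ) (x : ℚ), 0 < G →
      MvPolynomial.eval ![x, (G : ℚ) * (1 + d * w), (G : ℚ)] Q = 0 := by
    intro G w x hG
    have hGQ : (G : ℚ) ≠ 0 := by exact_mod_cast hG.ne'
    have hwQ : (1 + (d : ℚ) * w) ≠ 0 := by positivity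
    have h1 := line3 Q (G : ℚ) ((G : ℚ) * (1 + d * w)) (G : ℚ)
      ((G : ℚ) * (e * (1 + d * w))) 0 0 (by
        intro u
        have h2 := h (G * (1 + e * (1 + d * w) * u)) (G * (1 + d * w))
          (Nat.mul_pos hG (by positivity)) (Nat.mul_pos hG (by positivity))
        rw [gcd_param hde] at h2
        have e1 : (G : ℚ) + (G : ℚ) * (e * (1 + d * w)) * (u : ℚ) =
            ((G * (1 + e * (1 + d * w) * u) : ℕ) : ℚ) := by push_cast; ring
        have e2 : (G : ℚ) * (1 + d * w) + 0 * (u : ℚ) = ((G * (1 + d * w) : ℕ) : ℚ) := by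
          push_cast; ring
        have e3 : (G : ℚ) + 0 * (u : ℚ) = (G : ℚ) := by ring
        rw [e1, e2, e3, h2]) ((x - G) / ((G : ℚ) * (e * (1 + d * w))))
    have e1 : (G : ℚ) + (G : ℚ) * (e * (1 + d * w)) *
        ((x - G) / ((G : ℚ) * (e * (1 + d * w)))) = x := by
      field_simp
      ring
    rw [e1, zero_mul, add_zero, add_zero] at h1
    exact h1
  -- second step
  have s2 : ∀ (G : ℕ) (x y : ℚ), 0 < G →
      MvPolynomial.eval ![x, y, (G : ℚ)] Q = 0 := by
    intro G x y hG
    have hGQ : (G : ℚ) ≠ 0 := by exact_mod_cast hG.ne'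
    have h1 := line3 Q x (G : ℚ) (G : ℚ) 0 ((G : ℚ) * d) 0 (by
        intro w
        have h2 := s1 G w x hG
        have e1 : x + 0 * (w : ℚ) = x := by ring
        have e2 : (G : ℚ) + (G : ℚ) * d * (w : ℚ) = (G : ℚ) * (1 + d * w) := by ring
        have e3 : (G : ℚ) + 0 * (w : ℚ) = (G : ℚ) := by ring
        rw [e1, e2, e3, h2]) ((y - G) / ((G : ℚ) * d))
    have e1 : (G : ℚ) + (G : ℚ) * d * ((y - G) / ((G : ℚ) * d)) = y := by
      field_simp
      ring
    rw [e1, zero_mul, add_zero, add_zero] at h1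
    exact h1
  -- third step
  have s3 : ∀ x y z : ℚ, MvPolynomial.eval ![x, y, z] Q = 0 := by
    intro x y z
    have h1 := line3 Q x y 1 0 0 1 (by
        intro w
        have h2 := s2 (w + 1) x y (Nat.succ_pos _)
        have e1 : x + 0 * (w : ℚ) = x := by ring
        have e2 : y + 0 * (w : ℚ) = y := by ring
        have e3 : (1 : ℚ) + 1 * (w : ℚ) = ((w + 1 : ℕ) : ℚ) := by push_cast; ring
        rw [e1, e2, e3, h2]) (z - 1)
    have e1 : (1 : ℚ) + 1 * (z - 1) = z := by ring
    rw [e1, zero_mul, add_zero, add_zero] at h1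
    exact h1
  apply MvPolynomial.funext
  intro x
  have e1 : x = ![x 0, x 1, x 2] := by
    funext i
    fin_cases i <;> rfl
  rw [map_zero, e1]
  exact s3 _ _ _

end Pool.Agent.LibScat
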