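import Pool.Agent.LibScat.Jac

/-!
Comparison of two products of wall-crossing automorphisms in the first degree where they differ.
-/

namespace Pool.Agent.LibScat

open MvPowerSeries Finset

set_option linter.unusedSectionVars false

variable {K : Type*} [Field K] [CharZero K]

theorem coeff_mul_top {N : ℕ} {P R : MvPowerSeries (Fin 2) K} (hR : Eqd N R 0) {n : N2}
    (hn : Finsupp.degree n = N + 1) : coeff n (P * R) = constantCoeff P * coeff n R := by
  rw [coeff_mul, Finset.sum_eq_single ((0 : N2), n)]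
  · rw [coeff_zero_eq_constantCoeff_apply]
  · intro p hp hne
    have hdeg := degree_le_of_antidiagonal hp
    rw [Finset.HasAntidiagonal.mem_antidiagonal] at hp
    have h1 : Finsupp.degree p.1 ≠ 0 := by
      intro h
      have h2 := (Finsupp.degree_eq_zero_iff p.1).1 h
      apply hne
      rw [h2, zero_add] at hp
      exact Prod.ext h2 hp
    rw [hR p.2 (by omega), map_zero, mul_zero]
  · intro h
    exact absurd (by rw [Finset.HasAntidiagonal.mem_antidiagonal, zero_add]) h

theorem Eqd.sub_zero' {N : ℕ} {P Q : MvPowerSeries (Fin 2) K} (h : Eqd N P Q) :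
    Eqd N (P - Q) 0 := fun n hn => by rw [map_sub, h n hn, sub_self, map_zero]

theorem Eqd.const {N : ℕ} {P Q : MvPowerSeries (Fin 2) K} (h : Eqd N P Q) :
    constantCoeff P = constantCoeff Q := by
  rw [← coeff_zero_eq_constantCoeff_apply, ← coeff_zero_eq_constantCoeff_apply]
  exact h 0 (by simp)

theorem diff_mul {N : ℕ} {P P' Q Q' : MvPowerSeries (Fin 2) K} (hP : Eqd N P P')
    (hQ : Eqd N Q Q') {n : N2} (hn : Finsupp.degree n = N + 1) :
    coeff n (P * Q) - coeff n (P' * Q') =
      constantCoeff P' * (coeff n Q - coeff n Q') +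
        constantCoeff Q' * (coeff n P - coeff n P') := by
  have h : P * Q = P' * Q' + (P' * (Q - Q') + Q * (P - P')) := by ring
  rw [h, map_add, map_add, coeff_mul_top hQ.sub_zero' hn, coeff_mul_top hP.sub_zero' hn,
    hQ.const, map_sub, map_sub]
  ring

theorem diff_pow {N : ℕ} {P P' : MvPowerSeries (Fin 2) K} (hP : Eqd N P P')
    (h1 : constantCoeff P' = 1) {n : N2} (hn : Finsupp.degree n = N + 1) (m : ℕ) :
    coeff n (P ^ m) - coeff n (P' ^ m) = (m : K) * (coeff n P - coeff n P') := by
  induction m with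
  | zero => rw [pow_zero, pow_zero, sub_self, Nat.cast_zero, zero_mul]
  | succ m ih =>
    rw [pow_succ, pow_succ, diff_mul (hP.pow m) hP hn, ih, constantCoeff_pow1 h1, h1]
    push_cast
    ring

theorem diff_inv {N : ℕ} {P P' : MvPowerSeries (Fin 2) K} (hP : Eqd N P P')
    (h1 : constantCoeff P' = 1) {n : N2} (hn : Finsupp.degree n = N + 1) :
    coeff n P⁻¹ - coeff n P'⁻¹ = -(coeff n P - coeff n P') := by
  have h2 : constantCoeff P = 1 := by rw [hP.const, h1]
  have hI : Eqd N P⁻¹ P'⁻¹ := by
    rw [inv_eq_inv1 h1, inv_eq_inv1 h2]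
    exact hP.inv1 h2 h1
  have h := diff_mul hP hI hn
  rw [mul_inv' h1, mul_inv' h2, sub_self, h1, constantCoeff_inv' h1] at h
  linear_combination -h

theorem Eqd.inv' {N : ℕ} {P P' : MvPowerSeries (Fin 2) K} (hP : Eqd N P P')
    (h1 : constantCoeff P' = 1) : Eqd N P⁻¹ P'⁻¹ := by
  have h2 : constantCoeff P = 1 := by rw [hP.const, h1]
  rw [inv_eq_inv1 h1, inv_eq_inv1 h2]
  exact hP.inv1 h2 h1

/-- The consequence of the Jacobian equation in the first degree of difference. -/
theorem jac_diff {W W' : List (N2 × MvPowerSeries (Fin 2) K)} (hW : Walls W) (hW' : Walls W')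
    {A B A' B' : MvPowerSeries (Fin 2) K} (hA : act W (X 0) = X 0 * A)
    (hB : act W (X 1) = X 1 * B) (hA' : act W' (X 0) = X 0 * A') (hB' : act W' (X 1) = X 1 * B')
    {N : ℕ} (eA : Eqd N A A') (eB : Eqd N B B') (cA : constantCoeff A' = 1)
    (cB : constantCoeff B' = 1) {n : N2} (hn : Finsupp.degree n = N + 1) :
    (n 0 : K) * (coeff n A - coeff n A') + (n 1 : K) * (coeff n B - coeff n B') = 0 := by
  have j := congrArg (coeff n) (jac hW hA hB)
  have j' := congrArg (coeff n) (jac hW' hA' hB')
  rw [map_sub] at j j'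
  have d1 := diff_mul (eA.add (eA.eul (cw 0))) (eB.add (eB.eul (cw 1))) hn
  have d2 := diff_mul (eA.eul (cw 1)) (eB.eul (cw 0)) hn
  have d3 := diff_mul eA eB hn
  have z : ∀ (w : N2 →+ ℕ) (f : MvPowerSeries (Fin 2) K), constantCoeff (eul w f) = 0 := by
    intro w f
    rw [← coeff_zero_eq_constantCoeff_apply, coeff_zero_eul]
  have c1 : constantCoeff (A' + eul (cw 0) A') = 1 := by rw [map_add, z, cA, add_zero]
  have c2 : constantCoeff (B' + eul (cw 1) B') = 1 := by rw [map_add, z, cB, add_zero]
  have q : ∀ (i : Fin 2) (f : MvPowerSeries (Fin 2) K),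
      coeff n (f + eul (cw i) f) = (1 + (n i : K)) * coeff n f := by
    intro i f
    rw [map_add, coeff_eul, cw_apply]; ring
  rw [c1, c2, q, q, q, q] at d1
  rw [z, z] at d2
  rw [cA, cB] at d3
  linear_combination j - j' - d1 + d2 + d3

/-! ### Dependence of the wall-crossing on the wall-functions -/

theorem uf_eqd {N : ℕ} {v : N2} {f f' : MvPowerSeries (Fin 2) K} (h : Eqd N f f')
    (h1 : constantCoeff f' = 1) (d : N2) : Eqd N (uf v f d) (uf v f' d) :=
  (((h.inv' h1).pow _).pow _).mul ((h.pow _).pow _)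

theorem uf_zero (v : N2) (f : MvPowerSeries (Fin 2) K) : uf v f 0 = 1 := by
  unfold uf
  simp

theorem diff_cross_aux {N : ℕ} {v : N2} {f f' g g' : MvPowerSeries (Fin 2) K} (h : Eqd N f f')
    (h1 : constantCoeff f' = 1) (hg : Eqd N g g') {n : N2} (hn : Finsupp.degree n ≤ N + 1) :
    coeff n (cross v f g) - coeff n (cross v f' g') = coeff n g - coeff n g' := by
  have h2 : constantCoeff f = 1 := by rw [h.const, h1]
  have hT : ∀ d ≤ n, d ∈ Finset.Iic n := fun d hd => Finset.mem_Iic.2 hd
  rw [coeff_cross_sum v f g hT, coeff_cross_sum v f' g' hT, ← Finset.sum_sub_distrib,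
    Finset.sum_eq_single n]
  · rw [coeff_monomial_mul, coeff_monomial_mul, if_pos le_rfl, if_pos le_rfl, tsub_self,
      coeff_zero_eq_constantCoeff_apply, coeff_zero_eq_constantCoeff_apply, uf_const h1,
      uf_const h2]
    ring
  · intro d hd hdn
    rw [Finset.mem_Iic] at hd
    rw [coeff_monomial_mul, coeff_monomial_mul, if_pos hd, if_pos hd]
    have hsum : Finsupp.degree (n - d) + Finsupp.degree d = Finsupp.degree n := by
      rw [← map_add, tsub_add_cancel_of_le hd]
    have hne : Finsupp.degree (n - d) ≠ 0 := by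
      intro h3
      have h4 := (Finsupp.degree_eq_zero_iff _).1 h3
      have h5 := tsub_add_cancel_of_le hd
      rw [h4, zero_add] at h5
      exact hdn h5
    rw [hg d (by omega)]
    by_cases hd0 : d = 0
    · rw [hd0, uf_zero, uf_zero, sub_self]
    · have hd1 : Finsupp.degree d ≠ 0 := fun h3 => hd0 ((Finsupp.degree_eq_zero_iff _).1 h3)
      rw [uf_eqd h h1 d (n - d) (by omega), sub_self]
  · intro h3
    exact absurd (Finset.mem_Iic.2 le_rfl) h3

theorem eqd_cross {N : ℕ} {v : N2} {f f' g g' : MvPowerSeries (Fin 2) K} (h : Eqd N f f')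
    (h1 : constantCoeff f' = 1) (hg : Eqd N g g') : Eqd N (cross v f g) (cross v f' g') := by
  intro n hn
  have h2 := diff_cross_aux h h1 hg (v := v) (n := n) (by omega)
  rw [hg n hn, sub_self, sub_eq_zero] at h2
  exact h2

theorem mf_eqd {N : ℕ} {v : N2} {f f' : MvPowerSeries (Fin 2) K} (h : Eqd N f f')
    (h1 : constantCoeff f' = 1) (s : Fin 2) : Eqd N (mf s v f) (mf s v f') := by
  fin_cases s
  · exact (h.inv' h1).pow _
  · exact h.pow _

/-- the sign and multiplicity in the change of the factor -/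
noncomputable def eps (s : Fin 2) (v : N2) : K := ![-(v 1 : K), (v 0 : K)] s

theorem diff_mf {N : ℕ} {v : N2} {f f' : MvPowerSeries (Fin 2) K} (h : Eqd N f f')
    (h1 : constantCoeff f' = 1) (s : Fin 2) {n : N2} (hn : Finsupp.degree n = N + 1) :
    coeff n (mf s v f) - coeff n (mf s v f') = eps s v * (coeff n f - coeff n f') := by
  fin_cases s
  · show coeff n (f⁻¹ ^ v 1) - coeff n (f'⁻¹ ^ v 1) = -(v 1 : K) * _
    rw [diff_pow (h.inv' h1) (constantCoeff_inv' h1) hn, diff_inv h h1 hn]
    ring
  · show coeff n (f ^ v 0) - coeff n (f' ^ v 0) = (v 0 : K) * _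
    rw [diff_pow h h1 hn]

/-- The factor of a variable under a product of wall-crossings. -/
noncomputable def uu (s : Fin 2) (W : List (N2 × MvPowerSeries (Fin 2) K)) :
    MvPowerSeries (Fin 2) K := W.foldr (fun p h => mf s p.1 p.2 * cross p.1 p.2 h) 1

theorem uu_nil (s : Fin 2) : uu s ([] : List (N2 × MvPowerSeries (Fin 2) K)) = 1 := rfl

theorem uu_cons (s : Fin 2) (p : N2 × MvPowerSeries (Fin 2) K)
    (W : List (N2 × MvPowerSeries (Fin 2) K)) :
    uu s (p :: W) = mf s p.1 p.2 * cross p.1 p.2 (uu s W) := rfl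

theorem act_X_uu (s : Fin 2) (W : List (N2 × MvPowerSeries (Fin 2) K)) :
    act W (X s) = X s * uu s W := by
  induction W with
  | nil => rw [act_nil, uu_nil, mul_one]
  | cons p W ih => rw [act_cons, ih, cross_mul, cross_X, uu_cons, mul_assoc]

theorem uu_const (s : Fin 2) {W : List (N2 × MvPowerSeries (Fin 2) K)} (hW : Walls W) :
    constantCoeff (uu s W) = 1 := by
  induction W with
  | nil => rw [uu_nil, map_one]
  | cons p W ih =>
    rw [uu_cons, map_mul, mf_const s (hW p List.mem_cons_self),
      constantCoeff_cross (ih fun q hq => hW q (List.mem_cons_of_mem _ hq)), one_mul]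

/-- the list of walls attached to a list of directions -/
def wl (f : N2 → MvPowerSeries (Fin 2) K) (l : List N2) :
    List (N2 × MvPowerSeries (Fin 2) K) := l.map fun v => (v, f v)

theorem wl_cons (f : N2 → MvPowerSeries (Fin 2) K) (v : N2) (l : List N2) :
    wl f (v :: l) = (v, f v) :: wl f l := rfl

theorem wl_append (f : N2 → MvPowerSeries (Fin 2) K) (l l' : List N2) :
    wl f (l ++ l') = wl f l ++ wl f l' := List.map_append

theorem wl_walls {f : N2 → MvPowerSeries (Fin 2) K} {l : List N2}
    (h : ∀ v ∈ l, IsWallFun v (f v)) : Walls (wl f l) := by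
  intro p hp
  unfold wl at hp
  rw [List.mem_map] at hp
  obtain ⟨v, hv, rfl⟩ := hp
  exact h v hv

theorem uu_diff (s : Fin 2) {f f' : N2 → MvPowerSeries (Fin 2) K} {l : List N2} {N : ℕ}
    (h : ∀ v ∈ l, IsWallFun v (f v)) (h' : ∀ v ∈ l, IsWallFun v (f' v))
    (he : ∀ v ∈ l, Eqd N (f v) (f' v)) :
    Eqd N (uu s (wl f l)) (uu s (wl f' l)) ∧
    ∀ n : N2, Finsupp.degree n = N + 1 →
      coeff n (uu s (wl f l)) - coeff n (uu s (wl f' l)) =
        (l.map fun v => eps s v * (coeff n (f v) - coeff n (f' v))).sum := by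
  induction l with
  | nil =>
    refine ⟨Eqd.refl N _, ?_⟩
    intro n _
    show coeff n (1 : MvPowerSeries (Fin 2) K) - coeff n 1 = _
    rw [sub_self]
    rfl
  | cons v l ih =>
    obtain ⟨ih1, ih2⟩ := ih (fun u hu => h u (List.mem_cons_of_mem _ hu))
      (fun u hu => h' u (List.mem_cons_of_mem _ hu))
      (fun u hu => he u (List.mem_cons_of_mem _ hu))
    have hv := h v List.mem_cons_self
    have hv' := h' v List.mem_cons_self
    have hev := he v List.mem_cons_self
    have hm := mf_eqd (v := v) hev hv'.1 s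
    have hc := eqd_cross (v := v) hev hv'.1 ih1
    rw [wl_cons, wl_cons, uu_cons, uu_cons]
    refine ⟨hm.mul hc, ?_⟩
    intro n hn
    rw [diff_mul hm hc hn, diff_mf hev hv'.1 s hn, diff_cross_aux hev hv'.1 ih1 (by omega),
      ih2 n hn, List.map_cons, List.sum_cons, mf_const s hv',
      constantCoeff_cross (uu_const s (wl_walls fun u hu => h' u (List.mem_cons_of_mem _ hu)))]
    ring

/-- Walls of high order do not matter. -/
theorem uu_drop (s : Fin 2) {f : N2 → MvPowerSeries (Fin 2) K} (p : N2 → Bool) {l : List N2}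
    {N : ℕ} (h : ∀ v ∈ l, IsWallFun v (f v)) (he : ∀ v ∈ l, p v = false → Eqd N (f v) 1)
    (W : List (N2 × MvPowerSeries (Fin 2) K)) :
    Eqd N (uu s (wl f l ++ W)) (uu s (wl f (l.filter p) ++ W)) := by
  induction l with
  | nil => exact Eqd.refl N _
  | cons v l ih =>
    have ih' := ih (fun u hu => h u (List.mem_cons_of_mem _ hu))
      (fun u hu => he u (List.mem_cons_of_mem _ hu))
    have hv := h v List.mem_cons_self
    by_cases hp : p v = true
    · rw [List.filter_cons_of_pos hp, wl_cons, wl_cons, List.cons_append, List.cons_append,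
        uu_cons, uu_cons]
      exact (Eqd.refl N _).mul (ih'.cross)
    · have hp' : p v = false := by simpa using hp
      rw [List.filter_cons_of_neg hp, wl_cons, List.cons_append, uu_cons]
      have h1 := he v List.mem_cons_self hp'
      have h2 := mf_eqd (v := v) h1 (map_one _) s
      have h3 : mf s v (1 : MvPowerSeries (Fin 2) K) = 1 := by
        have i1 : (1 : MvPowerSeries (Fin 2) K)⁻¹ = 1 := by
          rw [inv_eq_inv1 (map_one _), inv1_one]
        fin_cases s
        · show (1 : MvPowerSeries (Fin 2) K)⁻¹ ^ v 1 = 1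
          rw [i1, one_pow]
        · show (1 : MvPowerSeries (Fin 2) K) ^ v 0 = 1
          rw [one_pow]
      have h4 : cross v (1 : MvPowerSeries (Fin 2) K) (uu s (wl f (l.filter p) ++ W)) =
          uu s (wl f (l.filter p) ++ W) := by
        ext e
        rw [coeff_cross_sum v 1 _ (fun d hd => Finset.mem_Iic.2 hd), Finset.sum_eq_single e]
        · rw [coeff_monomial_mul, if_pos le_rfl, tsub_self, coeff_zero_eq_constantCoeff_apply,
            uf_const (map_one _)]
          ring
        · intro d hd hde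
          rw [Finset.mem_Iic] at hd
          have i1 : (1 : MvPowerSeries (Fin 2) K)⁻¹ = 1 := by
            rw [inv_eq_inv1 (map_one _), inv1_one]
          have i2 : uf v (1 : MvPowerSeries (Fin 2) K) d = 1 := by
            unfold uf
            rw [i1, one_pow, one_pow, one_pow, one_pow, one_mul]
          rw [i2, mul_one, coeff_monomial, if_neg (Ne.symm hde), mul_zero]
        · intro h6
          exact absurd (Finset.mem_Iic.2 le_rfl) h6
      have h5 := eqd_cross (v := v) h1 (map_one _) ih'
      rw [h4] at h5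
      rw [h3] at h2
      have h6 := h2.mul h5
      rw [one_mul] at h6
      exact h6

end Pool.Agent.LibScat
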