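import Pool.Agent.LibScat.Family

/-!
Integrality of the logarithm of the wall-function on a ray.
-/

namespace Pool.Agent.LibScat

open MvPowerSeries Finset
open scoped Nat

set_option linter.unusedSectionVars false

variable {K : Type*} [Field K] [CharZero K]

theorem Prim.gcd_smul {v : N2} (hv : Prim v) (k : ℕ) :
    Nat.gcd ((k • v) 0) ((k • v) 1) = k := by
  show Nat.gcd (k * v 0) (k * v 1) = k
  rw [Nat.gcd_mul_left, hv.2.2, mul_one]

theorem Prim.unique {v w : N2} (hv : Prim v) (hw : Prim w) {k l : ℕ} (hk : 0 < k)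
    (h : k • v = l • w) : k = l ∧ v = w := by
  have h1 : k = l := by
    rw [← hv.gcd_smul k, ← hw.gcd_smul l, h]
  refine ⟨h1, ?_⟩
  subst h1
  ext i
  have h2 : k * v i = k * w i := congrArg (fun z : N2 => z i) h
  exact Nat.eq_of_mul_eq_mul_left hk h2

theorem exists_prim {n : N2} (h0 : 0 < n 0) (h1 : 0 < n 1) :
    ∃ (k : ℕ) (v : N2), 0 < k ∧ Prim v ∧ k • v = n := by
  have hg : 0 < Nat.gcd (n 0) (n 1) := Nat.gcd_pos_of_pos_left _ h0
  have hv0 : vec (n 0 / Nat.gcd (n 0) (n 1)) (n 1 / Nat.gcd (n 0) (n 1)) 0 =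
      n 0 / Nat.gcd (n 0) (n 1) := by
    unfold vec; simp
  have hv1 : vec (n 0 / Nat.gcd (n 0) (n 1)) (n 1 / Nat.gcd (n 0) (n 1)) 1 =
      n 1 / Nat.gcd (n 0) (n 1) := by
    unfold vec; simp
  refine ⟨Nat.gcd (n 0) (n 1), vec (n 0 / Nat.gcd (n 0) (n 1)) (n 1 / Nat.gcd (n 0) (n 1)), hg,
    ⟨?_, ?_, ?_⟩, ?_⟩
  · rw [hv0]; exact Nat.div_pos (Nat.gcd_le_left _ h0) hg
  · rw [hv1]; exact Nat.div_pos (Nat.gcd_le_right _ h1) hg
  · rw [hv0, hv1]; exact Nat.coprime_div_gcd_div_gcd hg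
  · ext i
    fin_cases i
    · show Nat.gcd (n 0) (n 1) *
        vec (n 0 / Nat.gcd (n 0) (n 1)) (n 1 / Nat.gcd (n 0) (n 1)) 0 = n 0
      rw [hv0]; exact Nat.mul_div_cancel' (Nat.gcd_dvd_left _ _)
    · show Nat.gcd (n 0) (n 1) *
        vec (n 0 / Nat.gcd (n 0) (n 1)) (n 1 / Nat.gcd (n 0) (n 1)) 1 = n 1
      rw [hv1]; exact Nat.mul_div_cancel' (Nat.gcd_dvd_right _ _)

/-- the evaluation of integral polynomials at all parameters -/
noncomputable def ev2 (K : Type*) [Field K] : MvPolynomial (Fin 2) ℤ →+* (ℕ × ℕ → K) :=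
  MvPolynomial.eval₂Hom (Int.castRingHom _)
    ![fun x => ((x.1 + 1 : ℕ) : K), fun x => ((x.2 + 1 : ℕ) : K)]

theorem ev2_apply (P : MvPolynomial (Fin 2) ℤ) (x : ℕ × ℕ) :
    ev2 K P x = MvPolynomial.eval₂ (Int.castRingHom K)
      ![((x.1 + 1 : ℕ) : K), ((x.2 + 1 : ℕ) : K)] P := by
  have h : (Pi.evalRingHom (fun _ : ℕ × ℕ => K) x).comp (ev2 K) =
      MvPolynomial.eval₂Hom (Int.castRingHom K)
        ![((x.1 + 1 : ℕ) : K), ((x.2 + 1 : ℕ) : K)] := by
    apply MvPolynomial.ringHom_ext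
    · intro n
      simp [ev2]
    · intro i
      fin_cases i <;> simp [ev2]
  exact RingHom.congr_fun h P

theorem ev2_mem (i : Fin 2) :
    (fun x : ℕ × ℕ => ((![x.1 + 1, x.2 + 1] i : ℕ) : K)) ∈ (ev2 K).range := by
  refine ⟨MvPolynomial.X i, ?_⟩
  funext x
  rw [ev2_apply, MvPolynomial.eval₂_X]
  fin_cases i <;> simp

theorem lg_ray {F : ℕ → ℕ → N2 → MvPowerSeries (Fin 2) K}
    (hF : ∀ b c, 0 < b → 0 < c → IsDiagram b c (F b c)) {s t : Fin 2} (hst : s ≠ t) {n : N2}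
    (hnt : 0 < n t) (hle : n t ≤ n s) :
    ∃ P : MvPolynomial (Fin 2) ℤ, ∀ b c, 0 < b → 0 < c → ∀ (k : ℕ) (v : N2), 0 < k → Prim v →
      k • v = scl ![b, c] n →
      ((n s)! : K) * coeff (scl ![b, c] n) (lg (F b c v)) =
        ((k / Nat.gcd (n t) (n s) : ℕ) : K) *
          MvPolynomial.eval₂ (Int.castRingHom K) ![(b : K), (c : K)] P := by
  have hn0 : ∀ i, 0 < n i := by
    intro i
    by_cases his : i = s
    · rw [his]; omega
    · have : i = t := by omega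
      rw [this]; exact hnt
  -- the primitive vectors
  have hex : ∀ x : ℕ × ℕ, ∃ (k : ℕ) (v : N2), 0 < k ∧ Prim v ∧
      k • v = scl ![x.1 + 1, x.2 + 1] n := by
    intro x
    apply exists_prim
    · rw [scl_apply]; exact Nat.mul_pos (Nat.succ_pos _) (hn0 0)
    · rw [scl_apply]; exact Nat.mul_pos (Nat.succ_pos _) (hn0 1)
  choose kf vf hk0 hvf hkv using hex
  have hβ : ∀ (x : ℕ × ℕ) (i : Fin 2), 0 < ![x.1 + 1, x.2 + 1] i := by
    intro x i
    fin_cases i <;> simp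
  have hR : ∀ x : ℕ × ℕ, ∃ U V, Rel s t ![x.1 + 1, x.2 + 1]
      ((x.1 + 1 + (x.2 + 1)) * (n s + n t)) (vf x)
      (F (x.1 + 1) (x.2 + 1) (vf x)) U V := fun x =>
    exists_rel (Nat.succ_pos _) (Nat.succ_pos _) (hF _ _ (Nat.succ_pos _) (Nat.succ_pos _))
      (hvf x) hst _
  choose U V hUV using hR
  have hdeg : ∀ (x : ℕ × ℕ) (m : N2), Finsupp.degree m ≤ n s + n t →
      Finsupp.degree (scl ![x.1 + 1, x.2 + 1] m) ≤
        (x.1 + 1 + (x.2 + 1)) * (n s + n t) := by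
    intro x m hm
    rw [deg_eq (show (0 : Fin 2) ≠ 1 by decide)] at hm ⊢
    rw [scl_apply, scl_apply]
    show (x.1 + 1) * m 0 + (x.2 + 1) * m 1 ≤ _
    calc (x.1 + 1) * m 0 + (x.2 + 1) * m 1 ≤
        (x.1 + 1 + (x.2 + 1)) * m 0 + (x.1 + 1 + (x.2 + 1)) * m 1 := by
          apply Nat.add_le_add <;> apply Nat.mul_le_mul_right <;> omega
      _ = (x.1 + 1 + (x.2 + 1)) * (m 0 + m 1) := by ring
      _ ≤ _ := Nat.mul_le_mul_left _ hm
  have hkvi : ∀ (x : ℕ × ℕ) (i : Fin 2), kf x * vf x i = ![x.1 + 1, x.2 + 1] i * n i := by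
    intro x i
    have := congrArg (fun z : N2 => z i) (hkv x)
    simp only [scl_apply] at this
    exact this
  have hSys : ∀ x : ℕ × ℕ, Sys s t (n t) (n s) (n s + n t)
      ((![x.1 + 1, x.2 + 1] t : ℕ) : K) ((![x.1 + 1, x.2 + 1] s : ℕ) : K)
      (exr ![x.1 + 1, x.2 + 1] (U x ^ ![x.1 + 1, x.2 + 1] t))
      (exr ![x.1 + 1, x.2 + 1] (V x ^ ![x.1 + 1, x.2 + 1] s)) := by
    intro x
    refine sys_of_rel hst (hβ x) (hUV x) hnt ?_ ?_ (hdeg x)
    · rw [← hkvi x t, ← hkvi x s]; ring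
    · have := (hvf x).1
      have := (hvf x).2.1
      by_cases h : t = 0
      · rw [h]; assumption
      · have : t = 1 := by omega
        rw [this]; assumption
  obtain ⟨r, ⟨P, hP⟩, hr⟩ := core hst hnt hle (ev2_mem (K := K) t) (ev2_mem (K := K) s)
    (sys_pk hSys) (edata hst (ev2_mem (K := K) s) hnt hle) (by omega) rfl rfl
  refine ⟨P, ?_⟩
  intro b c hb hc k v hk hv hkv'
  obtain ⟨b', rfl⟩ : ∃ b', b = b' + 1 := ⟨b - 1, by omega⟩
  obtain ⟨c', rfl⟩ : ∃ c', c = c' + 1 := ⟨c - 1, by omega⟩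
  obtain ⟨hk', hv'⟩ := (hvf (b', c')).unique hv (hk0 _) ((hkv (b', c')).trans hkv'.symm)
  have hfin := congrFun hr (b', c')
  rw [← hP] at hfin
  simp only [Pi.mul_apply, Pi.natCast_apply] at hfin
  rw [coeff_lg_one_add_X_pk, ev2_apply] at hfin
  have hN := hdeg (b', c') n (by rw [deg_eq hst])
  have h1 := (lg_extract (hβ (b', c')) (hUV (b', c')) hN).1
  have h2 := (hUV (b', c')).ray (kf (b', c')) (by rw [hkv (b', c')]; exact hN)
  rw [h1, ← hkv (b', c'), ← h2, hkv (b', c')] at hfin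
  simp only at hfin
  rw [hv'] at hfin
  have hkk := hkvi (b', c') s
  rw [hk', hv'] at hkk
  -- arithmetic
  have hgd : Nat.gcd (n t) (n s) ∣ k := by
    have h3 := hv.gcd_smul k
    rw [hkv', scl_apply, scl_apply] at h3
    rw [← h3]
    have h4 : ∀ i, Nat.gcd (n t) (n s) ∣ n i := by
      intro i
      by_cases his : i = s
      · rw [his]; exact Nat.gcd_dvd_right _ _
      · have : i = t := by omega
        rw [this]; exact Nat.gcd_dvd_left _ _
    exact Nat.dvd_gcd (Dvd.dvd.mul_left (h4 0) _) (Dvd.dvd.mul_left (h4 1) _)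
  obtain ⟨q, hq⟩ := hgd
  have hg0 : 0 < Nat.gcd (n t) (n s) := Nat.gcd_pos_of_pos_left _ hnt
  have hkq : k / Nat.gcd (n t) (n s) = q := by
    rw [hq]; exact Nat.mul_div_cancel_left _ hg0
  rw [hkq]
  have hgK : ((Nat.gcd (n t) (n s) : ℕ) : K) ≠ 0 := by exact_mod_cast hg0.ne'
  have hβK : ((![b' + 1, c' + 1] s : ℕ) : K) ≠ 0 := by
    have := hβ (b', c') s
    exact_mod_cast this.ne'
  have hkkK : (k : K) * (v s : K) = ((![b' + 1, c' + 1] s : ℕ) : K) * (n s : K) := by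
    exact_mod_cast hkk
  have hqK : (k : K) = ((Nat.gcd (n t) (n s) : ℕ) : K) * (q : K) := by exact_mod_cast hq
  have hfac : ((n s)! : K) = (n s : K) * ((n s - 1)! : K) := by
    have := Nat.mul_factorial_pred (show n s ≠ 0 by have := hn0 s; omega)
    exact_mod_cast this.symm
  apply mul_left_cancel₀ hgK
  apply mul_left_cancel₀ hβK
  rw [hfac]
  rw [Nat.cast_mul] at hfin
  set L := coeff (scl ![b' + 1, c' + 1] n) (lg (F (b' + 1) (c' + 1) v)) with hL
  set E := MvPolynomial.eval₂ (Int.castRingHom K) ![((b' + 1 : ℕ) : K), ((c' + 1 : ℕ) : K)] P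
    with hE
  calc _ = (Nat.gcd (n t) (n s) : K) * ((n s - 1)! : K) *
        (((![b' + 1, c' + 1] s : ℕ) : K) * (n s : K)) * L := by ring
    _ = (k : K) * ((Nat.gcd (n t) (n s) : K) * ((n s - 1)! : K) * ((v s : K) * L)) := by
        rw [← hkkK]; ring
    _ = (k : K) * (((![b' + 1, c' + 1] s : ℕ) : K) * E) := by rw [hfin]
    _ = _ := by rw [hqK]; ring

end Pool.Agent.LibScat
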