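import Pool.Agent.LibScat.Axis
import Pool.Agent.LibScat.Ray

/-!
Existence and uniqueness of the consistent diagram.
-/

namespace Pool.Agent.LibScat

open MvPowerSeries Finset

set_option linter.unusedSectionVars false

variable {K : Type*} [Field K] [CharZero K]

open Classical in
/-- the wall-function with given coefficients -/
noncomputable def wf (a : N2 → K) (v : N2) : MvPowerSeries (Fin 2) K :=
  fun n => if n = 0 then 1 else if n ∈ mults v then a n else 0

open Classical in
theorem coeff_wf' (a : N2 → K) (v n : N2) :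
    coeff n (wf a v) = if n = 0 then 1 else if n ∈ mults v then a n else 0 := rfl

theorem coeff_wf_zero (a : N2 → K) (v : N2) : coeff 0 (wf a v) = 1 := by
  rw [coeff_wf', if_pos rfl]

open Classical in
theorem coeff_wf (a : N2 → K) (v : N2) {n : N2} (hn : n ≠ 0) :
    coeff n (wf a v) = if n ∈ mults v then a n else 0 := by
  rw [coeff_wf', if_neg hn]

theorem wf_wall (a : N2 → K) (v : N2) : IsWallFun v (wf a v) := by
  refine ⟨?_, ?_⟩
  · rw [← coeff_zero_eq_constantCoeff_apply]; exact coeff_wf_zero a v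
  · intro n hn
    by_cases h0 : n = 0
    · exact ⟨0, by rw [h0, zero_smul]⟩
    · rw [coeff_wf a v h0] at hn
      split_ifs at hn with h
      · obtain ⟨k, hk⟩ := h
        exact ⟨k, hk.symm⟩
      · exact absurd rfl hn

open Classical in
/-- the wall-functions, those of the lines included -/
noncomputable def ff (b c : ℕ) (a : N2 → K) (v : N2) : MvPowerSeries (Fin 2) K :=
  if v = e1 then 1 + X 1 ^ c else if v = e0 then 1 + X 0 ^ b else wf a v

theorem e0_ne_e1 : e0 ≠ e1 := by
  intro h
  have := congrArg (fun z : N2 => z 0) h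
  simp only [e0_zero, e1_zero] at this
  omega

theorem ff_e1 (b c : ℕ) (a : N2 → K) : ff b c a e1 = 1 + X 1 ^ c := by
  unfold ff; rw [if_pos rfl]

theorem ff_e0 (b c : ℕ) (a : N2 → K) : ff b c a e0 = 1 + X 0 ^ b := by
  unfold ff; rw [if_neg e0_ne_e1, if_pos rfl]

theorem Prim.ne_e0 {v : N2} (h : Prim v) : v ≠ e0 := by
  rintro rfl
  have := h.2.1
  rw [e0_one] at this
  omega

theorem Prim.ne_e1 {v : N2} (h : Prim v) : v ≠ e1 := by
  rintro rfl
  have := h.1
  rw [e1_zero] at this
  omega

theorem ff_prim (b c : ℕ) (a : N2 → K) {v : N2} (h : Prim v) : ff b c a v = wf a v := by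
  unfold ff; rw [if_neg h.ne_e1, if_neg h.ne_e0]

theorem ff_wall {b c : ℕ} (hb : 0 < b) (hc : 0 < c) (a : N2 → K) (v : N2) :
    IsWallFun v (ff b c a v) := by
  by_cases h1 : v = e1
  · rw [h1, ff_e1]; exact isWallFun_line 1 hc
  · by_cases h0 : v = e0
    · rw [h0, ff_e0]; exact isWallFun_line 0 hb
    · unfold ff
      rw [if_neg h1, if_neg h0]
      exact wf_wall a v

theorem ff_eqd (b c : ℕ) {a a' : N2 → K} {N : ℕ} (h : ∀ n : N2, Finsupp.degree n ≤ N → a n = a' n)
    (v : N2) : Eqd N (ff b c a v) (ff b c a' v) := by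
  unfold ff
  split_ifs
  · exact Eqd.refl N _
  · exact Eqd.refl N _
  · intro n hn
    by_cases h0 : n = 0
    · rw [h0, coeff_wf_zero, coeff_wf_zero]
    · rw [coeff_wf _ _ h0, coeff_wf _ _ h0, h n hn]

/-- consistency to order `N` -/
def PP (b c N : ℕ) (a : N2 → K) : Prop := ∀ l, Srt l → Ful N l → ∀ s,
  Eqd N (uu s (wl (ff b c a) [e0, e1])) (uu s (wl (ff b c a) (Rl l)))

theorem pp_zero {b c : ℕ} (hb : 0 < b) (hc : 0 < c) (a : N2 → K) : PP b c 0 a := by
  intro l _ _ s n hn
  have hn0 : n = 0 := (Finsupp.degree_eq_zero_iff n).1 (by omega)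
  rw [hn0, coeff_zero_eq_constantCoeff_apply, coeff_zero_eq_constantCoeff_apply,
    uu_const s (wl_walls fun v _ => ff_wall hb hc a v),
    uu_const s (wl_walls fun v _ => ff_wall hb hc a v)]

theorem uu_L (b c : ℕ) (a a' : N2 → K) (s : Fin 2) :
    uu s (wl (ff b c a) [e0, e1]) = uu s (wl (ff b c a') [e0, e1]) := by
  rw [wl_cons, wl_cons, wl_cons, wl_cons, ff_e0, ff_e1, ff_e0, ff_e1]
  rfl

theorem pp_congr {b c N : ℕ} (hb : 0 < b) (hc : 0 < c) {a a' : N2 → K}
    (h : ∀ n : N2, Finsupp.degree n ≤ N → a n = a' n) (hP : PP b c N a) : PP b c N a' := by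
  intro l hl hf s
  rw [← uu_L b c a a' s]
  exact (hP l hl hf s).trans (uu_diff s (fun v _ => ff_wall hb hc a v)
    (fun v _ => ff_wall hb hc a' v) (fun v _ => ff_eqd b c h v)).1

/-- The sum over the list reduces to the direction of `n`. -/
theorem sum_single {l : List N2} (hl : Srt l) (hp : ∀ v ∈ l, Prim v) (s : Fin 2) {n v0 : N2}
    (hv0 : v0 ∈ l) (hn0 : n ≠ 0) (hn : n ∈ mults v0) (φ : N2 → K)
    (hφ : ∀ v ∈ l, n ∉ mults v → φ v = 0) :
    (l.map fun v => eps s v * φ v).sum = eps s v0 * φ v0 := by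
  classical
  rw [List.sum_map_eq_nsmul_single v0, List.count_eq_one_of_mem hl.nodup hv0, one_smul]
  intro v hv hvl
  rw [hφ v hvl, mul_zero]
  intro hnv
  apply hv
  obtain ⟨k, hk⟩ := hnv
  obtain ⟨k', hk'⟩ := hn
  have hk0 : 0 < k := by
    rcases Nat.eq_zero_or_pos k with h | h
    · exfalso; apply hn0
      rw [← hk, h]
      exact zero_smul ℕ v
    · exact h
  exact ((hp v hvl).unique (hp v0 hv0) hk0 (hk.trans hk'.symm)).2

theorem map_sum_Rl (s : Fin 2) (l : List N2) (φ : N2 → K) (h0 : φ e0 = 0) (h1 : φ e1 = 0) :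
    ((Rl l).map fun v => eps s v * φ v).sum = (l.map fun v => eps s v * φ v).sum := by
  unfold Rl
  rw [List.map_append, List.sum_append, List.map_cons, List.sum_cons, List.map_cons,
    List.map_nil, List.sum_cons, List.sum_nil, h0, h1]
  ring

theorem mem_mults_pos {n v : N2} (hv : Prim v) (hn0 : n ≠ 0) (h : n ∈ mults v) :
    0 < n 0 ∧ 0 < n 1 := by
  obtain ⟨k, hk⟩ := h
  have hk0 : 0 < k := by
    rcases Nat.eq_zero_or_pos k with h | h
    · exfalso; apply hn0
      rw [← hk, h]
      exact zero_smul ℕ v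
    · exact h
  have h1 : k * v 0 = n 0 := congrArg (fun z : N2 => z 0) hk
  have h2 : k * v 1 = n 1 := congrArg (fun z : N2 => z 1) hk
  rw [← h1, ← h2]
  exact ⟨Nat.mul_pos hk0 hv.1, Nat.mul_pos hk0 hv.2.1⟩

theorem deg01 (n : N2) : Finsupp.degree n = n 0 + n 1 :=
  deg_eq (show (0 : Fin 2) ≠ 1 by decide) n

theorem step {b c N : ℕ} (hb : 0 < b) (hc : 0 < c) {a : N2 → K} (hP : PP b c N a) :
    ∃ a' : N2 → K, (∀ n : N2, Finsupp.degree n ≤ N → a' n = a n) ∧ PP b c (N + 1) a' := by
  classical
  obtain ⟨l, hl, hf⟩ := exists_list (N + 1)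
  have hw : ∀ (a : N2 → K) (v : N2), IsWallFun v (ff b c a v) := fun a v => ff_wall hb hc a v
  -- agreement up to degree N for the list of order N + 1
  have hN : ∀ s, Eqd N (uu s (wl (ff b c a) [e0, e1])) (uu s (wl (ff b c a) (Rl l))) := by
    intro s
    have hl' : Srt (l.filter fun v => decide (v 0 + v 1 ≤ N)) := hl.filter _
    have hf' : Ful N (l.filter fun v => decide (v 0 + v 1 ≤ N)) := by
      intro v
      rw [List.mem_filter, hf v, decide_eq_true_iff]
      constructor
      · exact fun h => ⟨h.1.1, h.2⟩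
      · exact fun h => ⟨⟨h.1, by omega⟩, h.2⟩
    refine (hP _ hl' hf' s).trans (Eqd.symm ?_)
    have h1 : ∀ l, wl (ff b c a) (Rl l) =
        (e1, ff b c a e1) :: (wl (ff b c a) l ++ wl (ff b c a) [e0]) := by
      intro l
      unfold Rl
      rw [wl_append, wl_cons, List.cons_append]
    rw [h1, h1, uu_cons, uu_cons]
    refine (Eqd.refl N _).mul (Eqd.cross ?_)
    apply uu_drop s _ (fun v _ => hw a v)
    intro v hv hvp
    have h2 : N < v 0 + v 1 := by
      have := of_decide_eq_false hvp
      omega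
    have hpv := ((hf v).1 hv).1
    intro n hn
    rw [ff_prim b c a hpv, coeff_one]
    by_cases h0 : n = 0
    · rw [h0, coeff_wf_zero, if_pos rfl]
    · rw [coeff_wf _ _ h0, if_neg h0, if_neg]
      rintro ⟨k, hk⟩
      have hk0 : 0 < k := by
        rcases Nat.eq_zero_or_pos k with h | h
        · exfalso; apply h0
          rw [← hk, h]
          exact zero_smul ℕ v
        · exact h
      have h3 : k * v 0 = n 0 := congrArg (fun z : N2 => z 0) hk
      have h4 : k * v 1 = n 1 := congrArg (fun z : N2 => z 1) hk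
      have h5 : v 0 + v 1 ≤ n 0 + n 1 := by
        rw [← h3, ← h4, ← mul_add]
        exact Nat.le_mul_of_pos_left _ hk0
      rw [deg01] at hn
      omega
  -- the differences in degree N + 1
  set δ : Fin 2 → N2 → K := fun s n => coeff n (uu s (wl (ff b c a) [e0, e1])) -
    coeff n (uu s (wl (ff b c a) (Rl l))) with hδ
  have hjac : ∀ n : N2, Finsupp.degree n = N + 1 → (n 0 : K) * δ 0 n + (n 1 : K) * δ 1 n = 0 :=
    fun n hn => jac_diff (wl_walls fun v _ => hw a v) (wl_walls fun v _ => hw a v)
      (act_X_uu 0 _) (act_X_uu 1 _) (act_X_uu 0 _) (act_X_uu 1 _) (hN 0) (hN 1)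
      (uu_const 0 (wl_walls fun v _ => hw a v)) (uu_const 1 (wl_walls fun v _ => hw a v)) hn
  have haxis : ∀ (s : Fin 2) (n : N2), n s = 0 → δ s n = 0 := by
    intro s n hn
    have h1 := axis (f := ff b c a) (hw a e0) (hw a e1) (l := l)
      (fun v hv => ⟨((hf v).1 hv).1, hw a v⟩) s n hn
    rw [hδ]
    simp only
    rw [h1, sub_self]
  -- the correction
  set a' : N2 → K := fun n => if Finsupp.degree n = N + 1 then
    a n + δ 1 n * ((Nat.gcd (n 0) (n 1) : ℕ) : K) / (n 0 : K) else a n with ha'
  have haN : ∀ n : N2, Finsupp.degree n ≤ N → a' n = a n := by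
    intro n hn
    rw [ha']
    simp only
    rw [if_neg (by omega)]
  refine ⟨a', haN, ?_⟩
  intro l' hl' hf' s
  have hll : l' = l := hl'.unique hl fun v => by rw [hf' v, hf v]
  rw [hll, ← uu_L b c a a' s]
  obtain ⟨d1, d2⟩ := uu_diff s (f := ff b c a) (f' := ff b c a') (l := Rl l) (N := N)
    (fun v _ => hw a v) (fun v _ => hw a' v) (fun v _ => ff_eqd b c (fun n hn => (haN n hn).symm) v)
  intro n hn
  rcases Nat.lt_or_ge (Finsupp.degree n) (N + 1) with hlt | hge
  · exact ((hN s).trans d1) n (by omega)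
  have hnN : Finsupp.degree n = N + 1 := by omega
  have hn0 : n ≠ 0 := by
    intro h
    rw [h, map_zero] at hnN
    omega
  have h3 := d2 n hnN
  have hφ0 : coeff n (ff b c a e0) - coeff n (ff b c a' e0) = 0 := by
    rw [ff_e0, ff_e0, sub_self]
  have hφ1 : coeff n (ff b c a e1) - coeff n (ff b c a' e1) = 0 := by
    rw [ff_e1, ff_e1, sub_self]
  rw [map_sum_Rl s l (fun v => coeff n (ff b c a v) - coeff n (ff b c a' v)) hφ0 hφ1] at h3
  have hφ : ∀ v ∈ l, n ∉ mults v → coeff n (ff b c a v) - coeff n (ff b c a' v) = 0 := by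
    intro v hv hnv
    have hpv := ((hf v).1 hv).1
    rw [ff_prim b c a hpv, ff_prim b c a' hpv, coeff_wf _ _ hn0, coeff_wf _ _ hn0, if_neg hnv,
      if_neg hnv, sub_self]
  have hgoal : coeff n (uu s (wl (ff b c a) (Rl l))) - coeff n (uu s (wl (ff b c a') (Rl l))) =
      -δ s n := by
    rw [h3]
    have hj := hjac n hnN
    have hx0 := haxis 0 n
    have hx1 := haxis 1 n
    by_cases hpos : 0 < n 0 ∧ 0 < n 1
    · obtain ⟨k, v, hk, hv, hkv⟩ := exists_prim hpos.1 hpos.2
      have hnv : n ∈ mults v := ⟨k, hkv⟩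
      have e0' : k * v 0 = n 0 := congrArg (fun z : N2 => z 0) hkv
      have e1' : k * v 1 = n 1 := congrArg (fun z : N2 => z 1) hkv
      have hvl : v ∈ l := by
        rw [hf v]
        refine ⟨hv, ?_⟩
        have h5 : v 0 + v 1 ≤ n 0 + n 1 := by
          rw [← e0', ← e1', ← mul_add]
          exact Nat.le_mul_of_pos_left _ hk
        rw [deg01] at hnN
        omega
      rw [sum_single hl (fun v hv => ((hf v).1 hv).1) s hvl hn0 hnv
        (fun v => coeff n (ff b c a v) - coeff n (ff b c a' v)) hφ]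
      rw [ff_prim b c a hv, ff_prim b c a' hv, coeff_wf _ _ hn0, coeff_wf _ _ hn0, if_pos hnv,
        if_pos hnv]
      have hg : Nat.gcd (n 0) (n 1) = k := by rw [← hkv]; exact hv.gcd_smul k
      have ha'n : a' n = a n + δ 1 n * (k : K) / (n 0 : K) := by
        rw [ha']
        simp only
        rw [if_pos hnN, hg]
      have hkK : (k : K) ≠ 0 := by exact_mod_cast hk.ne'
      have hv0K : (v 0 : K) ≠ 0 := by
        have := hv.1
        exact_mod_cast this.ne'
      have hn0K : (n 0 : K) = (k : K) * (v 0 : K) := by exact_mod_cast e0'.symm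
      have hn1K : (n 1 : K) = (k : K) * (v 1 : K) := by exact_mod_cast e1'.symm
      have hγ : a n - a' n = -(δ 1 n / (v 0 : K)) := by
        rw [ha'n, hn0K]
        field_simp
        ring
      rw [hγ]
      have hj' : (v 0 : K) * δ 0 n + (v 1 : K) * δ 1 n = 0 := by
        rw [hn0K, hn1K] at hj
        apply mul_left_cancel₀ hkK
        linear_combination hj
      fin_cases s
      · show -(v 1 : K) * _ = -δ 0 n
        field_simp
        linear_combination hj'
      · show (v 0 : K) * _ = -δ 1 n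
        field_simp
    · have hsum : (l.map fun v => eps s v *
          (coeff n (ff b c a v) - coeff n (ff b c a' v))).sum = 0 := by
        apply List.sum_eq_zero
        intro x hx
        rw [List.mem_map] at hx
        obtain ⟨v, hv, rfl⟩ := hx
        rw [hφ v hv, mul_zero]
        intro hnv
        exact hpos (mem_mults_pos ((hf v).1 hv).1 hn0 hnv)
      have hδ0 : δ 0 n = 0 ∧ δ 1 n = 0 := by
        rw [deg01] at hnN
        rcases Nat.eq_zero_or_pos (n 0) with h | h
        · have h1 : (n 1 : K) ≠ 0 := by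
            have : n 1 ≠ 0 := by omega
            exact_mod_cast this
          have h2 := hx0 h
          rw [h2, mul_zero, zero_add] at hj
          exact ⟨h2, (mul_eq_zero.1 hj).resolve_left h1⟩
        · have h0 : n 1 = 0 := by
            by_contra h1
            exact hpos ⟨h, Nat.pos_of_ne_zero h1⟩
          have h1 : (n 0 : K) ≠ 0 := by exact_mod_cast h.ne'
          have h2 := hx1 h0
          rw [h2, mul_zero, add_zero] at hj
          exact ⟨(mul_eq_zero.1 hj).resolve_left h1, h2⟩
      rw [hsum]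
      fin_cases s
      · show (0 : K) = -δ 0 n
        rw [hδ0.1, neg_zero]
      · show (0 : K) = -δ 1 n
        rw [hδ0.2, neg_zero]
  have hfin : coeff n (uu s (wl (ff b c a') (Rl l))) =
      coeff n (uu s (wl (ff b c a) (Rl l))) + δ s n := by
    linear_combination -hgoal
  rw [hfin, hδ]
  ring

/-- the approximations -/
noncomputable def apx (K : Type*) [Field K] [CharZero K] {b c : ℕ} (hb : 0 < b) (hc : 0 < c) :
    (N : ℕ) → {a : N2 → K // PP b c N a}
  | 0 => ⟨fun _ => 0, pp_zero hb hc _⟩
  | N + 1 => ⟨(step hb hc (apx K hb hc N).2).choose, (step hb hc (apx K hb hc N).2).choose_spec.2⟩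

theorem apx_succ {b c : ℕ} (hb : 0 < b) (hc : 0 < c) (N : ℕ) (n : N2)
    (hn : Finsupp.degree n ≤ N) :
    (apx K hb hc (N + 1)).1 n = (apx K hb hc N).1 n :=
  (step hb hc (apx K hb hc N).2).choose_spec.1 n hn

theorem apx_lim {b c : ℕ} (hb : 0 < b) (hc : 0 < c) (N : ℕ) (n : N2)
    (hn : Finsupp.degree n ≤ N) :
    (apx K hb hc N).1 n = (apx K hb hc (Finsupp.degree n)).1 n := by
  induction N with
  | zero =>
    have : Finsupp.degree n = 0 := by omega
    rw [this]
  | succ N ih =>
    rcases Nat.lt_or_ge N (Finsupp.degree n) with h | h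
    · have : Finsupp.degree n = N + 1 := by omega
      rw [this]
    · rw [apx_succ hb hc N n h, ih h]

theorem exists_all (K : Type*) [Field K] [CharZero K] {b c : ℕ} (hb : 0 < b) (hc : 0 < c) :
    ∃ a : N2 → K, ∀ N, PP b c N a := by
  refine ⟨fun n => (apx K hb hc (Finsupp.degree n)).1 n, fun N => ?_⟩
  exact pp_congr hb hc (fun n hn => apx_lim hb hc N n hn) (apx K hb hc N).2

theorem foldr_eq (f : N2 → MvPowerSeries (Fin 2) K) (l : List N2) (g : MvPowerSeries (Fin 2) K) :
    l.foldr (fun v h => cross v (f v) h) g = act (wl f l) g := by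
  unfold act wl
  rw [List.foldr_map]

theorem R_eq (f : N2 → MvPowerSeries (Fin 2) K) (l : List N2) (g : MvPowerSeries (Fin 2) K) :
    cross e1 (f e1) (l.foldr (fun v h => cross v (f v) h) (cross e0 (f e0) g)) =
      act (wl f (Rl l)) g := by
  rw [foldr_eq]
  unfold Rl
  rw [wl_append, act_append, wl_cons, act_cons]
  rfl

/-- **Existence of the consistent diagram.** -/
theorem exists_diagram (K : Type*) [Field K] [CharZero K] {b c : ℕ} (hb : 0 < b) (hc : 0 < c) :
    ∃ f : N2 → MvPowerSeries (Fin 2) K, IsDiagram b c f := by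
  obtain ⟨a, ha⟩ := exists_all K hb hc
  refine ⟨ff b c a, fun v hv => ff_wall hb hc a v, fun N => ?_⟩
  obtain ⟨l, hl, hf⟩ := exists_list N
  refine ⟨l, hl, hf, ?_⟩
  intro g n hn
  have h := eqd_act (ha N l hl hf) g n (by rw [deg01]; exact hn)
  rw [← R_eq, ff_e0, ff_e1] at h
  refine Eq.trans ?_ h
  show _ = coeff n (cross e0 (ff b c a e0) (cross e1 (ff b c a e1) g))
  rw [ff_e0, ff_e1]
  rfl

/-- **Uniqueness of the consistent diagram.** -/
theorem unique_diagram {b c : ℕ} (hb : 0 < b) (hc : 0 < c)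
    {f f' : N2 → MvPowerSeries (Fin 2) K} (hf : IsDiagram b c f) (hf' : IsDiagram b c f') :
    ∀ v, Prim v → f v = f' v := by
  classical
  -- extend to the lines
  set F : N2 → MvPowerSeries (Fin 2) K := fun v =>
    if v = e1 then 1 + X 1 ^ c else if v = e0 then 1 + X 0 ^ b else f v with hF
  set F' : N2 → MvPowerSeries (Fin 2) K := fun v =>
    if v = e1 then 1 + X 1 ^ c else if v = e0 then 1 + X 0 ^ b else f' v with hF'
  have F1 : F e1 = 1 + X 1 ^ c := by rw [hF]; simp
  have F1' : F' e1 = 1 + X 1 ^ c := by rw [hF']; simp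
  have F0 : F e0 = 1 + X 0 ^ b := by rw [hF]; simp [e0_ne_e1]
  have F0' : F' e0 = 1 + X 0 ^ b := by rw [hF']; simp [e0_ne_e1]
  have Fp : ∀ v, Prim v → F v = f v := by
    intro v hv
    rw [hF]; simp [hv.ne_e0, hv.ne_e1]
  have Fp' : ∀ v, Prim v → F' v = f' v := by
    intro v hv
    rw [hF']; simp [hv.ne_e0, hv.ne_e1]
  have hcons : ∀ (g : N2 → MvPowerSeries (Fin 2) K), IsDiagram b c g →
      ∀ (G : N2 → MvPowerSeries (Fin 2) K), G e1 = 1 + X 1 ^ c → G e0 = 1 + X 0 ^ b →
      (∀ v, Prim v → G v = g v) → ∀ (N : ℕ) (l : List N2), Srt l → Ful (N + 1) l → ∀ s,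
      Eqd N (uu s [(e0, 1 + X 0 ^ b), (e1, 1 + X 1 ^ c)]) (uu s (wl G (Rl l))) := by
    intro g hg G G1 G0 Gp N l hl hfl s
    obtain ⟨l', h1, h2, h3⟩ := hg.consistent (N + 1)
    have hll : l' = l := Srt.unique h1 hl fun v => by rw [h2 v, hfl v]
    rw [hll] at h3
    apply eqd_cancel (s := s)
    intro n hn
    have h4 := h3 (X s) n (by rw [← deg01]; exact hn)
    have h5 : l.foldr (fun v h => cross v (g v) h)
        (cross (Finsupp.single 0 1) (1 + X 0 ^ b) (X s)) =
        l.foldr (fun v h => cross v (G v) h) (cross e0 (G e0) (X s)) := by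
      rw [foldr_eq, foldr_eq, G0]
      have h6 : wl g l = wl G l := by
        unfold wl
        apply List.map_congr_left
        intro v hv
        rw [Gp v ((hfl v).1 hv).1]
      rw [h6]
      rfl
    rw [h5] at h4
    have h7 : cross (Finsupp.single 1 1) (1 + X 1 ^ c)
        (l.foldr (fun v h => cross v (G v) h) (cross e0 (G e0) (X s))) =
        act (wl G (Rl l)) (X s) := by
      rw [← R_eq, G1]; rfl
    rw [h7, act_X_uu] at h4
    rw [← h4, ← act_X_uu]
    rfl
  have hwF : ∀ v, v = e0 ∨ v = e1 ∨ Prim v → IsWallFun v (F v) := by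
    rintro v (rfl | rfl | hv)
    · rw [F0]; exact isWallFun_line 0 hb
    · rw [F1]; exact isWallFun_line 1 hc
    · rw [Fp v hv]; exact hf.wall v hv
  have hwF' : ∀ v, v = e0 ∨ v = e1 ∨ Prim v → IsWallFun v (F' v) := by
    rintro v (rfl | rfl | hv)
    · rw [F0']; exact isWallFun_line 0 hb
    · rw [F1']; exact isWallFun_line 1 hc
    · rw [Fp' v hv]; exact hf'.wall v hv
  have hRl : ∀ {N : ℕ} {l : List N2}, Ful N l → ∀ v ∈ Rl l, v = e0 ∨ v = e1 ∨ Prim v := by
    intro N l hfl v hv
    unfold Rl at hv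
    rw [List.mem_append, List.mem_cons, List.mem_singleton] at hv
    rcases hv with (h | h) | h
    · exact Or.inr (Or.inl h)
    · exact Or.inr (Or.inr ((hfl v).1 h).1)
    · exact Or.inl h
  have key : ∀ N, ∀ v, Prim v → Eqd N (f v) (f' v) := by
    intro N
    induction N with
    | zero =>
      intro v hv n hn
      have hn0 : n = 0 := (Finsupp.degree_eq_zero_iff n).1 (by omega)
      rw [hn0, coeff_zero_eq_constantCoeff_apply, coeff_zero_eq_constantCoeff_apply,
        (hf.wall v hv).1, (hf'.wall v hv).1]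
    | succ N ih =>
      intro v hv n hn
      rcases Nat.lt_or_ge (Finsupp.degree n) (N + 1) with hlt | hge
      · exact ih v hv n (by omega)
      have hnN : Finsupp.degree n = N + 1 := by omega
      have hn0 : n ≠ 0 := by
        intro h
        rw [h, map_zero] at hnN
        omega
      by_cases hnv : n ∈ mults v
      · obtain ⟨l, hl, hfl⟩ := exists_list (N + 2)
        have hFF : ∀ u ∈ Rl l, Eqd N (F u) (F' u) := by
          intro u hu
          rcases hRl hfl u hu with h | h | h
          · rw [h, F0, F0']; exact Eqd.refl N _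
          · rw [h, F1, F1']; exact Eqd.refl N _
          · rw [Fp u h, Fp' u h]; exact ih u h
        have h1 := (uu_diff 1 (fun u hu => hwF u (hRl hfl u hu))
          (fun u hu => hwF' u (hRl hfl u hu)) hFF).2 n hnN
        have h2 := hcons f hf F F1 F0 Fp (N + 1) l hl hfl 1 n (by omega)
        have h3 := hcons f' hf' F' F1' F0' Fp' (N + 1) l hl hfl 1 n (by omega)
        rw [← h2, ← h3, sub_self,
          map_sum_Rl 1 l (fun u => coeff n (F u) - coeff n (F' u)) (by rw [F0, F0', sub_self])
            (by rw [F1, F1', sub_self])] at h1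
        have hvl : v ∈ l := by
          rw [hfl v]
          refine ⟨hv, ?_⟩
          obtain ⟨k, hk⟩ := hnv
          have hk0 : 0 < k := by
            rcases Nat.eq_zero_or_pos k with h | h
            · exfalso; apply hn0
              rw [← hk, h]
              exact zero_smul ℕ v
            · exact h
          have h4 : k * v 0 = n 0 := congrArg (fun z : N2 => z 0) hk
          have h5 : k * v 1 = n 1 := congrArg (fun z : N2 => z 1) hk
          have h6 : v 0 + v 1 ≤ n 0 + n 1 := by
            rw [← h4, ← h5, ← mul_add]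
            exact Nat.le_mul_of_pos_left _ hk0
          rw [deg01] at hnN
          omega
        rw [sum_single hl (fun u hu => ((hfl u).1 hu).1) 1 hvl hn0 hnv
          (fun u => coeff n (F u) - coeff n (F' u))] at h1
        · have h7 : eps 1 v * (coeff n (F v) - coeff n (F' v)) = 0 := h1.symm
          have h8 : (eps 1 v : K) ≠ 0 := by
            show (v 0 : K) ≠ 0
            have := hv.1
            exact_mod_cast this.ne'
          have h9 := (mul_eq_zero.1 h7).resolve_left h8
          rw [Fp v hv, Fp' v hv] at h9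
          exact sub_eq_zero.1 h9
        · intro u hu hnu
          have hpu := ((hfl u).1 hu).1
          have h10 : ∀ g : MvPowerSeries (Fin 2) K, IsWallFun u g → coeff n g = 0 := by
            intro g hg
            by_contra hne
            exact hnu (hg.sup n hne)
          rw [h10 _ (hwF u (Or.inr (Or.inr hpu))), h10 _ (hwF' u (Or.inr (Or.inr hpu))), sub_self]
      · have h10 : ∀ g : MvPowerSeries (Fin 2) K, IsWallFun v g → coeff n g = 0 := by
          intro g hg
          by_contra hne
          exact hnv (hg.sup n hne)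
        rw [h10 _ (hf.wall v hv), h10 _ (hf'.wall v hv)]
  intro v hv
  ext n
  exact key (Finsupp.degree n) v hv n le_rfl

end Pool.Agent.LibScat
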