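import Pool.Agent.LibScat.Geom

/-!
Passing from the variables `x₁, x₂` to the variables `x₁^b, x₂^c`.
-/

namespace Pool.Agent.LibScat

open MvPowerSeries Finset

set_option linter.unusedSectionVars false

variable {K : Type*} [Field K] [CharZero K]

/-- scaling of exponents -/
noncomputable def scl (β : Fin 2 → ℕ) (n : N2) : N2 :=
  Finsupp.single 0 (β 0 * n 0) + Finsupp.single 1 (β 1 * n 1)

theorem scl_apply (β : Fin 2 → ℕ) (n : N2) (i : Fin 2) : scl β n i = β i * n i := by
  unfold scl
  fin_cases i <;> simp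

theorem scl_add (β : Fin 2 → ℕ) (n m : N2) : scl β (n + m) = scl β n + scl β m := by
  ext i
  rw [scl_apply, Finsupp.add_apply, Finsupp.add_apply, scl_apply, scl_apply, mul_add]

theorem scl_zero (β : Fin 2 → ℕ) : scl β 0 = 0 := by
  ext i
  rw [scl_apply]; simp

theorem scl_inj {β : Fin 2 → ℕ} (hβ : ∀ i, 0 < β i) {n m : N2} (h : scl β n = scl β m) :
    n = m := by
  ext i
  have := congrArg (fun z : N2 => z i) h
  simp only [scl_apply] at this
  exact Nat.eq_of_mul_eq_mul_left (hβ i) this

theorem scl_ne {β : Fin 2 → ℕ} (hβ : ∀ i, 0 < β i) {n : N2} (h : scl β n = 0) : n = 0 := by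
  rw [← scl_zero β] at h
  exact scl_inj hβ h

/-- the sublattice -/
def lam (β : Fin 2 → ℕ) : AddSubmonoid N2 where
  carrier := {n | ∀ i, β i ∣ n i}
  zero_mem' := fun _ => dvd_zero _
  add_mem' := fun ha hb i => dvd_add (ha i) (hb i)

theorem mem_lam_iff (β : Fin 2 → ℕ) (n : N2) : n ∈ lam β ↔ ∃ m, n = scl β m := by
  constructor
  · intro h
    refine ⟨Finsupp.single 0 (n 0 / β 0) + Finsupp.single 1 (n 1 / β 1), ?_⟩
    ext i
    rw [scl_apply]
    have hi : β i ∣ n i := h i
    fin_cases i
    · simp only [Fin.zero_eta, Finsupp.add_apply]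
      have : (Finsupp.single (1 : Fin 2) (n 1 / β 1) : N2) 0 = 0 := by simp
      rw [this, Finsupp.single_eq_same, add_zero]
      exact (Nat.mul_div_cancel' hi).symm
    · have : (Finsupp.single (0 : Fin 2) (n 0 / β 0) +
          Finsupp.single (1 : Fin 2) (n 1 / β 1) : N2) 1 = n 1 / β 1 := by simp
      show n 1 = β 1 * (Finsupp.single (0 : Fin 2) (n 0 / β 0) +
          Finsupp.single (1 : Fin 2) (n 1 / β 1) : N2) 1
      rw [this]
      exact (Nat.mul_div_cancel' hi).symm
  · rintro ⟨m, rfl⟩ i
    rw [scl_apply]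
    exact dvd_mul_right _ _

theorem scl_mem (β : Fin 2 → ℕ) (n : N2) : scl β n ∈ lam β := (mem_lam_iff β _).2 ⟨n, rfl⟩

/-! ### Truncated supports -/

theorem Supd.one (M : ℕ) (S : AddSubmonoid N2) : Supd M S (1 : MvPowerSeries (Fin 2) K) :=
  fun n _ h => Sup.one S n h

theorem Supd.add {M : ℕ} {S : AddSubmonoid N2} {f g : MvPowerSeries (Fin 2) K}
    (hf : Supd M S f) (hg : Supd M S g) : Supd M S (f + g) := by
  intro n hn h
  rw [map_add] at h
  by_cases h1 : coeff n f = 0
  · rw [h1, zero_add] at h; exact hg n hn h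
  · exact hf n hn h1

theorem Supd.mul {M : ℕ} {S : AddSubmonoid N2} {f g : MvPowerSeries (Fin 2) K}
    (hf : Supd M S f) (hg : Supd M S g) : Supd M S (f * g) := by
  intro n hn h
  rw [coeff_mul] at h
  obtain ⟨p, hp, hne⟩ := Finset.exists_ne_zero_of_sum_ne_zero h
  have hdeg := degree_le_of_antidiagonal hp
  rw [Finset.HasAntidiagonal.mem_antidiagonal] at hp
  rw [← hp]
  exact S.add_mem (hf _ (by omega) (left_ne_zero_of_mul hne))
    (hg _ (by omega) (right_ne_zero_of_mul hne))

theorem Supd.pow {M : ℕ} {S : AddSubmonoid N2} {f : MvPowerSeries (Fin 2) K}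
    (hf : Supd M S f) (m : ℕ) : Supd M S (f ^ m) := by
  induction m with
  | zero => rw [pow_zero]; exact Supd.one M S
  | succ m ih => rw [pow_succ]; exact ih.mul hf

theorem Supd.eul {M : ℕ} {S : AddSubmonoid N2} {f : MvPowerSeries (Fin 2) K}
    (hf : Supd M S f) (w : N2 →+ ℕ) : Supd M S (eul w f) := by
  intro n hn h
  rw [coeff_eul] at h
  exact hf n hn (right_ne_zero_of_mul h)

theorem Supd.inv1 {M : ℕ} {S : AddSubmonoid N2} {f : MvPowerSeries (Fin 2) K}
    (hf1 : constantCoeff f = 1) (hf : Supd M S f) : Supd M S (inv1 f) := by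
  have key : ∀ (d : ℕ) (n : N2), Finsupp.degree n ≤ d → Finsupp.degree n ≤ M →
      coeff n (LibScat.inv1 f) ≠ 0 → n ∈ S := by
    intro d
    induction d with
    | zero =>
      intro n hn _ _
      have : n = 0 := (Finsupp.degree_eq_zero_iff n).1 (by omega)
      rw [this]; exact S.zero_mem
    | succ d ih =>
      intro n hn hM hne
      by_cases h0 : n = 0
      · rw [h0]; exact S.zero_mem
      · rw [coeff_inv1_eq hf1 h0] at hne
        obtain ⟨p, hp, hne'⟩ := Finset.exists_ne_zero_of_sum_ne_zero (neg_ne_zero.1 hne)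
        rw [Finset.mem_erase] at hp
        obtain ⟨hp1, hp2⟩ := hp
        have hdeg := degree_le_of_antidiagonal hp2
        rw [Finset.HasAntidiagonal.mem_antidiagonal] at hp2
        have h1 := hf _ (by omega) (left_ne_zero_of_mul hne')
        have h3 : Finsupp.degree p.1 ≠ 0 := by
          intro h3
          have h4 := (Finsupp.degree_eq_zero_iff p.1).1 h3
          apply hp1
          rw [h4, zero_add] at hp2
          exact Prod.ext h4 hp2
        rw [← hp2]
        exact S.add_mem h1 (ih _ (by omega) (by omega) (right_ne_zero_of_mul hne'))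
  intro n hn
  exact key _ n le_rfl hn

theorem Supd.lg {M : ℕ} {S : AddSubmonoid N2} {f : MvPowerSeries (Fin 2) K}
    (hf1 : constantCoeff f = 1) (hf : Supd M S f) : Supd M S (lg f) := by
  intro n hn h
  rw [coeff_lg] at h
  have h' : coeff n (LibScat.inv1 f * LibScat.eul Finsupp.degree f) ≠ 0 := by
    intro h'; rw [h', smul_zero] at h; exact h rfl
  exact ((hf.inv1 hf1).mul (hf.eul _)) n hn h'

theorem supd_Xpow {M : ℕ} {β : Fin 2 → ℕ} {s : Fin 2} (hs : 0 < β s)
    {V : MvPowerSeries (Fin 2) K} (hV : Supd M (lam β) V) :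
    Supd (M + 1) (lam β) (1 + (X s * V) ^ β s) := by
  apply (Supd.one _ _).add
  intro n hn h
  rw [mul_pow, X_pow_eq, coeff_monomial_mul] at h
  split_ifs at h with hle
  · rw [one_mul] at h
    have hdeg : Finsupp.degree (n - Finsupp.single s (β s)) + β s = Finsupp.degree n := by
      have h1 : Finsupp.degree (n - Finsupp.single s (β s)) +
          Finsupp.degree (Finsupp.single s (β s)) = Finsupp.degree n := by
        rw [← map_add, tsub_add_cancel_of_le hle]
      rwa [Finsupp.degree_single] at h1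
    have h2 := (hV.pow (β s)) _ (by omega) h
    have h3 : Finsupp.single s (β s) ∈ lam β := by
      intro i
      by_cases hi : i = s
      · rw [hi, Finsupp.single_eq_same]
      · rw [Finsupp.single_eq_of_ne hi]; exact dvd_zero _
    have h4 := (lam β).add_mem h2 h3
    rwa [tsub_add_cancel_of_le hle] at h4
  · exact absurd rfl h

/-- Supports of the solution of the relations. -/
theorem supd_rel {s t : Fin 2} {β : Fin 2 → ℕ} (hβ : ∀ i, 0 < β i) {N : ℕ} {v : N2}
    {fv U V : MvPowerSeries (Fin 2) K} (R : Rel s t β N v fv U V) :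
    Supd N (lam β) U ∧ Supd N (lam β) V := by
  have key : ∀ D ≤ N, Supd D (lam β) U ∧ Supd D (lam β) V := by
    intro D
    induction D with
    | zero =>
      intro _
      constructor <;>
      · intro n hn _
        have : n = 0 := (Finsupp.degree_eq_zero_iff n).1 (by omega)
        rw [this]; exact (lam β).zero_mem
    | succ D ih =>
      intro hD
      obtain ⟨ihU, ihV⟩ := ih (by omega)
      have h1 := (supd_Xpow (hβ s) ihV).lg (const_one_add_pow (hβ s) V)
      have h2 := (supd_Xpow (hβ t) ihU).lg (const_one_add_pow (hβ t) U)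
      constructor
      · apply supd_of_lg R.hU
        intro n hn h
        rw [R.eU n (by omega)] at h
        split_ifs at h with hc
        · exact h1 n hn h
        · exact absurd rfl h
      · apply supd_of_lg R.hV
        intro n hn h
        rw [R.eV n (by omega)] at h
        split_ifs at h with hc
        · exact absurd rfl h
        · exact h2 n hn h
  exact key N le_rfl

/-! ### Extraction of coefficients -/

/-- `g` is the series of the coefficients of `f` at scaled exponents, up to degree `N`. -/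
def EE (β : Fin 2 → ℕ) (N : ℕ) (f g : MvPowerSeries (Fin 2) K) : Prop :=
  ∀ n, Finsupp.degree (scl β n) ≤ N → coeff n g = coeff (scl β n) f

/-- the extracted series -/
noncomputable def exr (β : Fin 2 → ℕ) (f : MvPowerSeries (Fin 2) K) : MvPowerSeries (Fin 2) K :=
  fun n => coeff (scl β n) f

theorem ee_exr (β : Fin 2 → ℕ) (N : ℕ) (f : MvPowerSeries (Fin 2) K) : EE β N f (exr β f) :=
  fun _ _ => rfl

theorem EE.mul {β : Fin 2 → ℕ} (hβ : ∀ i, 0 < β i) {N : ℕ}
    {f g f' g' : MvPowerSeries (Fin 2) K} (h : EE β N f f') (h' : EE β N g g')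
    (hf : Supd N (lam β) f) : EE β N (f * g) (f' * g') := by
  intro n hn
  rw [coeff_mul, coeff_mul]
  symm
  have h1 : ∑ p ∈ antidiagonal n, coeff p.1 f' * coeff p.2 g' =
      ∑ p ∈ (antidiagonal n).map ⟨fun p : N2 × N2 => (scl β p.1, scl β p.2), by
        intro p q hpq
        simp only [Prod.mk.injEq] at hpq
        exact Prod.ext (scl_inj hβ hpq.1) (scl_inj hβ hpq.2)⟩, coeff p.1 f * coeff p.2 g := by
    rw [Finset.sum_map]
    refine Finset.sum_congr rfl fun p hp => ?_
    rw [Finset.HasAntidiagonal.mem_antidiagonal] at hp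
    have hdeg : Finsupp.degree (scl β p.1) + Finsupp.degree (scl β p.2) =
        Finsupp.degree (scl β n) := by
      rw [← map_add, ← scl_add, hp]
    show coeff p.1 f' * coeff p.2 g' = coeff (scl β p.1) f * coeff (scl β p.2) g
    rw [h p.1 (by omega), h' p.2 (by omega)]
  rw [h1]
  symm
  apply Finset.sum_subset
  · intro p hp
    rw [Finset.mem_map] at hp
    obtain ⟨q, hq, rfl⟩ := hp
    rw [Finset.HasAntidiagonal.mem_antidiagonal] at hq ⊢
    show scl β q.1 + scl β q.2 = scl β n
    rw [← scl_add, hq]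
  · intro p hp hpn
    have hdeg := degree_le_of_antidiagonal hp
    rw [Finset.HasAntidiagonal.mem_antidiagonal] at hp
    by_contra hne
    have h3 := hf p.1 (by omega) (left_ne_zero_of_mul hne)
    obtain ⟨m1, hm1⟩ := (mem_lam_iff β _).1 h3
    have h4 : p.2 ∈ lam β := by
      intro i
      have h5 : p.1 i + p.2 i = scl β n i := by rw [← hp]; rfl
      have h6 : β i ∣ scl β n i := scl_mem β n i
      have h7 : β i ∣ p.1 i := h3 i
      rw [← h5] at h6
      exact (Nat.dvd_add_right h7).1 h6
    obtain ⟨m2, hm2⟩ := (mem_lam_iff β _).1 h4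
    apply hpn
    rw [Finset.mem_map]
    refine ⟨(m1, m2), ?_, ?_⟩
    · rw [Finset.HasAntidiagonal.mem_antidiagonal]
      apply scl_inj hβ
      rw [scl_add, ← hm1, ← hm2, hp]
    · show (scl β m1, scl β m2) = p
      rw [← hm1, ← hm2]

theorem EE.one {β : Fin 2 → ℕ} (hβ : ∀ i, 0 < β i) (N : ℕ) :
    EE β N (1 : MvPowerSeries (Fin 2) K) 1 := by
  intro n _
  rw [coeff_one, coeff_one]
  by_cases h : n = 0
  · rw [if_pos h, if_pos (by rw [h, scl_zero])]
  · rw [if_neg h, if_neg (fun h' => h (scl_ne hβ h'))]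

theorem EE.add {β : Fin 2 → ℕ} {N : ℕ} {f g f' g' : MvPowerSeries (Fin 2) K}
    (h : EE β N f f') (h' : EE β N g g') : EE β N (f + g) (f' + g') := by
  intro n hn
  rw [map_add, map_add, h n hn, h' n hn]

/-- the weight adapted to the scaling -/
noncomputable def wβ (β : Fin 2 → ℕ) : N2 →+ ℕ :=
  β 1 • Finsupp.applyAddHom 0 + β 0 • Finsupp.applyAddHom 1

theorem wβ_scl (β : Fin 2 → ℕ) (n : N2) :
    wβ β (scl β n) = β 0 * β 1 * Finsupp.degree n := by
  have h1 : wβ β (scl β n) = β 1 * scl β n 0 + β 0 * scl β n 1 := rfl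
  rw [h1, scl_apply, scl_apply, deg_eq (show (0 : Fin 2) ≠ 1 by decide)]
  ring

theorem EE.lg {β : Fin 2 → ℕ} (hβ : ∀ i, 0 < β i) {N : ℕ} {f f' : MvPowerSeries (Fin 2) K}
    (h : EE β N f f') (hf : Supd N (lam β) f) (h1 : constantCoeff f = 1)
    (h1' : constantCoeff f' = 1) : EE β N (LibScat.lg f) (LibScat.lg f') := by
  have hκ : β 0 * β 1 ≠ 0 := Nat.mul_ne_zero (by have := hβ 0; omega) (by have := hβ 1; omega)
  set h' := exr β (LibScat.lg f) with hh'
  -- product with the extracted logarithm
  have hL : ∀ n, Finsupp.degree (scl β n) ≤ N →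
      coeff n (eul Finsupp.degree h' * f') = coeff n (eul Finsupp.degree f') := by
    intro n hn
    have hE1 : EE β N (eul (wβ β) (LibScat.lg f)) (C ((β 0 * β 1 : ℕ) : K) * eul Finsupp.degree h') := by
      intro m hm
      rw [coeff_C_mul, coeff_eul, coeff_eul, wβ_scl]
      rw [hh']
      show _ * (_ * coeff (scl β m) (LibScat.lg f)) = _
      push_cast
      ring
    have hE2 := hE1.mul hβ h ((hf.lg h1).eul _)
    have h2 := hE2 n hn
    rw [eul_lg_mul _ h1, coeff_eul, wβ_scl, mul_assoc, coeff_C_mul, ← h n hn] at h2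
    rw [coeff_eul]
    apply cast_inj hκ
    rw [h2]
    push_cast
    ring
  -- difference
  have hdiff : ∀ n, Finsupp.degree (scl β n) ≤ N →
      coeff n (eul Finsupp.degree h' - eul Finsupp.degree (LibScat.lg f')) = 0 := by
    intro n hn
    have e1 : eul Finsupp.degree h' - eul Finsupp.degree (LibScat.lg f') =
        ((eul Finsupp.degree h' - eul Finsupp.degree (LibScat.lg f')) * f') * inv1 f' := by
      rw [mul_assoc, mul_inv1 h1', mul_one]
    rw [e1, coeff_mul]
    refine Finset.sum_eq_zero fun p hp => ?_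
    rw [Finset.HasAntidiagonal.mem_antidiagonal] at hp
    have hdeg : Finsupp.degree (scl β p.1) + Finsupp.degree (scl β p.2) =
        Finsupp.degree (scl β n) := by
      rw [← map_add, ← scl_add, hp]
    rw [sub_mul, eul_lg_mul _ h1', map_sub, hL p.1 (by omega), sub_self, zero_mul]
  intro n hn
  by_cases hd : Finsupp.degree n = 0
  · have hn0 : n = 0 := (Finsupp.degree_eq_zero_iff n).1 hd
    rw [hn0, scl_zero, coeff_zero_lg, coeff_zero_lg]
  · have h3 := hdiff n hn
    rw [map_sub, coeff_eul, coeff_eul, sub_eq_zero] at h3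
    have h4 := cast_inj hd h3
    rw [← h4]
    rfl

theorem EE.Xpow {β : Fin 2 → ℕ} (hβ : ∀ i, 0 < β i) {N : ℕ} (s : Fin 2)
    {V V' : MvPowerSeries (Fin 2) K} (h : EE β N (V ^ β s) V') :
    EE β N (1 + (X s * V) ^ β s) (1 + X s * V') := by
  refine (EE.one hβ N).add ?_
  intro n hn
  have hX : (X s : MvPowerSeries (Fin 2) K) = monomial (Finsupp.single s 1) 1 := by
    rw [← pow_one (X s), X_pow_eq]
  have hc1 : coeff n (X s * V') = if Finsupp.single s 1 ≤ n then
      coeff (n - Finsupp.single s 1) V' else 0 := by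
    rw [hX, coeff_monomial_mul, one_mul]
  rw [hc1, mul_pow, X_pow_eq, coeff_monomial_mul, one_mul]
  by_cases hle : Finsupp.single s 1 ≤ n
  · have hsplit : n = (n - Finsupp.single s 1) + Finsupp.single s 1 :=
      (tsub_add_cancel_of_le hle).symm
    have hs1 : scl β (Finsupp.single s 1) = Finsupp.single s (β s) := by
      ext i
      rw [scl_apply]
      by_cases hi : i = s
      · rw [hi, Finsupp.single_eq_same, Finsupp.single_eq_same, mul_one]
      · rw [Finsupp.single_eq_of_ne hi, Finsupp.single_eq_of_ne hi, mul_zero]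
    have hscl : scl β n = scl β (n - Finsupp.single s 1) + Finsupp.single s (β s) := by
      rw [← hs1, ← scl_add, ← hsplit]
    have hdeg : Finsupp.degree (scl β (n - Finsupp.single s 1)) ≤ N := by
      have h2 := congrArg Finsupp.degree hscl
      rw [map_add] at h2
      omega
    rw [if_pos hle, if_pos (by rw [hscl]; exact le_add_self), h _ hdeg, hscl,
      add_tsub_cancel_right]
  · rw [if_neg hle, if_neg]
    intro h2
    apply hle
    intro i
    by_cases hi : i = s
    · have h3 := h2 s
      rw [Finsupp.single_eq_same, scl_apply] at h3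
      rw [hi, Finsupp.single_eq_same]
      by_contra hcon
      have : n s = 0 := by omega
      rw [this, mul_zero] at h3
      have := hβ s
      omega
    · rw [Finsupp.single_eq_of_ne hi]; exact Nat.zero_le _

theorem const_exr {β : Fin 2 → ℕ} {f : MvPowerSeries (Fin 2) K} (hf : constantCoeff f = 1) :
    constantCoeff (exr β f) = 1 := by
  rw [← coeff_zero_eq_constantCoeff_apply]
  show coeff (scl β 0) f = 1
  rw [scl_zero, coeff_zero_eq_constantCoeff_apply, hf]

/-- The logarithm of `1 + y^..`, extracted. -/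
theorem lg_extract {s t : Fin 2} {β : Fin 2 → ℕ} (hβ : ∀ i, 0 < β i) {N : ℕ} {v : N2}
    {fv U V : MvPowerSeries (Fin 2) K} (R : Rel s t β N v fv U V) {n : N2}
    (hn : Finsupp.degree (scl β n) ≤ N) :
    coeff n (lg (1 + X s * exr β (V ^ β s))) = coeff (scl β n) (lg (1 + (X s * V) ^ β s)) ∧
    coeff n (lg (1 + X t * exr β (U ^ β t))) = coeff (scl β n) (lg (1 + (X t * U) ^ β t)) := by
  obtain ⟨hU, hV⟩ := supd_rel hβ R
  constructor
  · exact (EE.Xpow hβ s (ee_exr β N _)).lg hβ
      (fun n hn => supd_Xpow (hβ s) hV n (by omega)) (const_one_add_pow (hβ s) V)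
      (constantCoeff_one_add_X_mul s _) n hn
  · exact (EE.Xpow hβ t (ee_exr β N _)).lg hβ
      (fun n hn => supd_Xpow (hβ t) hU n (by omega)) (const_one_add_pow (hβ t) U)
      (constantCoeff_one_add_X_mul t _) n hn

theorem sys_of_rel {s t : Fin 2} (hst : s ≠ t) {β : Fin 2 → ℕ} (hβ : ∀ i, 0 < β i) {N : ℕ}
    {v : N2} {fv U V : MvPowerSeries (Fin 2) K} (R : Rel s t β N v fv U V) {i j M : ℕ}
    (hi : 0 < i) (hv : v s * (β t * i) = v t * (β s * j)) (hvt : 0 < v t)
    (hM : ∀ n : N2, Finsupp.degree n ≤ M → Finsupp.degree (scl β n) ≤ N) :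
    Sys s t i j M (β t : K) (β s : K) (exr β (U ^ β t)) (exr β (V ^ β s)) := by
  obtain ⟨hU, hV⟩ := supd_rel hβ R
  have hcond : ∀ n : N2, (v s * scl β n t < scl β n s * v t) ↔ j * n t < i * n s := by
    intro n
    rw [scl_apply, scl_apply]
    have hB : 0 < v t * β s := Nat.mul_pos hvt (hβ s)
    have hAB : v s * β t * i = v t * β s * j := by
      calc v s * β t * i = v s * (β t * i) := by ring
        _ = v t * (β s * j) := hv
        _ = v t * β s * j := by ring
    have h1 : (v s * (β t * n t) < β s * n s * v t) ↔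
        (i * (v s * (β t * n t)) < i * (β s * n s * v t)) :=
      (Nat.mul_lt_mul_left hi).symm
    have h2 : i * (v s * (β t * n t)) = v t * β s * (j * n t) := by
      calc i * (v s * (β t * n t)) = (v s * β t * i) * n t := by ring
        _ = (v t * β s * j) * n t := by rw [hAB]
        _ = _ := by ring
    have h3 : i * (β s * n s * v t) = v t * β s * (i * n s) := by ring
    rw [h1, h2, h3]
    exact Nat.mul_lt_mul_left hB
  have hUp : constantCoeff (U ^ β t) = 1 := constantCoeff_pow1 R.hU _
  have hVp : constantCoeff (V ^ β s) = 1 := constantCoeff_pow1 R.hV _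
  refine ⟨const_exr hUp, const_exr hVp, ?_, ?_⟩
  · intro n hn
    have hn' := hM n hn
    rw [(ee_exr β N (U ^ β t)).lg hβ (hU.pow _) hUp (const_exr hUp) n hn',
      lg_pow R.hU, map_nsmul, R.eU _ hn', nsmul_eq_mul, (lg_extract hβ R hn').1]
    by_cases h : j * n t < i * n s
    · rw [if_pos h, if_pos ((hcond n).2 h)]
    · rw [if_neg h, if_neg (fun h' => h ((hcond n).1 h')), mul_zero]
  · intro n hn
    have hn' := hM n hn
    rw [(ee_exr β N (V ^ β s)).lg hβ (hV.pow _) hVp (const_exr hVp) n hn',
      lg_pow R.hV, map_nsmul, R.eV _ hn', nsmul_eq_mul, (lg_extract hβ R hn').2]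
    by_cases h : j * n t < i * n s
    · rw [if_pos h, if_pos ((hcond n).2 h), mul_zero]
    · rw [if_neg h, if_neg (fun h' => h ((hcond n).1 h'))]

end Pool.Agent.LibScat
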