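import Pool.Agent.LibScat.Extract

/-!
Families of power series and polynomial dependence on the parameters.
-/

namespace Pool.Agent.LibScat

open MvPowerSeries Finset
open scoped Nat

set_option linter.unusedSectionVars false

variable {K : Type*} [Field K] [CharZero K] {ι : Type}

/-- A family of power series as a power series over the ring of families. -/
noncomputable def pk (F : ι → MvPowerSeries (Fin 2) K) : MvPowerSeries (Fin 2) (ι → K) :=
  fun n x => coeff n (F x)

theorem coeff_pk (F : ι → MvPowerSeries (Fin 2) K) (n : N2) (x : ι) :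
    (coeff n (pk F)) x = coeff n (F x) := rfl

theorem map_pk (F : ι → MvPowerSeries (Fin 2) K) (x : ι) :
    MvPowerSeries.map (Pi.evalRingHom (fun _ : ι => K) x) (pk F) = F x := by
  ext n
  rw [coeff_map]
  rfl

theorem pk_ext {f g : MvPowerSeries (Fin 2) (ι → K)}
    (h : ∀ x, MvPowerSeries.map (Pi.evalRingHom (fun _ : ι => K) x) f =
      MvPowerSeries.map (Pi.evalRingHom (fun _ : ι => K) x) g) : f = g := by
  ext n x
  have := congrArg (coeff n) (h x)
  rw [coeff_map, coeff_map] at this
  exact this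

theorem coeff_eval (f : MvPowerSeries (Fin 2) (ι → K)) (n : N2) (x : ι) :
    (coeff n f) x = coeff n (MvPowerSeries.map (Pi.evalRingHom (fun _ : ι => K) x) f) := by
  rw [coeff_map]; rfl

theorem const_pk {F : ι → MvPowerSeries (Fin 2) K} (h : ∀ x, constantCoeff (F x) = 1) :
    constantCoeff (pk F) = 1 := by
  funext x
  have h1 := h x
  rw [← coeff_zero_eq_constantCoeff_apply] at h1 ⊢
  exact h1

theorem coeff_lg_pk {F : ι → MvPowerSeries (Fin 2) K} (h : ∀ x, constantCoeff (F x) = 1)
    (n : N2) (x : ι) : (coeff n (lg (pk F))) x = coeff n (lg (F x)) := by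
  have h1 : MvPowerSeries.map (Pi.evalRingHom (fun _ : ι => K) x) (lg (pk F)) =
      lg (MvPowerSeries.map (Pi.evalRingHom (fun _ : ι => K) x) (pk F)) :=
    map_lg (R := ι → K) (R' := K) (Pi.evalRingHom (fun _ : ι => K) x) (const_pk h)
  rw [coeff_eval, h1, map_pk]

theorem coeff_lg_one_add_X_pk (F : ι → MvPowerSeries (Fin 2) K) (s : Fin 2) (n : N2) (x : ι) :
    (coeff n (lg (1 + X s * pk F) : MvPowerSeries (Fin 2) (ι → K))) x =
      coeff n (lg (1 + X s * F x)) := by
  have h1 : MvPowerSeries.map (Pi.evalRingHom (fun _ : ι => K) x) (lg (1 + X s * pk F)) =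
      lg (MvPowerSeries.map (Pi.evalRingHom (fun _ : ι => K) x) (1 + X s * pk F)) :=
    map_lg (R := ι → K) (R' := K) (Pi.evalRingHom (fun _ : ι => K) x)
      (constantCoeff_one_add_X_mul s _)
  rw [coeff_eval, h1, map_add, map_one, map_mul, map_X, map_pk]

/-- A family of solutions is a solution over the ring of families. -/
theorem sys_pk {s t : Fin 2} {i j M : ℕ} {b c : ι → K}
    {fp fm : ι → MvPowerSeries (Fin 2) K}
    (h : ∀ x, Sys s t i j M (b x) (c x) (fp x) (fm x)) :
    Sys s t i j M b c (pk fp) (pk fm) := by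
  refine ⟨const_pk fun x => (h x).hp, const_pk fun x => (h x).hm, ?_, ?_⟩
  · intro n hn
    funext x
    rw [coeff_lg_pk (fun x => (h x).hp)]
    have h1 := (h x).eqp n hn
    rw [h1]
    split_ifs
    · rw [Pi.mul_apply, coeff_lg_one_add_X_pk]
    · rfl
  · intro n hn
    funext x
    rw [coeff_lg_pk (fun x => (h x).hm)]
    have h1 := (h x).eqm n hn
    rw [h1]
    split_ifs
    · rfl
    · rw [Pi.mul_apply, coeff_lg_one_add_X_pk]

/-! ### Powers of `1 + x` -/

theorem coeff_one_add_X_pow (t : Fin 2) (m : ℕ) (n : N2) :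
    coeff n ((1 + X t : MvPowerSeries (Fin 2) K) ^ m) =
      ∑ p ∈ range (m + 1), if n = Finsupp.single t p then (m.choose p : K) else 0 := by
  rw [add_comm, add_pow, map_sum]
  refine Finset.sum_congr rfl fun p _ => ?_
  rw [one_pow, mul_one, X_pow_eq, ← map_natCast (C (σ := Fin 2) (R := K)) (m.choose p),
    coeff_mul_C, coeff_monomial]
  split_ifs
  · rw [one_mul]
  · rw [zero_mul]

theorem coeff_single_one_add_X_pow (t : Fin 2) (m p : ℕ) :
    coeff (Finsupp.single t p) ((1 + X t : MvPowerSeries (Fin 2) K) ^ m) = (m.choose p : K) := by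
  rw [coeff_one_add_X_pow]
  by_cases h : p ≤ m
  · rw [Finset.sum_eq_single p]
    · rw [if_pos rfl]
    · intro q _ hq
      rw [if_neg]
      intro h1
      exact hq (Finsupp.single_injective t h1).symm
    · intro h1
      rw [Finset.mem_range] at h1
      omega
  · rw [Nat.choose_eq_zero_of_lt (by omega), Nat.cast_zero]
    refine Finset.sum_eq_zero fun q hq => ?_
    rw [Finset.mem_range] at hq
    rw [if_neg]
    intro h1
    have := Finsupp.single_injective t h1
    omega

theorem one_add_X_pow_sup {s t : Fin 2} (hst : s ≠ t) (m : ℕ) (n : N2)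
    (h : coeff n ((1 + X t : MvPowerSeries (Fin 2) K) ^ m) ≠ 0) : n s = 0 := by
  rw [coeff_one_add_X_pow] at h
  obtain ⟨p, _, hp⟩ := Finset.exists_ne_zero_of_sum_ne_zero h
  by_cases h1 : n = Finsupp.single t p
  · rw [h1, Finsupp.single_eq_of_ne hst]
  · rw [if_neg h1] at hp
    exact absurd rfl hp

theorem fac_choose (m p : ℕ) : (p ! : K) * (m.choose p : K) = ∏ k ∈ range p, ((m : K) - k) := by
  have h1 : (p ! : K) * (m.choose p : K) = (m.descFactorial p : K) := by
    rw [Nat.descFactorial_eq_factorial_mul_choose]; push_cast; ring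
  rw [h1]
  induction p with
  | zero => simp
  | succ p ih =>
    rw [Nat.descFactorial_succ, Finset.prod_range_succ, ← ih]
    · by_cases h : p ≤ m
      · rw [Nat.cast_mul, Nat.cast_sub h]; ring
      · rw [Nat.descFactorial_of_lt (by omega : m < p), mul_zero, Nat.cast_zero, zero_mul]
    · rw [Nat.descFactorial_eq_factorial_mul_choose]; push_cast; ring

theorem fac_choose' {I : Subring (ι → K)} {γ : ι → ℕ} (hγ : (fun x => (γ x : K)) ∈ I)
    (m p : ℕ) : ∃ r ∈ I, ∀ x, ((p + 1)! : K) * ((γ x * m).choose (p + 1) : K) =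
      (γ x : K) * (m : K) * r x := by
  refine ⟨∏ k ∈ range p, ((fun x => (γ x : K)) * (m : ι → K) - ((k + 1 : ℕ) : ι → K)), ?_, ?_⟩
  · exact I.prod_mem fun k _ =>
      I.sub_mem (I.mul_mem hγ (natCast_mem I _)) (natCast_mem I _)
  · intro x
    rw [fac_choose, Finset.prod_range_succ', Finset.prod_apply]
    simp only [Pi.sub_apply, Pi.mul_apply, Pi.natCast_apply]
    push_cast
    ring

theorem fac_dvd {i j : ℕ} (hi : 0 < i) (hij : i ≤ j) : i ! ∣ Nat.gcd i j * (j - 1)! := by
  rcases Nat.lt_or_ge i j with h | h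
  · exact Dvd.dvd.mul_left (Nat.factorial_dvd_factorial (by omega)) _
  · have : i = j := by omega
    subst this
    rw [Nat.gcd_self, Nat.mul_factorial_pred (by omega)]

/-- The data for the power of `1 + x`. -/
theorem edata {s t : Fin 2} (hst : s ≠ t) {I : Subring (ι → K)} {γ : ι → ℕ}
    (hγ : (fun x => (γ x : K)) ∈ I) {i j : ℕ} (hi : 0 < i) (hij : i ≤ j) :
    EData s t I (fun x => (γ x : K)) i j
      (pk fun x => (1 + X t : MvPowerSeries (Fin 2) K) ^ γ x) := by
  have hc1 : ∀ x : ι, constantCoeff ((1 + X t : MvPowerSeries (Fin 2) K) ^ γ x) = 1 :=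
    fun x => constantCoeff_pow1 (constantCoeff_one_add_X t) _
  have hpow : ∀ (m : ℕ) (n : N2) (x : ι),
      (coeff n ((pk fun x => (1 + X t : MvPowerSeries (Fin 2) K) ^ γ x) ^ m)) x =
        coeff n ((1 + X t : MvPowerSeries (Fin 2) K) ^ (γ x * m)) := by
    intro m n x
    rw [coeff_eval, map_pow, map_pk, ← pow_mul]
  refine ⟨const_pk hc1, ?_, ?_, ?_, ?_⟩
  · intro n hn
    obtain ⟨x, hx⟩ := Function.ne_iff.1 hn
    rw [coeff_pk] at hx
    exact one_add_X_pow_sup hst _ n hx
  · ext n x
    have h1 : MvPowerSeries.map (Pi.evalRingHom (fun _ : ι => K) x) (lg (1 + X t)) =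
        lg (MvPowerSeries.map (Pi.evalRingHom (fun _ : ι => K) x) (1 + X t)) :=
      map_lg (R := ι → K) (R' := K) (Pi.evalRingHom (fun _ : ι => K) x)
        (constantCoeff_one_add_X t)
    rw [coeff_lg_pk hc1, lg_pow (constantCoeff_one_add_X t), coeff_C_mul, Pi.mul_apply,
      coeff_eval (lg _), h1, map_add, map_one, map_X, map_nsmul, nsmul_eq_mul]
  · intro m p hm hp
    rcases Nat.eq_zero_or_pos p with rfl | hp0
    · have h1 : coeff (Finsupp.single t 0)
          ((pk fun x => (1 + X t : MvPowerSeries (Fin 2) K) ^ γ x) ^ m) = 1 := by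
        funext x
        rw [hpow, coeff_single_one_add_X_pow, Nat.choose_zero_right]
        simp
      rw [h1, mul_one]
      exact natCast_mem I _
    · obtain ⟨q, rfl⟩ : ∃ q, p = q + 1 := ⟨p - 1, by omega⟩
      obtain ⟨r, hr, hr'⟩ := fac_choose' hγ m q
      obtain ⟨w, hw⟩ := Nat.factorial_dvd_factorial hp
      have h1 : (((m - 1)! : ℕ) : ι → K) * coeff (Finsupp.single t (q + 1))
          ((pk fun x => (1 + X t : MvPowerSeries (Fin 2) K) ^ γ x) ^ m) =
          (fun x => (γ x : K)) * (w : ι → K) * r := by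
        funext x
        simp only [Pi.mul_apply, Pi.natCast_apply]
        rw [hpow, coeff_single_one_add_X_pow]
        have h2 := hr' x
        have h3 : (m : K) * ((m - 1)! : K) = ((q + 1)! : K) * (w : K) := by
          rw [← Nat.cast_mul, ← Nat.cast_mul, Nat.mul_factorial_pred (by omega), hw]
        have hm0 : (m : K) ≠ 0 := by
          have : m ≠ 0 := by omega
          exact_mod_cast this
        apply mul_left_cancel₀ hm0
        calc _ = ((m : K) * ((m - 1)! : K)) * ((γ x * m).choose (q + 1) : K) := by ring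
          _ = (w : K) * (((q + 1)! : K) * ((γ x * m).choose (q + 1) : K)) := by rw [h3]; ring
          _ = _ := by rw [h2]; ring
      rw [h1]
      exact I.mul_mem (I.mul_mem hγ (natCast_mem I _)) hr
  · obtain ⟨q, rfl⟩ : ∃ q, i = q + 1 := ⟨i - 1, by omega⟩
    obtain ⟨r, hr, hr'⟩ := fac_choose' hγ j q
    obtain ⟨w, hw⟩ := fac_dvd hi hij
    refine ⟨(w : ι → K) * r, I.mul_mem (natCast_mem I _) hr, ?_⟩
    funext x
    rw [hw]
    simp only [Pi.mul_apply, Pi.natCast_apply, Pi.algebraMap_apply]
    rw [hpow, coeff_single_one_add_X_pow]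
    have h2 := hr' x
    have hj0 : (j : K) ≠ 0 := by
      have : j ≠ 0 := by omega
      exact_mod_cast this
    have h3 : algebraMap ℚ K (1 / (j : ℚ)) = 1 / (j : K) := by
      rw [map_div₀, map_one, map_natCast]
    rw [h3]
    apply mul_left_cancel₀ hj0
    push_cast
    calc _ = (w : K) * (((q + 1)! : K) * ((γ x * j).choose (q + 1) : K)) * ((j : K) * (1 / (j : K))) := by
          ring
      _ = _ := by rw [h2, mul_one_div_cancel hj0]; ring

end Pool.Agent.LibScat
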