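import Pool.Agent.LibScat.Cross

/-!
The equations satisfied on the two sides of a ray of a consistent diagram.
-/

namespace Pool.Agent.LibScat

open MvPowerSeries Finset

set_option linter.unusedSectionVars false

variable {K : Type*} [Field K]

theorem isWallFun_line (s : Fin 2) {b : ℕ} (hb : 0 < b) :
    IsWallFun (Finsupp.single s 1) (1 + X s ^ b : MvPowerSeries (Fin 2) K) := by
  constructor
  · rw [map_add, map_one, map_pow, constantCoeff_X, zero_pow (by omega), add_zero]
  · intro n hn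
    rw [map_add, coeff_one, X_pow_eq, coeff_monomial] at hn
    by_cases h0 : n = 0
    · exact ⟨0, by rw [h0, zero_smul]⟩
    · by_cases h1 : n = Finsupp.single s b
      · refine ⟨b, ?_⟩
        rw [h1, Finsupp.smul_single, smul_eq_mul, mul_one]
      · rw [if_neg h0, if_neg h1, add_zero] at hn
        exact absurd rfl hn

theorem rel {b c : ℕ} (hb : 0 < b) (hc : 0 < c)
    {W1 W2 : List (N2 × MvPowerSeries (Fin 2) K)} (hW1 : Walls W1) {N : ℕ}
    (h : ∀ g, Eqd N (cross (Finsupp.single 0 1) (1 + X 0 ^ b)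
      (cross (Finsupp.single 1 1) (1 + X 1 ^ c) g)) (act W1 (act W2 g))) :
    Eqd N (act W2 (X 1)) (act (winv W1) (X 1) * (1 + act (winv W1) (X 0) ^ b)) ∧
    Eqd N (act W2 (X 0) * (1 + act W2 (X 1) ^ c)) (act (winv W1) (X 0)) := by
  have e00 : (Finsupp.single 0 1 : N2) 0 = 1 := by simp
  have e01 : (Finsupp.single 0 1 : N2) 1 = 0 := by simp
  have e10 : (Finsupp.single 1 1 : N2) 0 = 0 := by simp
  have e11 : (Finsupp.single 1 1 : N2) 1 = 1 := by simp
  have hw0 := isWallFun_line (K := K) 0 hb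
  have hw1 := isWallFun_line (K := K) 1 hc
  constructor
  · have h1 := (h (X 1)).act (W := winv W1)
    rw [act_winv_act hW1, cross_X1, e10, pow_zero, mul_one, cross_X1, e00, pow_one, act_mul,
      act_add, act_one, act_pow] at h1
    exact h1.symm
  · have h1 := (h (X 0 * (1 + X 1 ^ c))).act (W := winv W1)
    rw [act_winv_act hW1, cross_mul, cross_X0, e11, pow_one, cross_self hw1.1 hw1.2, mul_assoc,
      mul_comm (1 + X 1 ^ c : MvPowerSeries (Fin 2) K)⁻¹, mul_inv' hw1.1, mul_one, cross_X0, e01,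
      pow_zero, mul_one, act_mul, act_add, act_one, act_pow] at h1
    exact h1.symm

/-- slopes larger than that of `v` -/
def sGt (v : N2) : AddSubmonoid N2 where
  carrier := {n | n = 0 ∨ v 1 * n 0 < n 1 * v 0}
  zero_mem' := Or.inl rfl
  add_mem' := by
    intro a b ha hb
    rcases ha with rfl | ha
    · rw [zero_add]; exact hb
    · rcases hb with rfl | hb
      · rw [add_zero]; exact Or.inr ha
      · right
        show v 1 * (a 0 + b 0) < (a 1 + b 1) * v 0
        rw [mul_add, add_mul]; omega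

/-- slopes smaller than that of `v` -/
def sLt (v : N2) : AddSubmonoid N2 where
  carrier := {n | n = 0 ∨ n 1 * v 0 < v 1 * n 0}
  zero_mem' := Or.inl rfl
  add_mem' := by
    intro a b ha hb
    rcases ha with rfl | ha
    · rw [zero_add]; exact hb
    · rcases hb with rfl | hb
      · rw [add_zero]; exact Or.inr ha
      · right
        show (a 1 + b 1) * v 0 < v 1 * (a 0 + b 0)
        rw [mul_add, add_mul]; omega

/-- slopes at least that of `v` -/
def sGe (v : N2) : AddSubmonoid N2 where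
  carrier := {n | v 1 * n 0 ≤ n 1 * v 0}
  zero_mem' := by show v 1 * 0 ≤ 0 * v 0; simp
  add_mem' := by
    intro a b ha hb
    have h1 : v 1 * a 0 ≤ a 1 * v 0 := ha
    have h2 : v 1 * b 0 ≤ b 1 * v 0 := hb
    show v 1 * (a 0 + b 0) ≤ (a 1 + b 1) * v 0
    rw [mul_add, add_mul]; omega

/-- slopes at most that of `v` -/
def sLe (v : N2) : AddSubmonoid N2 where
  carrier := {n | n 1 * v 0 ≤ v 1 * n 0}
  zero_mem' := by show 0 * v 0 ≤ v 1 * 0; simp
  add_mem' := by
    intro a b ha hb
    have h1 : a 1 * v 0 ≤ v 1 * a 0 := ha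
    have h2 : b 1 * v 0 ≤ v 1 * b 0 := hb
    show (a 1 + b 1) * v 0 ≤ v 1 * (a 0 + b 0)
    rw [mul_add, add_mul]; omega

theorem sGt_le (v : N2) : (sGt v : Set N2) ⊆ sGe v := by
  rintro n (rfl | h)
  · exact (sGe v).zero_mem
  · exact le_of_lt h

theorem sLt_le (v : N2) : (sLt v : Set N2) ⊆ sLe v := by
  rintro n (rfl | h)
  · exact (sLe v).zero_mem
  · exact le_of_lt h

theorem v_mem_sGe (v : N2) : v ∈ sGe v := by
  show v 1 * v 0 ≤ v 1 * v 0
  exact le_rfl

theorem v_mem_sLe (v : N2) : v ∈ sLe v := by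
  show v 1 * v 0 ≤ v 1 * v 0
  exact le_rfl

theorem sGt_closed (v : N2) : ∀ d ∈ sGt v, d ≠ 0 → ∀ k : ℕ, d + k • v ∈ sGt v := by
  intro d hd hd0 k
  rcases hd with rfl | h
  · exact absurd rfl hd0
  · right
    show v 1 * (d 0 + k * v 0) < (d 1 + k * v 1) * v 0
    have : v 1 * (k * v 0) = k * v 1 * v 0 := by ring
    rw [mul_add, add_mul]; omega

theorem sLt_closed (v : N2) : ∀ d ∈ sLt v, d ≠ 0 → ∀ k : ℕ, d + k • v ∈ sLt v := by
  intro d hd hd0 k
  rcases hd with rfl | h
  · exact absurd rfl hd0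
  · right
    show (d 1 + k * v 1) * v 0 < v 1 * (d 0 + k * v 0)
    have : v 1 * (k * v 0) = k * v 1 * v 0 := by ring
    rw [mul_add, add_mul]; omega

variable [CharZero K]

theorem lg_coeff_zero {S : AddSubmonoid N2} {f : MvPowerSeries (Fin 2) K}
    (hf : constantCoeff f = 1) (hs : Sup (S : Set N2) f) {n : N2} (hn : n ∉ S ∨ n = 0) :
    coeff n (lg f) = 0 := by
  rcases hn with hn | rfl
  · by_contra h
    exact hn (Sup.lg hf hs n h)
  · exact coeff_zero_lg f

/-- The relations at a ray: `U`, `V` are the factors of the two variables. -/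
structure Rel (s t : Fin 2) (β : Fin 2 → ℕ) (N : ℕ) (v : N2)
    (fv U V : MvPowerSeries (Fin 2) K) : Prop where
  hU : constantCoeff U = 1
  hV : constantCoeff V = 1
  eU : ∀ n : N2, Finsupp.degree n ≤ N → coeff n (lg U) =
    if v s * n t < n s * v t then coeff n (lg (1 + (X s * V) ^ β s)) else 0
  eV : ∀ n : N2, Finsupp.degree n ≤ N → coeff n (lg V) =
    if v s * n t < n s * v t then 0 else coeff n (lg (1 + (X t * U) ^ β t))
  ray : ∀ k : ℕ, Finsupp.degree (k • v) ≤ N →
    (v s : K) * coeff (k • v) (lg fv) = coeff (k • v) (lg (1 + (X s * V) ^ β s))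

theorem const_one_add_pow {s : Fin 2} {m : ℕ} (hm : 0 < m) (V : MvPowerSeries (Fin 2) K) :
    constantCoeff (1 + (X s * V) ^ m) = 1 := by
  rw [map_add, map_one, map_pow, map_mul, constantCoeff_X, zero_mul, zero_pow (by omega),
    add_zero]

theorem lg_inv' {f : MvPowerSeries (Fin 2) K} (hf : constantCoeff f = 1) : lg f⁻¹ = -lg f := by
  rw [inv_eq_inv1 hf, lg_inv1 hf]

theorem exists_rel {b c : ℕ} (hb : 0 < b) (hc : 0 < c) {f : N2 → MvPowerSeries (Fin 2) K}
    (hf : IsDiagram b c f) {v : N2} (hv : Prim v) {s t : Fin 2} (hst : s ≠ t) (N : ℕ) :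
    ∃ U V, Rel s t ![b, c] N v (f v) U V := by
  have hv0 : 0 < v 0 := hv.1
  have hv1 : 0 < v 1 := hv.2.1
  -- the list
  set N' := max (N + 1) (v 0 + v 1) with hN'
  obtain ⟨l, hl1, hl2, hl3⟩ := hf.consistent N'
  have hvl : v ∈ l := (hl2 v).2 ⟨hv, le_max_right _ _⟩
  obtain ⟨l1, l2, rfl⟩ := List.append_of_mem hvl
  rw [List.pairwise_append] at hl1
  obtain ⟨hp1, hp2, hp3⟩ := hl1
  rw [List.pairwise_cons] at hp2
  have hl1s : ∀ u ∈ l1, v 1 * u 0 < u 1 * v 0 := fun u hu => hp3 u hu v List.mem_cons_self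
  have hl2s : ∀ u ∈ l2, u 1 * v 0 < v 1 * u 0 := fun u hu => hp2.1 u hu
  have hprim1 : ∀ u ∈ l1, Prim u := fun u hu => ((hl2 u).1 (List.mem_append_left _ hu)).1
  have hprim2 : ∀ u ∈ l2, Prim u := fun u hu =>
    ((hl2 u).1 (List.mem_append_right _ (List.mem_cons_of_mem _ hu))).1
  set w0 : N2 × MvPowerSeries (Fin 2) K := (Finsupp.single 0 1, 1 + X 0 ^ b) with hw0
  set w1 : N2 × MvPowerSeries (Fin 2) K := (Finsupp.single 1 1, 1 + X 1 ^ c) with hw1
  set mk : N2 → N2 × MvPowerSeries (Fin 2) K := fun u => (u, f u) with hmk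
  set WU := w1 :: l1.map mk with hWU
  set WL := l2.map mk ++ [w0] with hWL
  have hwall0 : IsWallFun w0.1 w0.2 := isWallFun_line 0 hb
  have hwall1 : IsWallFun w1.1 w1.2 := isWallFun_line 1 hc
  have hWUw : Walls WU := by
    intro p hp
    rcases List.mem_cons.1 hp with rfl | hp
    · exact hwall1
    · rw [List.mem_map] at hp
      obtain ⟨u, hu, rfl⟩ := hp
      exact hf.wall u (hprim1 u hu)
  have hWLw : Walls WL := by
    intro p hp
    rcases List.mem_append.1 hp with hp | hp
    · rw [List.mem_map] at hp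
      obtain ⟨u, hu, rfl⟩ := hp
      exact hf.wall u (hprim2 u hu)
    · rw [List.mem_singleton] at hp
      rw [hp]; exact hwall0
  have hWUs : ∀ p ∈ WU, p.1 ∈ sGt v := by
    intro p hp
    rcases List.mem_cons.1 hp with rfl | hp
    · right
      show v 1 * (Finsupp.single 1 1 : N2) 0 < (Finsupp.single 1 1 : N2) 1 * v 0
      simpa using hv0
    · rw [List.mem_map] at hp
      obtain ⟨u, hu, rfl⟩ := hp
      exact Or.inr (hl1s u hu)
  have hWLs : ∀ p ∈ WL, p.1 ∈ sLt v := by
    intro p hp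
    rcases List.mem_append.1 hp with hp | hp
    · rw [List.mem_map] at hp
      obtain ⟨u, hu, rfl⟩ := hp
      exact Or.inr (hl2s u hu)
    · rw [List.mem_singleton] at hp
      rw [hp]
      right
      show (Finsupp.single 0 1 : N2) 1 * v 0 < v 1 * (Finsupp.single 0 1 : N2) 0
      simpa using hv1
  have hwv : IsWallFun v (f v) := hf.wall v hv
  -- consistency in terms of lists
  have hmap : ∀ (l : List N2) (g : MvPowerSeries (Fin 2) K),
      l.foldr (fun v h => cross v (f v) h) g = act (l.map mk) g := by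
    intro l g
    unfold act
    rw [List.foldr_map]
  have hcons : ∀ g, Eqd (N + 1) (cross (Finsupp.single 0 1) (1 + X 0 ^ b)
      (cross (Finsupp.single 1 1) (1 + X 1 ^ c) g)) (act WU (cross v (f v) (act WL g))) := by
    intro g n hn
    rw [deg_eq (show (0 : Fin 2) ≠ 1 by decide)] at hn
    rw [hl3 g n (le_trans hn (le_max_left _ _)), hmap, List.map_append, List.map_cons, act_append,
      act_cons, hWU, act_cons, hWL, act_append, act_cons, act_nil]
  -- factors of the variables
  have hUinv : ∀ p ∈ winv WU, p.1 ∈ sGt v := by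
    intro p hp
    unfold winv at hp
    rw [List.mem_reverse, List.mem_map] at hp
    obtain ⟨q, hq, rfl⟩ := hp
    exact hWUs q hq
  obtain ⟨B0, hB0, hB0c, hB0s⟩ := act_X hWUw.winv hUinv 0
  obtain ⟨B1, hB1, hB1c, hB1s⟩ := act_X hWUw.winv hUinv 1
  obtain ⟨A0, hA0, hA0c, hA0s⟩ := act_X hWLw hWLs 0
  obtain ⟨A1, hA1, hA1c, hA1s⟩ := act_X hWLw hWLs 1
  have hf1 := hwv.1
  have hlinv := lg_inv' hf1
  have hn_gt : ∀ n : N2, n ∉ sGt v ∨ n = 0 ↔ ¬ (v 1 * n 0 < n 1 * v 0) := by
    intro n
    constructor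
    · rintro (h | rfl)
      · exact fun h' => h (Or.inr h')
      · simp
    · intro h
      by_cases h0 : n = 0
      · exact Or.inr h0
      · left
        rintro (h' | h')
        · exact h0 h'
        · exact h h'
  have hn_lt : ∀ n : N2, n ∉ sLt v ∨ n = 0 ↔ ¬ (n 1 * v 0 < v 1 * n 0) := by
    intro n
    constructor
    · rintro (h | rfl)
      · exact fun h' => h (Or.inr h')
      · simp
    · intro h
      by_cases h0 : n = 0
      · exact Or.inr h0
      · left
        rintro (h' | h')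
        · exact h0 h'
        · exact h h'
  -- the two versions
  have versionA : ∃ U V, Rel 1 0 ![b, c] N v (f v) U V := by
    obtain ⟨hr1, hr2⟩ := rel hb hc (W1 := WU) (W2 := (v, f v) :: WL) hWUw
      (N := N + 1) (fun g => by rw [act_cons]; exact hcons g)
    set A0' := cross v (f v) A0 with hA0'
    set A1' := cross v (f v) A1 with hA1'
    have hA0'c : constantCoeff A0' = 1 := constantCoeff_cross hA0c
    have hA1'c : constantCoeff A1' = 1 := constantCoeff_cross hA1c
    have hA0's : Sup (sLt v : Set N2) A0' := sup_cross hwv (sLt_closed v) hA0s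
    have hA1's : Sup (sLt v : Set N2) A1' := sup_cross hwv (sLt_closed v) hA1s
    have hm0c := mf_const 0 hwv
    have hm1c := mf_const 1 hwv
    have hX0 : act ((v, f v) :: WL) (X 0) = X 0 * (mf 0 v (f v) * A0') := by
      rw [act_cons, hA0, cross_mul, cross_X, mul_assoc]
    have hX1 : act ((v, f v) :: WL) (X 1) = X 1 * (mf 1 v (f v) * A1') := by
      rw [act_cons, hA1, cross_mul, cross_X, mul_assoc]
    set V := mf 1 v (f v) * A1' with hV
    have hVc : constantCoeff V = 1 := by rw [hV, map_mul, hm1c, hA1'c, one_mul]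
    have hVs : Sup (sLe v : Set N2) V :=
      Sup.mul' (sup_mono (mults_le (v_mem_sLe v)) (mf_sup 1 hwv)) (sup_mono (sLt_le v) hA1's)
    have hQ0c : constantCoeff (mf 0 v (f v) * A0') = 1 := by rw [map_mul, hm0c, hA0'c, one_mul]
    have hQ0s : Sup (sLe v : Set N2) (mf 0 v (f v) * A0') :=
      Sup.mul' (sup_mono (mults_le (v_mem_sLe v)) (mf_sup 0 hwv)) (sup_mono (sLt_le v) hA0's)
    rw [hX1, hB0, hB1] at hr1
    rw [hX0, hX1, hB0] at hr2
    rw [mul_assoc (X 1)] at hr1
    rw [mul_assoc (X 0)] at hr2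
    have hr1' := eqd_cancel hr1
    have hr2' := eqd_cancel hr2
    have hPc := const_one_add_pow (s := 0) hb B0
    have hQc := const_one_add_pow (s := 1) hc V
    have hl1' := hr1'.lg hVc (by rw [map_mul, hB1c, hPc, one_mul])
    rw [lg_mul hB1c hPc] at hl1'
    have hl2' := hr2'.lg (by rw [map_mul, hQ0c, hQc, one_mul]) hB0c
    rw [lg_mul hQ0c hQc] at hl2'
    refine ⟨B0, V, hB0c, hVc, ?_, ?_, ?_⟩
    · intro n hn
      show coeff n (lg B0) = if v 1 * n 0 < n 1 * v 0 then coeff n (lg (1 + (X 1 * V) ^ c)) else 0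
      split_ifs with h
      · rw [← hl2' n hn, map_add, lg_coeff_zero hQ0c hQ0s (n := n), zero_add]
        left
        intro h'
        have h'' : n 1 * v 0 ≤ v 1 * n 0 := h'
        omega
      · exact lg_coeff_zero hB0c hB0s ((hn_gt n).2 h)
    · intro n hn
      show coeff n (lg V) = if v 1 * n 0 < n 1 * v 0 then 0 else coeff n (lg (1 + (X 0 * B0) ^ b))
      split_ifs with h
      · apply lg_coeff_zero hVc hVs
        left
        intro h'
        have h'' : n 1 * v 0 ≤ v 1 * n 0 := h'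
        omega
      · rw [hl1' n hn, map_add, lg_coeff_zero hB1c hB1s ((hn_gt n).2 h), zero_add]
    · intro k hk
      show (v 1 : K) * coeff (k • v) (lg (f v)) = coeff (k • v) (lg (1 + (X 1 * V) ^ c))
      have h1 := hl2' (k • v) hk
      rw [lg_mul hm0c hA0'c, map_add, map_add] at h1
      have hslope : ¬ (v 1 * (k • v) 0 < (k • v) 1 * v 0) := by
        show ¬ (v 1 * (k * v 0) < k * v 1 * v 0)
        have : v 1 * (k * v 0) = k * v 1 * v 0 := by ring
        omega
      have hslope' : ¬ ((k • v) 1 * v 0 < v 1 * (k • v) 0) := by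
        show ¬ (k * v 1 * v 0 < v 1 * (k * v 0))
        have : v 1 * (k * v 0) = k * v 1 * v 0 := by ring
        omega
      rw [lg_coeff_zero hA0'c hA0's ((hn_lt _).2 hslope'),
        lg_coeff_zero hB0c hB0s ((hn_gt _).2 hslope)] at h1
      have h2 : lg (mf 0 v (f v)) = -((v 1) • lg (f v)) := by
        show lg ((f v)⁻¹ ^ v 1) = _
        rw [lg_pow (constantCoeff_inv' hf1), hlinv, smul_neg]
      rw [h2, map_neg, map_nsmul, nsmul_eq_mul] at h1
      linear_combination -h1
  have versionB : ∃ U V, Rel 0 1 ![b, c] N v (f v) U V := by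
    have hW1w : Walls (WU ++ [(v, f v)]) := by
      intro p hp
      rcases List.mem_append.1 hp with hp | hp
      · exact hWUw p hp
      · rw [List.mem_singleton] at hp
        rw [hp]; exact hwv
    obtain ⟨hr1, hr2⟩ := rel hb hc (W1 := WU ++ [(v, f v)]) (W2 := WL) hW1w
      (N := N + 1) (fun g => by rw [act_append]; exact hcons g)
    have hwi := hwv.inv
    set B0' := cross v (f v)⁻¹ B0 with hB0'
    set B1' := cross v (f v)⁻¹ B1 with hB1'
    have hB0'c : constantCoeff B0' = 1 := constantCoeff_cross hB0c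
    have hB1'c : constantCoeff B1' = 1 := constantCoeff_cross hB1c
    have hB0's : Sup (sGt v : Set N2) B0' := sup_cross hwi (sGt_closed v) hB0s
    have hB1's : Sup (sGt v : Set N2) B1' := sup_cross hwi (sGt_closed v) hB1s
    have hm0c := mf_const 0 hwi
    have hm1c := mf_const 1 hwi
    have hwinv : winv (WU ++ [(v, f v)]) = (v, (f v)⁻¹) :: winv WU := by
      unfold winv
      rw [List.map_append, List.reverse_append]
      rfl
    have hX0 : act (winv (WU ++ [(v, f v)])) (X 0) = X 0 * (mf 0 v (f v)⁻¹ * B0') := by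
      rw [hwinv, act_cons, hB0, cross_mul, cross_X, mul_assoc]
    have hX1 : act (winv (WU ++ [(v, f v)])) (X 1) = X 1 * (mf 1 v (f v)⁻¹ * B1') := by
      rw [hwinv, act_cons, hB1, cross_mul, cross_X, mul_assoc]
    set V := mf 0 v (f v)⁻¹ * B0' with hV
    have hVc : constantCoeff V = 1 := by rw [hV, map_mul, hm0c, hB0'c, one_mul]
    have hVs : Sup (sGe v : Set N2) V :=
      Sup.mul' (sup_mono (mults_le (v_mem_sGe v)) (mf_sup 0 hwi)) (sup_mono (sGt_le v) hB0's)
    have hQ1c : constantCoeff (mf 1 v (f v)⁻¹ * B1') = 1 := by rw [map_mul, hm1c, hB1'c, one_mul]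
    have hQ1s : Sup (sGe v : Set N2) (mf 1 v (f v)⁻¹ * B1') :=
      Sup.mul' (sup_mono (mults_le (v_mem_sGe v)) (mf_sup 1 hwi)) (sup_mono (sGt_le v) hB1's)
    rw [hA1, hX0, hX1] at hr1
    rw [hA0, hA1, hX0] at hr2
    rw [mul_assoc (X 1)] at hr1
    rw [mul_assoc (X 0)] at hr2
    have hr1' := eqd_cancel hr1
    have hr2' := eqd_cancel hr2
    have hPc := const_one_add_pow (s := 0) hb V
    have hQc := const_one_add_pow (s := 1) hc A1
    have hl1' := hr1'.lg hA1c (by rw [map_mul, hQ1c, hPc, one_mul])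
    rw [lg_mul hQ1c hPc] at hl1'
    have hl2' := hr2'.lg (by rw [map_mul, hA0c, hQc, one_mul]) hVc
    rw [lg_mul hA0c hQc] at hl2'
    refine ⟨A1, V, hA1c, hVc, ?_, ?_, ?_⟩
    · intro n hn
      show coeff n (lg A1) = if v 0 * n 1 < n 0 * v 1 then coeff n (lg (1 + (X 0 * V) ^ b)) else 0
      split_ifs with h
      · rw [hl1' n hn, map_add, lg_coeff_zero hQ1c hQ1s (n := n), zero_add]
        left
        intro h'
        have h'' : v 1 * n 0 ≤ n 1 * v 0 := h'
        rw [mul_comm (v 0), mul_comm (n 0)] at h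
        omega
      · apply lg_coeff_zero hA1c hA1s ((hn_lt n).2 ?_)
        rw [mul_comm (v 0), mul_comm (n 0)] at h
        exact h
    · intro n hn
      show coeff n (lg V) = if v 0 * n 1 < n 0 * v 1 then 0 else coeff n (lg (1 + (X 1 * A1) ^ c))
      split_ifs with h
      · apply lg_coeff_zero hVc hVs
        left
        intro h'
        have h'' : v 1 * n 0 ≤ n 1 * v 0 := h'
        rw [mul_comm (v 0), mul_comm (n 0)] at h
        omega
      · rw [← hl2' n hn, map_add, lg_coeff_zero hA0c hA0s ((hn_lt n).2 ?_), zero_add]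
        rw [mul_comm (v 0), mul_comm (n 0)] at h
        exact h
    · intro k hk
      show (v 0 : K) * coeff (k • v) (lg (f v)) = coeff (k • v) (lg (1 + (X 0 * V) ^ b))
      have h1 := hl1' (k • v) hk
      rw [lg_mul hm1c hB1'c, map_add, map_add] at h1
      have hslope : ¬ (v 1 * (k • v) 0 < (k • v) 1 * v 0) := by
        show ¬ (v 1 * (k * v 0) < k * v 1 * v 0)
        have : v 1 * (k * v 0) = k * v 1 * v 0 := by ring
        omega
      have hslope' : ¬ ((k • v) 1 * v 0 < v 1 * (k • v) 0) := by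
        show ¬ (k * v 1 * v 0 < v 1 * (k * v 0))
        have : v 1 * (k * v 0) = k * v 1 * v 0 := by ring
        omega
      rw [lg_coeff_zero hB1'c hB1's ((hn_gt _).2 hslope),
        lg_coeff_zero hA1c hA1s ((hn_lt _).2 hslope')] at h1
      have h2 : lg (mf 1 v (f v)⁻¹) = -((v 0) • lg (f v)) := by
        show lg ((f v)⁻¹ ^ v 0) = _
        rw [lg_pow (constantCoeff_inv' hf1), hlinv, smul_neg]
      rw [h2, map_neg, map_nsmul, nsmul_eq_mul] at h1
      linear_combination h1
  fin_cases s <;> fin_cases t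
  · exact absurd rfl hst
  · exact versionB
  · exact versionA
  · exact absurd rfl hst

end Pool.Agent.LibScat
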