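import Pool.Agent.LibScat.Log

/-!
Divided power integrality for logarithms and for the pair of equations satisfied by the
scattering series.
-/

namespace Pool.Agent.LibScat

open MvPowerSeries Finset
open scoped Nat

set_option linter.unusedSectionVars false

variable {R : Type*} [CommRing R]

abbrev N2 : Type := Fin 2 →₀ ℕ

theorem deg_eq {s t : Fin 2} (hst : s ≠ t) (n : N2) : Finsupp.degree n = n s + n t := by
  rw [Finsupp.degree_eq_sum, Fin.sum_univ_two]
  fin_cases s <;> fin_cases t
  · exact absurd rfl hst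
  · rfl
  · show n 0 + n 1 = n 1 + n 0
    omega
  · exact absurd rfl hst

theorem ext_st {s t : Fin 2} (hst : s ≠ t) {n m : N2} (h1 : n s = m s) (h2 : n t = m t) :
    n = m := by
  ext i
  have : i = s ∨ i = t := by
    fin_cases s <;> fin_cases t <;> fin_cases i <;> simp_all
  rcases this with rfl | rfl
  · exact h1
  · exact h2

/-- the weight given by one exponent -/
noncomputable abbrev ws (s : Fin 2) : N2 →+ ℕ := Finsupp.applyAddHom s

/-- The coefficients up to degree `N`, multiplied by the factorial of the exponent of the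
variable `s`, lie in `I`. -/
def DP (s : Fin 2) (I : Subring R) (N : ℕ) (f : MvPowerSeries (Fin 2) R) : Prop :=
  ∀ n : N2, Finsupp.degree n ≤ N → (((n s)! : ℕ) : R) * coeff n f ∈ I

theorem DP.mul {s : Fin 2} {I : Subring R} {N : ℕ} {f g : MvPowerSeries (Fin 2) R}
    (hf : DP s I N f) (hg : DP s I N g) : DP s I N (f * g) := by
  intro n hn
  rw [coeff_mul, Finset.mul_sum]
  refine I.sum_mem fun p hp => ?_
  have hdeg := degree_le_of_antidiagonal hp
  rw [Finset.HasAntidiagonal.mem_antidiagonal] at hp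
  have hs : p.1 s + p.2 s = n s := by rw [← hp]; rfl
  have h1 : (((n s)! : ℕ) : R) = ((n s).choose (p.1 s) : R) * ((p.1 s)! : ℕ) * ((p.2 s)! : ℕ) := by
    have h2 : (n s).choose (p.1 s) * (p.1 s)! * (p.2 s)! = (n s)! := by
      have h3 := Nat.choose_mul_factorial_mul_factorial (show p.1 s ≤ n s by omega)
      rw [show n s - p.1 s = p.2 s by omega] at h3
      exact h3
    rw [← h2]; push_cast; ring
  rw [h1]
  have h4 : ((n s).choose (p.1 s) : R) * ((p.1 s)! : ℕ) * ((p.2 s)! : ℕ) *
      (coeff p.1 f * coeff p.2 g) =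
      ((n s).choose (p.1 s) : R) * (((p.1 s)! : ℕ) * coeff p.1 f) *
        (((p.2 s)! : ℕ) * coeff p.2 g) := by ring
  rw [h4]
  exact I.mul_mem (I.mul_mem (natCast_mem I _) (hf _ (by omega))) (hg _ (by omega))

theorem DP.one {s : Fin 2} {I : Subring R} {N : ℕ} : DP s I N 1 := by
  intro n _
  rw [coeff_one]
  split_ifs with h
  · rw [mul_one]; exact natCast_mem I _
  · rw [mul_zero]; exact I.zero_mem

theorem DP.pow {s : Fin 2} {I : Subring R} {N : ℕ} {f : MvPowerSeries (Fin 2) R}
    (hf : DP s I N f) (m : ℕ) : DP s I N (f ^ m) := by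
  induction m with
  | zero => rw [pow_zero]; exact DP.one
  | succ m ih => rw [pow_succ]; exact ih.mul hf

theorem nat_id {a b : ℕ} (ha : 1 ≤ a) :
    (a + b - 1)! * a = (a + b - 1).choose b * a ! * b ! := by
  obtain ⟨a, rfl⟩ : ∃ a', a = a' + 1 := ⟨a - 1, by omega⟩
  have h := Nat.choose_mul_factorial_mul_factorial (show b ≤ a + b by omega)
  rw [show a + b - b = a by omega] at h
  rw [show a + 1 + b - 1 = a + b by omega, ← h, Nat.factorial_succ]
  ring

variable [Algebra ℚ R]

/-- Integrality of the logarithm. -/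
theorem lg_DP {s : Fin 2} {I : Subring R} {N : ℕ} {f : MvPowerSeries (Fin 2) R}
    (hf : constantCoeff f = 1)
    (h0 : ∀ n : N2, Finsupp.degree n ≤ N → n s = 0 → n ≠ 0 → coeff n f = 0)
    (hD : DP s I N f) :
    (∀ n : N2, Finsupp.degree n ≤ N → n s = 0 → coeff n (lg f) = 0) ∧ DP s I N (lg f) := by
  have hz : ∀ n : N2, Finsupp.degree n ≤ N → n s = 0 → coeff n (lg f) = 0 := by
    intro n hn hns
    by_cases hn0 : n = 0
    · rw [hn0]; exact coeff_zero_lg f
    have h := congrArg (coeff n) (eul_lg_mul Finsupp.degree hf)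
    rw [coeff_eul, h0 n hn hns hn0, mul_zero, coeff_mul,
      Finset.sum_eq_single (n, (0 : N2))] at h
    · simp only [coeff_zero_eq_constantCoeff_apply, hf, mul_one, coeff_eul] at h
      have hd : Finsupp.degree n ≠ 0 := fun h' => hn0 ((Finsupp.degree_eq_zero_iff n).1 h')
      exact cast_inj hd (by rw [h, mul_zero])
    · intro p hp hne
      have hdeg := degree_le_of_antidiagonal hp
      rw [Finset.HasAntidiagonal.mem_antidiagonal] at hp
      have hs : p.1 s + p.2 s = n s := by rw [← hp]; rfl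
      have hp2 : p.2 ≠ 0 := by
        intro h2
        apply hne
        rw [h2, add_zero] at hp
        exact Prod.ext hp h2
      rw [h0 p.2 (by omega) (by omega) hp2, mul_zero]
    · intro h'
      exact absurd (by rw [Finset.HasAntidiagonal.mem_antidiagonal, add_zero]) h'
  refine ⟨hz, ?_⟩
  have key : ∀ (d : ℕ) (n : N2), Finsupp.degree n ≤ d → Finsupp.degree n ≤ N →
      (((n s)! : ℕ) : R) * coeff n (lg f) ∈ I := by
    intro d
    induction d with
    | zero =>
      intro n hn _
      have hn0 : n = 0 := (Finsupp.degree_eq_zero_iff n).1 (by omega)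
      rw [hn0, coeff_zero_lg, mul_zero]; exact I.zero_mem
    | succ d ih =>
      intro n hn hN
      by_cases hns : n s = 0
      · rw [hz n hN hns, mul_zero]; exact I.zero_mem
      have h := congrArg (coeff n) (eul_lg_mul (ws s) hf)
      rw [coeff_eul, coeff_mul, ← Finset.add_sum_erase _ _
        (show (n, (0 : N2)) ∈ antidiagonal n by
          rw [Finset.HasAntidiagonal.mem_antidiagonal, add_zero])] at h
      simp only [coeff_zero_eq_constantCoeff_apply, hf, mul_one, coeff_eul] at h
      have hw : (ws s) n = n s := rfl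
      rw [hw] at h
      have hq : (((n s)! : ℕ) : R) = (((n s - 1)! : ℕ) : R) * (n s : R) := by
        rw [← Nat.cast_mul, Nat.mul_comm, Nat.mul_factorial_pred hns]
      have h2 : (((n s)! : ℕ) : R) * coeff n (lg f) = (((n s)! : ℕ) : R) * coeff n f -
          ∑ p ∈ (antidiagonal n).erase (n, 0),
            (((n s - 1)! : ℕ) : R) * ((p.1 s : R) * coeff p.1 (lg f) * coeff p.2 f) := by
        rw [← Finset.mul_sum, hq]
        have h3 : (n s : R) * coeff n (lg f) = (n s : R) * coeff n f -
            ∑ p ∈ (antidiagonal n).erase (n, 0), ((p.1 s : R) * coeff p.1 (lg f) * coeff p.2 f) := by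
          rw [eq_sub_iff_add_eq]
          exact h
        rw [mul_assoc, h3]; ring
      rw [h2]
      refine I.sub_mem (hD n hN) (I.sum_mem fun p hp => ?_)
      rw [Finset.mem_erase] at hp
      obtain ⟨hne, hp⟩ := hp
      have hdeg := degree_le_of_antidiagonal hp
      rw [Finset.HasAntidiagonal.mem_antidiagonal] at hp
      have hs : p.1 s + p.2 s = n s := by rw [← hp]; rfl
      have hp2 : p.2 ≠ 0 := by
        intro h2
        apply hne
        rw [h2, add_zero] at hp
        exact Prod.ext hp h2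
      have hd2 : Finsupp.degree p.2 ≠ 0 := fun h' => hp2 ((Finsupp.degree_eq_zero_iff _).1 h')
      by_cases h1s : p.1 s = 0
      · rw [h1s, Nat.cast_zero, zero_mul, zero_mul, mul_zero]; exact I.zero_mem
      · have hid := nat_id (a := p.1 s) (b := p.2 s) (by omega)
        rw [hs] at hid
        have hid' : (((n s - 1)! : ℕ) : R) * (p.1 s : R) =
            ((n s - 1).choose (p.2 s) : R) * ((p.1 s)! : ℕ) * ((p.2 s)! : ℕ) := by
          exact_mod_cast congrArg (fun z : ℕ => (z : R)) hid
        have h4 : (((n s - 1)! : ℕ) : R) * ((p.1 s : R) * coeff p.1 (lg f) * coeff p.2 f) =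
            ((n s - 1).choose (p.2 s) : R) * (((p.1 s)! : ℕ) * coeff p.1 (lg f)) *
              (((p.2 s)! : ℕ) * coeff p.2 f) := by
          calc _ = ((((n s - 1)! : ℕ) : R) * (p.1 s : R)) * coeff p.1 (lg f) * coeff p.2 f := by
                ring
            _ = _ := by rw [hid']; ring
        rw [h4]
        exact I.mul_mem (I.mul_mem (natCast_mem I _) (ih _ (by omega) (by omega)))
          (hD _ (by omega))
  intro n hn
  exact key _ n le_rfl hn

/-- Integrality from the logarithm. -/
theorem of_lg {s : Fin 2} {I : Subring R} {N : ℕ} {κ : R} (hκ : κ ∈ I)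
    {f : MvPowerSeries (Fin 2) R} (hf : constantCoeff f = 1)
    (h0 : ∀ n : N2, Finsupp.degree n ≤ N → n s = 0 → coeff n (lg f) = 0)
    (hL : ∀ n : N2, Finsupp.degree n ≤ N →
      ∃ r ∈ I, (((n s)! : ℕ) : R) * coeff n (lg f) = κ * r) :
    (∀ n : N2, Finsupp.degree n ≤ N → n s = 0 → n ≠ 0 → coeff n f = 0) ∧
    (∀ n : N2, Finsupp.degree n ≤ N → n ≠ 0 →
      ∃ r ∈ I, (((n s)! : ℕ) : R) * coeff n f = κ * r) := by
  have hz : ∀ n : N2, Finsupp.degree n ≤ N → n s = 0 → n ≠ 0 → coeff n f = 0 := by
    intro n hn hns hn0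
    have h := congrArg (coeff n) (eul_lg_mul Finsupp.degree hf)
    rw [coeff_eul, coeff_mul, Finset.sum_eq_zero] at h
    · have hd : Finsupp.degree n ≠ 0 := fun h' => hn0 ((Finsupp.degree_eq_zero_iff n).1 h')
      exact cast_inj hd (by rw [← h, mul_zero])
    · intro p hp
      have hdeg := degree_le_of_antidiagonal hp
      rw [Finset.HasAntidiagonal.mem_antidiagonal] at hp
      have hs : p.1 s + p.2 s = n s := by rw [← hp]; rfl
      rw [coeff_eul, h0 p.1 (by omega) (by omega), mul_zero, zero_mul]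
  refine ⟨hz, ?_⟩
  have key : ∀ (d : ℕ) (n : N2), Finsupp.degree n ≤ d → Finsupp.degree n ≤ N → n ≠ 0 →
      ∃ r ∈ I, (((n s)! : ℕ) : R) * coeff n f = κ * r := by
    intro d
    induction d with
    | zero =>
      intro n hn _ hn0
      exact absurd ((Finsupp.degree_eq_zero_iff n).1 (by omega)) hn0
    | succ d ih =>
      intro n hn hN hn0
      by_cases hns : n s = 0
      · exact ⟨0, I.zero_mem, by rw [hz n hN hns hn0, mul_zero, mul_zero]⟩
      have h := congrArg (coeff n) (eul_lg_mul (ws s) hf)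
      rw [coeff_eul, coeff_mul] at h
      have hw : (ws s) n = n s := rfl
      rw [hw] at h
      have hq : (((n s)! : ℕ) : R) = (((n s - 1)! : ℕ) : R) * (n s : R) := by
        rw [← Nat.cast_mul, Nat.mul_comm, Nat.mul_factorial_pred hns]
      have h2 : (((n s)! : ℕ) : R) * coeff n f = ∑ p ∈ antidiagonal n,
          (((n s - 1)! : ℕ) : R) * ((p.1 s : R) * coeff p.1 (lg f) * coeff p.2 f) := by
        rw [← Finset.mul_sum, hq, mul_assoc, ← h]
        rfl
      rw [h2]
      have hterm : ∀ p ∈ antidiagonal n, ∃ r ∈ I,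
          (((n s - 1)! : ℕ) : R) * ((p.1 s : R) * coeff p.1 (lg f) * coeff p.2 f) = κ * r := by
        intro p hp
        have hdeg := degree_le_of_antidiagonal hp
        rw [Finset.HasAntidiagonal.mem_antidiagonal] at hp
        have hs : p.1 s + p.2 s = n s := by rw [← hp]; rfl
        by_cases h1s : p.1 s = 0
        · exact ⟨0, I.zero_mem, by rw [h1s]; simp⟩
        · have hid := nat_id (a := p.1 s) (b := p.2 s) (by omega)
          rw [hs] at hid
          have hid' : (((n s - 1)! : ℕ) : R) * (p.1 s : R) =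
              ((n s - 1).choose (p.2 s) : R) * ((p.1 s)! : ℕ) * ((p.2 s)! : ℕ) := by
            exact_mod_cast congrArg (fun z : ℕ => (z : R)) hid
          obtain ⟨r1, hr1, hr1'⟩ := hL p.1 (by omega)
          have hf2 : (((p.2 s)! : ℕ) : R) * coeff p.2 f ∈ I := by
            by_cases hp2 : p.2 = 0
            · rw [hp2, coeff_zero_eq_constantCoeff_apply, hf, mul_one]
              exact natCast_mem I _
            · have hd1 : p.1 ≠ 0 := by
                intro h'; rw [h'] at h1s; exact h1s rfl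
              have hd1' : Finsupp.degree p.1 ≠ 0 :=
                fun h' => hd1 ((Finsupp.degree_eq_zero_iff _).1 h')
              obtain ⟨r2, hr2, hr2'⟩ := ih p.2 (by omega) (by omega) hp2
              rw [hr2']
              exact I.mul_mem hκ hr2
          refine ⟨((n s - 1).choose (p.2 s) : R) * r1 * ((((p.2 s)! : ℕ) : R) * coeff p.2 f),
            I.mul_mem (I.mul_mem (natCast_mem I _) hr1) hf2, ?_⟩
          calc _ = ((((n s - 1)! : ℕ) : R) * (p.1 s : R)) * coeff p.1 (lg f) * coeff p.2 f := by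
                ring
            _ = ((n s - 1).choose (p.2 s) : R) * (((p.1 s)! : ℕ) * coeff p.1 (lg f)) *
                ((((p.2 s)! : ℕ) : R) * coeff p.2 f) := by rw [hid']; ring
            _ = _ := by rw [hr1']; ring
      choose! r hr hr' using hterm
      refine ⟨∑ p ∈ antidiagonal n, r p, I.sum_mem hr, ?_⟩
      rw [Finset.mul_sum]
      exact Finset.sum_congr rfl hr'
  intro n hn hn0
  exact key _ n le_rfl hn hn0

theorem DP_of {s : Fin 2} {I : Subring R} {N : ℕ} {κ : R} (hκ : κ ∈ I)
    {f : MvPowerSeries (Fin 2) R} (hf : constantCoeff f = 1)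
    (h : ∀ n : N2, Finsupp.degree n ≤ N → n ≠ 0 →
      ∃ r ∈ I, (((n s)! : ℕ) : R) * coeff n f = κ * r) : DP s I N f := by
  intro n hn
  by_cases hn0 : n = 0
  · rw [hn0, coeff_zero_eq_constantCoeff_apply, hf, mul_one]
    exact natCast_mem I _
  · obtain ⟨r, hr, hr'⟩ := h n hn hn0
    rw [hr']
    exact I.mul_mem hκ hr

/-! ### The expansion of the logarithm -/

/-- Vanishing of the coefficients with small exponent of `s`. -/
def VS (s : Fin 2) (M : ℕ) (f : MvPowerSeries (Fin 2) R) : Prop :=
  ∀ n : N2, n s < M → coeff n f = 0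

omit [Algebra ℚ R] in
theorem VS.mul {s : Fin 2} {M M' : ℕ} {f g : MvPowerSeries (Fin 2) R} (hf : VS s M f)
    (hg : VS s M' g) : VS s (M + M') (f * g) := by
  intro n hn
  rw [coeff_mul]
  refine Finset.sum_eq_zero fun p hp => ?_
  rw [Finset.HasAntidiagonal.mem_antidiagonal] at hp
  have hs : p.1 s + p.2 s = n s := by rw [← hp]; rfl
  by_cases h : p.1 s < M
  · rw [hf _ h, zero_mul]
  · rw [hg _ (by omega), mul_zero]

omit [Algebra ℚ R] in
theorem VS.zero (s : Fin 2) (f : MvPowerSeries (Fin 2) R) : VS s 0 f :=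
  fun n hn => absurd hn (by omega)

omit [Algebra ℚ R] in
theorem VS.X (s : Fin 2) : VS s 1 (X s : MvPowerSeries (Fin 2) R) := by
  intro n hn
  rw [coeff_X, if_neg]
  intro h
  rw [h, Finsupp.single_eq_same] at hn
  omega

omit [Algebra ℚ R] in
theorem VS.pow {s : Fin 2} {f : MvPowerSeries (Fin 2) R} (hf : VS s 1 f) (m : ℕ) :
    VS s m (f ^ m) := by
  induction m with
  | zero => exact VS.zero s _
  | succ m ih => rw [pow_succ]; exact ih.mul hf

omit [Algebra ℚ R] in
theorem VS.eul {s : Fin 2} {M : ℕ} {f : MvPowerSeries (Fin 2) R} (hf : VS s M f)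
    (w : N2 →+ ℕ) : VS s M (eul w f) := by
  intro n hn
  rw [coeff_eul, hf n hn, mul_zero]

omit [Algebra ℚ R] in
theorem constantCoeff_one_add {s : Fin 2} {u : MvPowerSeries (Fin 2) R} (hu : VS s 1 u) :
    constantCoeff (1 + u) = 1 := by
  rw [map_add, map_one, ← coeff_zero_eq_constantCoeff_apply u, hu 0 (by simp), add_zero]

theorem eul_C_mul (w : N2 →+ ℕ) (a : R) (f : MvPowerSeries (Fin 2) R) :
    eul w (C a * f) = C a * eul w f := by
  ext n
  rw [coeff_eul, coeff_C_mul, coeff_C_mul, coeff_eul]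
  ring

theorem eul_sum (w : N2 →+ ℕ) {ι : Type} (T : Finset ι) (g : ι → MvPowerSeries (Fin 2) R) :
    eul w (∑ m ∈ T, g m) = ∑ m ∈ T, eul w (g m) := by
  classical
  induction T using Finset.induction_on with
  | empty => simp [eul_zero]
  | insert a T ha ih => rw [Finset.sum_insert ha, Finset.sum_insert ha, eul_add, ih]

/-- the coefficients of the logarithm -/
noncomputable def lc (R : Type*) [CommRing R] [Algebra ℚ R] (m : ℕ) : R :=
  algebraMap ℚ R ((-1) ^ m / (m + 1))

theorem lc_mul (m : ℕ) : lc R m * ((m + 1 : ℕ) : R) = (-1) ^ m := by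
  have h1 : ((m + 1 : ℕ) : R) = algebraMap ℚ R ((m + 1 : ℕ) : ℚ) := by simp
  unfold lc
  rw [h1, ← map_mul]
  have h2 : ((-1) ^ m / ((m : ℚ) + 1)) * ((m + 1 : ℕ) : ℚ) = (-1) ^ m := by
    push_cast
    have : (m : ℚ) + 1 ≠ 0 := by positivity
    field_simp
  rw [h2, map_pow, map_neg, map_one]

theorem lg_one_add {s : Fin 2} {u : MvPowerSeries (Fin 2) R} (hu : VS s 1 u) (M : ℕ) (n : N2)
    (hn : n s ≤ M) :
    coeff n (lg (1 + u)) = ∑ m ∈ range M, lc R m * coeff n (u ^ (m + 1)) := by
  have h1 := constantCoeff_one_add hu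
  set S : MvPowerSeries (Fin 2) R := ∑ m ∈ range M, C (lc R m) * u ^ (m + 1) with hS
  have hSn : ∀ k : N2, coeff k S = ∑ m ∈ range M, lc R m * coeff k (u ^ (m + 1)) := by
    intro k
    rw [hS, map_sum]
    refine Finset.sum_congr rfl fun m _ => ?_
    rw [coeff_C_mul]
  have hES : eul Finsupp.degree S = (∑ m ∈ range M, (-u) ^ m) * eul Finsupp.degree u := by
    rw [hS, eul_sum, Finset.sum_mul]
    refine Finset.sum_congr rfl fun m _ => ?_
    rw [eul_C_mul, eul_pow]
    have h3 : ((m + 1 : ℕ) : MvPowerSeries (Fin 2) R) = C ((m + 1 : ℕ) : R) :=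
      (map_natCast _ _).symm
    rw [h3, ← mul_assoc, ← mul_assoc, ← map_mul, lc_mul, neg_pow u m, map_pow, map_neg, map_one]
  have hkey : eul Finsupp.degree (lg (1 + u)) - eul Finsupp.degree S =
      inv1 (1 + u) * ((-u) ^ M * eul Finsupp.degree u) := by
    have h2 := eul_lg_mul Finsupp.degree h1
    rw [eul_add, eul_one, zero_add] at h2
    have h3 : (1 + u) * eul Finsupp.degree S = (1 - (-u) ^ M) * eul Finsupp.degree u := by
      rw [hES, ← mul_assoc]
      have := mul_neg_geom_sum (-u) M
      rw [sub_neg_eq_add] at this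
      rw [this]
    have h4 := inv1_mul h1
    calc eul Finsupp.degree (lg (1 + u)) - eul Finsupp.degree S
        = (inv1 (1 + u) * (1 + u)) *
          (eul Finsupp.degree (lg (1 + u)) - eul Finsupp.degree S) := by rw [h4, one_mul]
      _ = inv1 (1 + u) * (eul Finsupp.degree (lg (1 + u)) * (1 + u) -
          (1 + u) * eul Finsupp.degree S) := by ring
      _ = inv1 (1 + u) * ((-u) ^ M * eul Finsupp.degree u) := by rw [h2, h3]; ring
  have hneg : VS s 1 (-u) := by
    intro k hk
    rw [map_neg, hu k hk, neg_zero]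
  have hVS : VS s (M + 1) (inv1 (1 + u) * ((-u) ^ M * eul Finsupp.degree u)) := by
    have := (VS.zero s (inv1 (1 + u))).mul ((hneg.pow M).mul (hu.eul Finsupp.degree))
    rw [zero_add] at this
    exact this
  rw [← hSn n]
  by_cases hd : Finsupp.degree n = 0
  · have hn0 : n = 0 := (Finsupp.degree_eq_zero_iff n).1 hd
    rw [hn0, coeff_zero_lg, hSn, Finset.sum_eq_zero]
    intro m _
    rw [hu.pow (m + 1) 0 (by simp), mul_zero]
  · have h5 := congrArg (coeff n) hkey
    rw [hVS n (by omega), map_sub, coeff_eul, coeff_eul] at h5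
    exact cast_inj hd (sub_eq_zero.1 h5)

end Pool.Agent.LibScat
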