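import Pool.Agent.LibScat.Geom

/-!
Wall-crossing automorphisms preserve the Poisson bracket.
-/

namespace Pool.Agent.LibScat

open MvPowerSeries Finset

set_option linter.unusedSectionVars false

variable {K : Type*} [Field K] [CharZero K]

theorem coeff_cross_sum (v : N2) (f g : MvPowerSeries (Fin 2) K) {e : N2} {T : Finset N2}
    (hT : ∀ d ≤ e, d ∈ T) :
    coeff e (cross v f g) =
      ∑ d ∈ T, coeff d g * coeff e (monomial d (1 : K) * uf v f d) := by
  rw [coeff_cross]
  rw [finsum_eq_sum_of_support_subset (s := T)]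
  · rfl
  · intro d hd
    apply hT
    rw [Function.mem_support] at hd
    by_contra h
    rw [coeff_monomial_mul, if_neg h, smul_zero] at hd
    exact hd rfl

/-- the coordinate weights -/
noncomputable def cw (i : Fin 2) : N2 →+ ℕ := Finsupp.applyAddHom i

theorem cw_apply (i : Fin 2) (n : N2) : cw i n = n i := rfl

/-- the entries of the Jacobian matrix -/
noncomputable def Mx (w : N2 →+ ℕ) (v : N2) (f : MvPowerSeries (Fin 2) K) (s : Fin 2) :
    MvPowerSeries (Fin 2) K := C ((w (Finsupp.single s 1) : ℕ) : K) + eul w (lg (mf s v f))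

theorem eul_X (w : N2 →+ ℕ) (s : Fin 2) :
    eul w (X s : MvPowerSeries (Fin 2) K) = C ((w (Finsupp.single s 1) : ℕ) : K) * X s := by
  ext n
  rw [coeff_eul, coeff_C_mul, coeff_X]
  split_ifs with h
  · rw [h]
  · rw [mul_zero, mul_zero]

theorem eul_var (w : N2 →+ ℕ) {v : N2} {f : MvPowerSeries (Fin 2) K} (h : IsWallFun v f)
    (s : Fin 2) : eul w (X s * mf s v f) = X s * mf s v f * Mx w v f s := by
  rw [eul_mul, eul_X, ← eul_lg_mul w (mf_const s h)]
  unfold Mx
  ring

theorem eul_pow' (w : N2 →+ ℕ) (Y M : MvPowerSeries (Fin 2) K) (h : eul w Y = Y * M) (m : ℕ) :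
    eul w (Y ^ m) = Y ^ m * (C (m : K) * M) := by
  rcases m with _ | m
  · rw [pow_zero, eul_one, Nat.cast_zero, map_zero, zero_mul, mul_zero]
  · rw [eul_pow, h, pow_succ, ← map_natCast (C (σ := Fin 2) (R := K)) (m + 1)]
    ring

theorem eul_mono (w : N2 →+ ℕ) {v : N2} {f : MvPowerSeries (Fin 2) K} (h : IsWallFun v f)
    (d : N2) : eul w (monomial d (1 : K) * uf v f d) =
      monomial d (1 : K) * uf v f d *
        (C (d 0 : K) * Mx w v f 0 + C (d 1 : K) * Mx w v f 1) := by
  have h1 : monomial d (1 : K) * uf v f d =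
      (X 0 * mf 0 v f) ^ d 0 * (X 1 * mf 1 v f) ^ d 1 := by
    rw [monomial_eq, uf, mul_pow, mul_pow]
    show _ = X 0 ^ d 0 * (f⁻¹ ^ v 1) ^ d 0 * (X 1 ^ d 1 * (f ^ v 0) ^ d 1)
    ring
  rw [h1, eul_mul, eul_pow' w _ _ (eul_var w h 0), eul_pow' w _ _ (eul_var w h 1)]
  ring

/-- The chain rule. -/
theorem eul_cross (w : N2 →+ ℕ) {v : N2} {f : MvPowerSeries (Fin 2) K} (h : IsWallFun v f)
    (g : MvPowerSeries (Fin 2) K) :
    eul w (cross v f g) = cross v f (eul (cw 0) g) * Mx w v f 0 +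
      cross v f (eul (cw 1) g) * Mx w v f 1 := by
  ext e
  have hT : ∀ p : N2, p ≤ e → ∀ d ≤ p, d ∈ Finset.Iic e := fun p hp d hd =>
    Finset.mem_Iic.2 (hd.trans hp)
  have key : ∀ s : Fin 2, coeff e (cross v f (eul (cw s) g) * Mx w v f s) =
      ∑ d ∈ Finset.Iic e, coeff d g * coeff e (monomial d (1 : K) * uf v f d *
        (C (d s : K) * Mx w v f s)) := by
    intro s
    rw [coeff_mul]
    have h1 : ∀ p ∈ antidiagonal e, coeff p.1 (cross v f (eul (cw s) g)) * coeff p.2 (Mx w v f s) =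
        ∑ d ∈ Finset.Iic e, (d s : K) * coeff d g *
          (coeff p.1 (monomial d (1 : K) * uf v f d) * coeff p.2 (Mx w v f s)) := by
      intro p hp
      rw [Finset.HasAntidiagonal.mem_antidiagonal] at hp
      rw [coeff_cross_sum v f _ (hT p.1 (by rw [← hp]; exact le_self_add)), Finset.sum_mul]
      refine Finset.sum_congr rfl fun d _ => ?_
      rw [coeff_eul, cw_apply]
      ring
    rw [Finset.sum_congr rfl h1, Finset.sum_comm]
    refine Finset.sum_congr rfl fun d _ => ?_
    rw [← Finset.mul_sum, ← coeff_mul]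
    have h2 : monomial d (1 : K) * uf v f d * (C (d s : K) * Mx w v f s) =
        C (d s : K) * (monomial d (1 : K) * uf v f d * Mx w v f s) := by ring
    rw [h2, coeff_C_mul]
    ring
  rw [coeff_eul, coeff_cross_sum v f g (hT e le_rfl), Finset.mul_sum, map_add, key, key,
    ← Finset.sum_add_distrib]
  refine Finset.sum_congr rfl fun d _ => ?_
  have h3 := congrArg (coeff e) (eul_mono w h d)
  rw [coeff_eul] at h3
  calc _ = coeff d g * ((w e : K) * coeff e (monomial d (1 : K) * uf v f d)) := by ring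
    _ = _ := by
      rw [h3, mul_add, map_add, mul_add]

/-- The Poisson bracket. -/
noncomputable def br (f g : MvPowerSeries (Fin 2) K) : MvPowerSeries (Fin 2) K :=
  eul (cw 0) f * eul (cw 1) g - eul (cw 1) f * eul (cw 0) g

theorem cross_sub (v : N2) (f g h : MvPowerSeries (Fin 2) K) :
    cross v f (g - h) = cross v f g - cross v f h := by
  have h1 := cross_add v f (g - h) h
  rw [sub_add_cancel] at h1
  rw [h1, add_sub_cancel_right]

theorem wall_eul {v : N2} {f : MvPowerSeries (Fin 2) K} (h : IsWallFun v f) :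
    C (v 1 : K) * eul (cw 0) (lg f) = C (v 0 : K) * eul (cw 1) (lg f) := by
  ext n
  rw [coeff_C_mul, coeff_C_mul, coeff_eul, coeff_eul, cw_apply, cw_apply]
  by_cases hn : coeff n (lg f) = 0
  · rw [hn]; ring
  · obtain ⟨k, hk⟩ := Sup.lg h.1 h.sup n hn
    have h0 : n 0 = k * v 0 := by rw [← hk]; rfl
    have h1 : n 1 = k * v 1 := by rw [← hk]; rfl
    rw [h0, h1]
    push_cast
    ring

theorem lg_mf0 {v : N2} {f : MvPowerSeries (Fin 2) K} (h : IsWallFun v f) :
    lg (mf 0 v f) = -(C (v 1 : K) * lg f) := by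
  show lg (f⁻¹ ^ v 1) = _
  rw [lg_pow (constantCoeff_inv' h.1), lg_inv' h.1, nsmul_eq_mul, map_natCast]
  ring

theorem lg_mf1 {v : N2} {f : MvPowerSeries (Fin 2) K} (h : IsWallFun v f) :
    lg (mf 1 v f) = C (v 0 : K) * lg f := by
  show lg (f ^ v 0) = _
  rw [lg_pow h.1, nsmul_eq_mul, map_natCast]

theorem det_one {v : N2} {f : MvPowerSeries (Fin 2) K} (h : IsWallFun v f) :
    Mx (cw 0) v f 0 * Mx (cw 1) v f 1 - Mx (cw 1) v f 0 * Mx (cw 0) v f 1 = 1 := by
  have h1 := wall_eul h
  have e1 : cw 0 (Finsupp.single 0 1) = 1 := by rw [cw_apply]; simp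
  have e2 : cw 1 (Finsupp.single 1 1) = 1 := by rw [cw_apply]; simp
  have e3 : cw 1 (Finsupp.single 0 1) = 0 := by rw [cw_apply]; simp
  have e4 : cw 0 (Finsupp.single 1 1) = 0 := by rw [cw_apply]; simp
  unfold Mx
  rw [lg_mf0 h, lg_mf1 h, e1, e2, e3, e4, eul_neg, eul_neg, eul_C_mul, eul_C_mul, eul_C_mul,
    eul_C_mul, Nat.cast_one, Nat.cast_zero, map_one (C (σ := Fin 2) (R := K)),
    map_zero (C (σ := Fin 2) (R := K))]
  linear_combination (-1 : MvPowerSeries (Fin 2) K) * h1

theorem cross_br {v : N2} {f : MvPowerSeries (Fin 2) K} (h : IsWallFun v f)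
    (g k : MvPowerSeries (Fin 2) K) :
    br (cross v f g) (cross v f k) = cross v f (br g k) := by
  have hd := det_one h
  unfold br
  rw [cross_sub, cross_mul, cross_mul, eul_cross _ h, eul_cross _ h, eul_cross _ h, eul_cross _ h]
  linear_combination (cross v f (eul (cw 0) g) * cross v f (eul (cw 1) k) -
    cross v f (eul (cw 1) g) * cross v f (eul (cw 0) k)) * hd

theorem act_br {W : List (N2 × MvPowerSeries (Fin 2) K)} (hW : Walls W)
    (g k : MvPowerSeries (Fin 2) K) : br (act W g) (act W k) = act W (br g k) := by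
  induction W with
  | nil => rfl
  | cons p W ih =>
    rw [act_cons, act_cons, act_cons, cross_br (hW p List.mem_cons_self),
      ih fun q hq => hW q (List.mem_cons_of_mem _ hq)]

theorem br_XX : br (X 0 : MvPowerSeries (Fin 2) K) (X 1) = X 0 * X 1 := by
  have e1 : cw 0 (Finsupp.single 0 1) = 1 := by rw [cw_apply]; simp
  have e2 : cw 1 (Finsupp.single 1 1) = 1 := by rw [cw_apply]; simp
  have e3 : cw 1 (Finsupp.single 0 1) = 0 := by rw [cw_apply]; simp
  unfold br
  rw [eul_X, eul_X, eul_X, e1, e2, e3, Nat.cast_one, Nat.cast_zero, map_one, map_zero]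
  ring

theorem X_cancel {s : Fin 2} {f g : MvPowerSeries (Fin 2) K} (h : X s * f = X s * g) : f = g := by
  ext n
  exact eqd_cancel (N := Finsupp.degree n) (s := s) (f := f) (g := g)
    (fun m _ => by rw [h]) n le_rfl

/-- The Jacobian equation for a product of wall-crossing automorphisms. -/
theorem jac {W : List (N2 × MvPowerSeries (Fin 2) K)} (hW : Walls W)
    {A B : MvPowerSeries (Fin 2) K} (hA : act W (X 0) = X 0 * A) (hB : act W (X 1) = X 1 * B) :
    (A + eul (cw 0) A) * (B + eul (cw 1) B) - eul (cw 1) A * eul (cw 0) B = A * B := by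
  have h := act_br hW (X 0) (X 1)
  rw [br_XX, act_mul, hA, hB] at h
  have e1 : cw 0 (Finsupp.single 0 1) = 1 := by rw [cw_apply]; simp
  have e2 : cw 1 (Finsupp.single 1 1) = 1 := by rw [cw_apply]; simp
  have e3 : cw 1 (Finsupp.single 0 1) = 0 := by rw [cw_apply]; simp
  have e4 : cw 0 (Finsupp.single 1 1) = 0 := by rw [cw_apply]; simp
  unfold br at h
  rw [eul_mul, eul_mul, eul_mul, eul_mul, eul_X, eul_X, eul_X, eul_X, e1, e2, e3, e4,
    Nat.cast_one, Nat.cast_zero, map_one, map_zero] at h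
  apply X_cancel (s := 0)
  apply X_cancel (s := 1)
  linear_combination h

end Pool.Agent.LibScat
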