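import Mathlib

/-!
Logarithms of formal power series in several variables with constant coefficient one, through
Euler derivations.
-/

namespace Pool.Agent.LibScat

open MvPowerSeries Finset

set_option linter.unusedSectionVars false

variable {σ : Type} {R : Type*} [CommRing R]

/-- The derivation multiplying the coefficient of index `n` by `w n`. -/
noncomputable def eul (w : (σ →₀ ℕ) →+ ℕ) (f : MvPowerSeries σ R) : MvPowerSeries σ R :=
  fun n => (w n : R) * coeff n f

theorem coeff_eul (w : (σ →₀ ℕ) →+ ℕ) (f : MvPowerSeries σ R) (n : σ →₀ ℕ) :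
    coeff n (eul w f) = (w n : R) * coeff n f := rfl

theorem eul_mul (w : (σ →₀ ℕ) →+ ℕ) (f g : MvPowerSeries σ R) :
    eul w (f * g) = eul w f * g + f * eul w g := by
  classical
  ext n
  rw [coeff_eul, map_add, coeff_mul, coeff_mul, coeff_mul, Finset.mul_sum, ← Finset.sum_add_distrib]
  refine Finset.sum_congr rfl fun p hp => ?_
  rw [Finset.HasAntidiagonal.mem_antidiagonal] at hp
  rw [coeff_eul, coeff_eul, ← hp, map_add, Nat.cast_add]
  ring

theorem eul_add (w : (σ →₀ ℕ) →+ ℕ) (f g : MvPowerSeries σ R) :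
    eul w (f + g) = eul w f + eul w g := by
  ext n
  rw [coeff_eul, map_add, map_add, coeff_eul, coeff_eul]; ring

theorem eul_neg (w : (σ →₀ ℕ) →+ ℕ) (f : MvPowerSeries σ R) :
    eul w (-f) = -eul w f := by
  ext n
  rw [coeff_eul, map_neg, map_neg, coeff_eul]; ring

theorem eul_sub (w : (σ →₀ ℕ) →+ ℕ) (f g : MvPowerSeries σ R) :
    eul w (f - g) = eul w f - eul w g := by
  rw [sub_eq_add_neg, eul_add, eul_neg, ← sub_eq_add_neg]

theorem eul_zero (w : (σ →₀ ℕ) →+ ℕ) : eul w (0 : MvPowerSeries σ R) = 0 := by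
  ext n
  rw [coeff_eul, map_zero, mul_zero]

theorem eul_one (w : (σ →₀ ℕ) →+ ℕ) : eul w (1 : MvPowerSeries σ R) = 0 := by
  classical
  ext n
  rw [coeff_eul, coeff_one, map_zero]
  split_ifs with h
  · subst h; simp
  · simp

theorem eul_comm (w w' : (σ →₀ ℕ) →+ ℕ) (f : MvPowerSeries σ R) :
    eul w (eul w' f) = eul w' (eul w f) := by
  ext n
  rw [coeff_eul, coeff_eul, coeff_eul, coeff_eul]; ring

theorem eul_pow (w : (σ →₀ ℕ) →+ ℕ) (f : MvPowerSeries σ R) (m : ℕ) :
    eul w (f ^ (m + 1)) = ((m + 1 : ℕ) : MvPowerSeries σ R) * f ^ m * eul w f := by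
  induction m with
  | zero => simp
  | succ m ih =>
    rw [pow_succ f (m + 1), eul_mul, ih]
    push_cast
    ring

/-- The inverse of a power series with constant coefficient one. -/
noncomputable def inv1 (f : MvPowerSeries σ R) : MvPowerSeries σ R := invOfUnit f 1

theorem mul_inv1 {f : MvPowerSeries σ R} (hf : constantCoeff f = 1) : f * inv1 f = 1 :=
  mul_invOfUnit f 1 hf

theorem inv1_mul {f : MvPowerSeries σ R} (hf : constantCoeff f = 1) : inv1 f * f = 1 := by
  rw [mul_comm]; exact mul_inv1 hf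

theorem constantCoeff_inv1 (f : MvPowerSeries σ R) :
    constantCoeff (inv1 f) = 1 := by
  unfold inv1
  rw [constantCoeff_invOfUnit]
  simp

theorem inv1_unique {f g : MvPowerSeries σ R} (hf : constantCoeff f = 1) (h : f * g = 1) :
    g = inv1 f := by
  calc g = inv1 f * f * g := by rw [inv1_mul hf, one_mul]
    _ = inv1 f * (f * g) := by ring
    _ = inv1 f := by rw [h, mul_one]

theorem inv1_mul_inv1 {f g : MvPowerSeries σ R} (hf : constantCoeff f = 1)
    (hg : constantCoeff g = 1) : inv1 (f * g) = inv1 f * inv1 g := by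
  symm
  apply inv1_unique
  · rw [map_mul, hf, hg, one_mul]
  · calc f * g * (inv1 f * inv1 g) = (f * inv1 f) * (g * inv1 g) := by ring
      _ = 1 := by rw [mul_inv1 hf, mul_inv1 hg, one_mul]

theorem inv1_one : inv1 (1 : MvPowerSeries σ R) = 1 := by
  symm
  apply inv1_unique
  · simp
  · simp

theorem inv1_inv1 {f : MvPowerSeries σ R} (hf : constantCoeff f = 1) : inv1 (inv1 f) = f := by
  symm
  apply inv1_unique (constantCoeff_inv1 f)
  exact inv1_mul hf

theorem eul_inv1 (w : (σ →₀ ℕ) →+ ℕ) {f : MvPowerSeries σ R} (hf : constantCoeff f = 1) :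
    eul w (inv1 f) = -(inv1 f * inv1 f * eul w f) := by
  have h : eul w (f * inv1 f) = 0 := by rw [mul_inv1 hf, eul_one]
  rw [eul_mul] at h
  have h2 : f * eul w (inv1 f) = -(eul w f * inv1 f) := by
    rw [eq_neg_iff_add_eq_zero, add_comm]; exact h
  calc eul w (inv1 f) = inv1 f * f * eul w (inv1 f) := by rw [inv1_mul hf, one_mul]
    _ = inv1 f * (f * eul w (inv1 f)) := by ring
    _ = -(inv1 f * inv1 f * eul w f) := by rw [h2]; ring

variable [Algebra ℚ R]

/-- The logarithm of a power series with constant coefficient one. -/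
noncomputable def lg (f : MvPowerSeries σ R) : MvPowerSeries σ R :=
  fun n => (((Finsupp.degree n : ℕ) : ℚ)⁻¹) • coeff n (inv1 f * eul Finsupp.degree f)

theorem coeff_lg (f : MvPowerSeries σ R) (n : σ →₀ ℕ) :
    coeff n (lg f) = (((Finsupp.degree n : ℕ) : ℚ)⁻¹) • coeff n (inv1 f * eul Finsupp.degree f) := rfl

theorem cast_mul_smul {m : ℕ} (hm : m ≠ 0) (x : R) : (m : R) * ((m : ℚ)⁻¹ • x) = x := by
  have h : (m : R) = algebraMap ℚ R (m : ℚ) := by simp
  rw [h, ← Algebra.smul_def, smul_smul, mul_inv_cancel₀ (by exact_mod_cast hm), one_smul]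

theorem cast_inj {m : ℕ} (hm : m ≠ 0) {x y : R} (h : (m : R) * x = (m : R) * y) : x = y := by
  have h1 : (m : R) = algebraMap ℚ R (m : ℚ) := by simp
  rw [h1, ← Algebra.smul_def, ← Algebra.smul_def] at h
  have h2 := congrArg (fun z => ((m : ℚ)⁻¹) • z) h
  simp only [smul_smul] at h2
  rw [inv_mul_cancel₀ (by exact_mod_cast hm), one_smul, one_smul] at h2
  exact h2

theorem coeff_zero_eul (w : (σ →₀ ℕ) →+ ℕ) (f : MvPowerSeries σ R) : coeff 0 (eul w f) = 0 := by
  rw [coeff_eul, map_zero, Nat.cast_zero, zero_mul]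

theorem coeff_zero_lg (f : MvPowerSeries σ R) : coeff 0 (lg f) = 0 := by
  rw [coeff_lg]
  have : coeff 0 (inv1 f * eul Finsupp.degree f) = 0 := by
    rw [coeff_zero_eq_constantCoeff_apply, map_mul, ← coeff_zero_eq_constantCoeff_apply,
      ← coeff_zero_eq_constantCoeff_apply, coeff_zero_eul, mul_zero]
  rw [this, smul_zero]

theorem eul_deg_lg (f : MvPowerSeries σ R) :
    eul Finsupp.degree (lg f) = inv1 f * eul Finsupp.degree f := by
  ext n
  rw [coeff_eul]
  by_cases h : Finsupp.degree n = 0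
  · rw [h, Nat.cast_zero, zero_mul]
    have hn : n = 0 := (Finsupp.degree_eq_zero_iff n).1 h
    subst hn
    rw [coeff_zero_eq_constantCoeff_apply, map_mul, ← coeff_zero_eq_constantCoeff_apply,
      ← coeff_zero_eq_constantCoeff_apply, coeff_zero_eul, mul_zero]
  · rw [coeff_lg, cast_mul_smul h]

theorem eq_of_eul_deg {a b : MvPowerSeries σ R} (h0 : coeff 0 a = coeff 0 b)
    (h : eul Finsupp.degree a = eul Finsupp.degree b) : a = b := by
  ext n
  by_cases hn : Finsupp.degree n = 0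
  · have hn : n = 0 := (Finsupp.degree_eq_zero_iff n).1 hn
    subst hn; exact h0
  · have := congrArg (coeff n) h
    rw [coeff_eul, coeff_eul] at this
    exact cast_inj hn this

theorem lg_mul {f g : MvPowerSeries σ R} (hf : constantCoeff f = 1)
    (hg : constantCoeff g = 1) : lg (f * g) = lg f + lg g := by
  apply eq_of_eul_deg
  · rw [map_add, coeff_zero_lg, coeff_zero_lg, coeff_zero_lg, add_zero]
  · rw [eul_add, eul_deg_lg, eul_deg_lg, eul_deg_lg, inv1_mul_inv1 hf hg, eul_mul]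
    have h1 := mul_inv1 hf
    have h2 := mul_inv1 hg
    linear_combination (inv1 f * eul Finsupp.degree f) * h2 + (inv1 g * eul Finsupp.degree g) * h1

theorem lg_one : lg (1 : MvPowerSeries σ R) = 0 := by
  apply eq_of_eul_deg
  · rw [coeff_zero_lg, map_zero]
  · rw [eul_deg_lg, eul_one, mul_zero, eul_zero]

theorem lg_inv1 {f : MvPowerSeries σ R} (hf : constantCoeff f = 1) : lg (inv1 f) = -lg f := by
  have h := lg_mul hf (constantCoeff_inv1 f)
  rw [mul_inv1 hf, lg_one] at h
  rw [eq_neg_iff_add_eq_zero, add_comm]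
  exact h.symm

theorem constantCoeff_pow1 {f : MvPowerSeries σ R} (hf : constantCoeff f = 1) (m : ℕ) :
    constantCoeff (f ^ m) = 1 := by
  rw [map_pow, hf, one_pow]

theorem lg_pow {f : MvPowerSeries σ R} (hf : constantCoeff f = 1) (m : ℕ) :
    lg (f ^ m) = m • lg f := by
  induction m with
  | zero => rw [pow_zero, lg_one, zero_smul]
  | succ m ih =>
    rw [pow_succ, lg_mul (constantCoeff_pow1 hf m) hf, ih, add_smul, one_smul]

theorem eul_lg (w : (σ →₀ ℕ) →+ ℕ) {f : MvPowerSeries σ R} (hf : constantCoeff f = 1) :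
    eul w (lg f) = inv1 f * eul w f := by
  apply eq_of_eul_deg
  · rw [coeff_zero_eul, coeff_zero_eq_constantCoeff_apply, map_mul,
      ← coeff_zero_eq_constantCoeff_apply, ← coeff_zero_eq_constantCoeff_apply, coeff_zero_eul,
      mul_zero]
  · rw [eul_comm, eul_deg_lg, eul_mul, eul_mul, eul_inv1 w hf, eul_inv1 _ hf,
      eul_comm w Finsupp.degree]
    ring

theorem eul_lg_mul (w : (σ →₀ ℕ) →+ ℕ) {f : MvPowerSeries σ R} (hf : constantCoeff f = 1) :
    eul w (lg f) * f = eul w f := by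
  rw [eul_lg w hf]
  calc inv1 f * eul w f * f = (inv1 f * f) * eul w f := by ring
    _ = eul w f := by rw [inv1_mul hf, one_mul]

/-! ### Supports -/

/-- The support lies in a set. -/
def Sup (S : Set (σ →₀ ℕ)) (f : MvPowerSeries σ R) : Prop := ∀ n, coeff n f ≠ 0 → n ∈ S

omit [Algebra ℚ R] in
theorem Sup.mul {S T U : Set (σ →₀ ℕ)} (hU : ∀ a ∈ S, ∀ b ∈ T, a + b ∈ U)
    {f g : MvPowerSeries σ R} (hf : Sup S f) (hg : Sup T g) : Sup U (f * g) := by
  classical
  intro n hn
  rw [coeff_mul] at hn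
  obtain ⟨p, hp, hne⟩ := Finset.exists_ne_zero_of_sum_ne_zero hn
  rw [Finset.HasAntidiagonal.mem_antidiagonal] at hp
  rw [← hp]
  exact hU _ (hf _ (left_ne_zero_of_mul hne)) _ (hg _ (right_ne_zero_of_mul hne))

omit [Algebra ℚ R] in
theorem Sup.eul {S : Set (σ →₀ ℕ)} {f : MvPowerSeries σ R} (hf : Sup S f)
    (w : (σ →₀ ℕ) →+ ℕ) : Sup S (eul w f) := by
  intro n hn
  rw [coeff_eul] at hn
  exact hf n (right_ne_zero_of_mul hn)

omit [Algebra ℚ R] in
theorem Sup.one (S : AddSubmonoid (σ →₀ ℕ)) : Sup (S : Set (σ →₀ ℕ)) (1 : MvPowerSeries σ R) := by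
  classical
  intro n hn
  rw [coeff_one] at hn
  by_cases h : n = 0
  · subst h; exact S.zero_mem
  · rw [if_neg h] at hn; exact absurd rfl hn

omit [Algebra ℚ R] in
theorem Sup.mul' {S : AddSubmonoid (σ →₀ ℕ)} {f g : MvPowerSeries σ R}
    (hf : Sup (S : Set (σ →₀ ℕ)) f) (hg : Sup (S : Set (σ →₀ ℕ)) g) :
    Sup (S : Set (σ →₀ ℕ)) (f * g) :=
  Sup.mul (fun _ ha _ hb => S.add_mem ha hb) hf hg

omit [Algebra ℚ R] in
theorem Sup.pow' {S : AddSubmonoid (σ →₀ ℕ)} {f : MvPowerSeries σ R}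
    (hf : Sup (S : Set (σ →₀ ℕ)) f) (m : ℕ) : Sup (S : Set (σ →₀ ℕ)) (f ^ m) := by
  induction m with
  | zero => rw [pow_zero]; exact Sup.one S
  | succ m ih => rw [pow_succ]; exact Sup.mul' ih hf

omit [Algebra ℚ R] in
/-- The coefficients of the inverse. -/
theorem coeff_inv1_eq [DecidableEq σ] {f : MvPowerSeries σ R} (hf : constantCoeff f = 1)
    {n : σ →₀ ℕ} (hn : n ≠ 0) :
    coeff n (inv1 f) = -∑ p ∈ (antidiagonal n).erase (0, n), coeff p.1 f * coeff p.2 (inv1 f) := by
  have h := congrArg (coeff n) (mul_inv1 hf)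
  rw [coeff_mul, coeff_one, if_neg hn,
    ← Finset.add_sum_erase _ _ (show ((0 : σ →₀ ℕ), n) ∈ antidiagonal n by simp)] at h
  simp only [coeff_zero_eq_constantCoeff_apply, hf, one_mul] at h
  rw [eq_neg_iff_add_eq_zero]
  exact h

omit [Algebra ℚ R] in
theorem Sup.inv1 {S : AddSubmonoid (σ →₀ ℕ)} {f : MvPowerSeries σ R}
    (hf1 : constantCoeff f = 1) (hf : Sup (S : Set (σ →₀ ℕ)) f) :
    Sup (S : Set (σ →₀ ℕ)) (inv1 f) := by
  classical
  have key : ∀ (d : ℕ) (n : σ →₀ ℕ), Finsupp.degree n ≤ d →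
      coeff n (LibScat.inv1 f) ≠ 0 → n ∈ S := by
    intro d
    induction d with
    | zero =>
      intro n hn _
      have : n = 0 := (Finsupp.degree_eq_zero_iff n).1 (by omega)
      rw [this]; exact S.zero_mem
    | succ d ih =>
      intro n hn hne
      by_cases h0 : n = 0
      · rw [h0]; exact S.zero_mem
      · rw [coeff_inv1_eq hf1 h0] at hne
        obtain ⟨p, hp, hne'⟩ := Finset.exists_ne_zero_of_sum_ne_zero (neg_ne_zero.1 hne)
        rw [Finset.mem_erase, Finset.HasAntidiagonal.mem_antidiagonal] at hp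
        obtain ⟨hp1, hp2⟩ := hp
        have h1 := hf _ (left_ne_zero_of_mul hne')
        have hdeg : Finsupp.degree p.2 ≤ d := by
          have h2 : Finsupp.degree p.1 + Finsupp.degree p.2 = Finsupp.degree n := by
            rw [← map_add, hp2]
          have h3 : Finsupp.degree p.1 ≠ 0 := by
            intro h3
            have h4 := (Finsupp.degree_eq_zero_iff p.1).1 h3
            apply hp1
            rw [h4, zero_add] at hp2
            exact Prod.ext h4 hp2
          omega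
        rw [← hp2]
        exact S.add_mem h1 (ih _ hdeg (right_ne_zero_of_mul hne'))
  intro n hn
  exact key _ n le_rfl hn

theorem Sup.lg {S : AddSubmonoid (σ →₀ ℕ)} {f : MvPowerSeries σ R}
    (hf1 : constantCoeff f = 1) (hf : Sup (S : Set (σ →₀ ℕ)) f) :
    Sup (S : Set (σ →₀ ℕ)) (lg f) := by
  intro n hn
  rw [coeff_lg] at hn
  have h : coeff n (LibScat.inv1 f * LibScat.eul Finsupp.degree f) ≠ 0 := by
    intro h; rw [h, smul_zero] at hn; exact hn rfl
  exact Sup.mul' (Sup.inv1 hf1 hf) (hf.eul _) n h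

/-! ### Congruences -/

/-- Equality of the coefficients of degree at most `N`. -/
def Eqd (N : ℕ) (f g : MvPowerSeries σ R) : Prop :=
  ∀ n, Finsupp.degree n ≤ N → coeff n f = coeff n g

omit [Algebra ℚ R] in
theorem Eqd.refl (N : ℕ) (f : MvPowerSeries σ R) : Eqd N f f := fun _ _ => rfl

omit [Algebra ℚ R] in
theorem Eqd.symm {N : ℕ} {f g : MvPowerSeries σ R} (h : Eqd N f g) : Eqd N g f :=
  fun n hn => (h n hn).symm

omit [Algebra ℚ R] in
theorem Eqd.trans {N : ℕ} {f g k : MvPowerSeries σ R} (h : Eqd N f g) (h' : Eqd N g k) :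
    Eqd N f k := fun n hn => (h n hn).trans (h' n hn)

omit [Algebra ℚ R] in
theorem Eqd.mono {N M : ℕ} (hM : M ≤ N) {f g : MvPowerSeries σ R} (h : Eqd N f g) :
    Eqd M f g := fun n hn => h n (hn.trans hM)

omit [Algebra ℚ R] in
theorem Eqd.add {N : ℕ} {f g f' g' : MvPowerSeries σ R} (h : Eqd N f g) (h' : Eqd N f' g') :
    Eqd N (f + f') (g + g') := fun n hn => by rw [map_add, map_add, h n hn, h' n hn]

omit [Algebra ℚ R] in
theorem degree_le_of_antidiagonal [DecidableEq σ] {n : σ →₀ ℕ} {p : (σ →₀ ℕ) × (σ →₀ ℕ)}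
    (hp : p ∈ antidiagonal n) :
    Finsupp.degree p.1 + Finsupp.degree p.2 = Finsupp.degree n := by
  rw [Finset.HasAntidiagonal.mem_antidiagonal] at hp
  rw [← map_add, hp]

omit [Algebra ℚ R] in
theorem Eqd.mul {N : ℕ} {f g f' g' : MvPowerSeries σ R} (h : Eqd N f g) (h' : Eqd N f' g') :
    Eqd N (f * f') (g * g') := by
  classical
  intro n hn
  rw [coeff_mul, coeff_mul]
  refine Finset.sum_congr rfl fun p hp => ?_
  have := degree_le_of_antidiagonal hp
  rw [h _ (by omega), h' _ (by omega)]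

omit [Algebra ℚ R] in
theorem Eqd.pow {N : ℕ} {f g : MvPowerSeries σ R} (h : Eqd N f g) (m : ℕ) :
    Eqd N (f ^ m) (g ^ m) := by
  induction m with
  | zero => rw [pow_zero, pow_zero]; exact Eqd.refl N 1
  | succ m ih => rw [pow_succ, pow_succ]; exact ih.mul h

omit [Algebra ℚ R] in
theorem Eqd.eul {N : ℕ} {f g : MvPowerSeries σ R} (h : Eqd N f g) (w : (σ →₀ ℕ) →+ ℕ) :
    Eqd N (eul w f) (eul w g) := fun n hn => by rw [coeff_eul, coeff_eul, h n hn]

omit [Algebra ℚ R] in
theorem Eqd.inv1 {N : ℕ} {f g : MvPowerSeries σ R} (hf : constantCoeff f = 1)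
    (hg : constantCoeff g = 1) (h : Eqd N f g) : Eqd N (inv1 f) (inv1 g) := by
  have h1 : Eqd N (LibScat.inv1 f * (g * LibScat.inv1 g))
      (LibScat.inv1 f * (f * LibScat.inv1 g)) :=
    (Eqd.refl N _).mul (h.symm.mul (Eqd.refl N _))
  rw [mul_inv1 hg, mul_one, ← mul_assoc, inv1_mul hf, one_mul] at h1
  exact h1

theorem Eqd.lg {N : ℕ} {f g : MvPowerSeries σ R} (hf : constantCoeff f = 1)
    (hg : constantCoeff g = 1) (h : Eqd N f g) : Eqd N (lg f) (lg g) := by
  intro n hn
  rw [coeff_lg, coeff_lg, (h.inv1 hf hg).mul (h.eul Finsupp.degree) n hn]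

/-! ### Change of coefficients -/

section map

variable {R' : Type*} [CommRing R'] [Algebra ℚ R']

omit [Algebra ℚ R] [Algebra ℚ R'] in
theorem map_eul (φ : R →+* R') (w : (σ →₀ ℕ) →+ ℕ) (f : MvPowerSeries σ R) :
    MvPowerSeries.map φ (eul w f) = eul w (MvPowerSeries.map φ f) := by
  ext n
  rw [coeff_map, coeff_eul, coeff_eul, coeff_map, map_mul, map_natCast]

omit [Algebra ℚ R] [Algebra ℚ R'] in
theorem map_inv1 (φ : R →+* R') {f : MvPowerSeries σ R} (hf : constantCoeff f = 1) :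
    MvPowerSeries.map φ (inv1 f) = inv1 (MvPowerSeries.map φ f) := by
  apply inv1_unique
  · rw [constantCoeff_map, hf, map_one]
  · rw [← map_mul, mul_inv1 hf, map_one]

theorem map_lg (φ : R →+* R') {f : MvPowerSeries σ R} (hf : constantCoeff f = 1) :
    MvPowerSeries.map φ (lg f) = lg (MvPowerSeries.map φ f) := by
  apply eq_of_eul_deg
  · rw [coeff_zero_lg, coeff_map, coeff_zero_lg, map_zero]
  · rw [← map_eul, eul_deg_lg, eul_deg_lg, map_mul, map_inv1 φ hf, map_eul]

end map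

end Pool.Agent.LibScat
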