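import Pool.Agent.LibScat.Dense

/-!
The polynomials expressing the coefficients of the wall-functions.
-/

namespace Pool.Agent.LibScat

open Finset
open scoped Nat

variable {K : Type*} [Field K] [CharZero K]

theorem aeval_cast (T : MvPolynomial (Fin 3) ℚ) (b c g : ℕ) :
    MvPolynomial.aeval ![(b : K), (c : K), (g : K)] T =
      algebraMap ℚ K (MvPolynomial.eval ![(b : ℚ), (c : ℚ), (g : ℚ)] T) := by
  have h := MvPolynomial.aeval_algebraMap_apply (A := ℚ) K ![(b : ℚ), (c : ℚ), (g : ℚ)] T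
  rw [← MvPolynomial.coe_aeval_eq_eval, RingHom.coe_coe, ← h]
  congr 1
  congr 1
  funext i
  fin_cases i <;> simp

theorem tau_int {F : ℕ → ℕ → N2 → MvPowerSeries (Fin 2) K}
    (hF : ∀ b c, 0 < b → 0 < c → IsDiagram b c (F b c)) {i j : ℕ} (hi : 0 < i) (hj : 0 < j) :
    ∃ T : MvPolynomial (Fin 3) ℤ, ∀ b c : ℕ, 0 < b → 0 < c →
      ((max i j)! : K) * tau (F b c) b c i j =
        MvPolynomial.eval₂Hom (Int.castRingHom K)
          ![(b : K), (c : K), ((Nat.gcd (i * b) (j * c) / Nat.gcd i j : ℕ) : K)] T := by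
  obtain ⟨d, e, hde, hid, hje⟩ : ∃ d e : ℕ, Nat.Coprime d e ∧ i = Nat.gcd i j * d ∧
      j = Nat.gcd i j * e := by
    refine ⟨i / Nat.gcd i j, j / Nat.gcd i j,
      Nat.coprime_div_gcd_div_gcd (Nat.gcd_pos_of_pos_left _ hi),
      (Nat.mul_div_cancel' (Nat.gcd_dvd_left _ _)).symm,
      (Nat.mul_div_cancel' (Nat.gcd_dvd_right _ _)).symm⟩
  set k := Nat.gcd i j with hk
  have hk0 : 0 < k := Nat.gcd_pos_of_pos_left _ hi
  have hd : 0 < d := by
    rcases Nat.eq_zero_or_pos d with h | h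
    · rw [h, mul_zero] at hid; omega
    · exact h
  have he : 0 < e := by
    rcases Nat.eq_zero_or_pos e with h | h
    · rw [h, mul_zero] at hje; omega
    · exact h
  have hu : Prim (vec d e) := ⟨by rw [vec_zero]; exact hd, by rw [vec_one]; exact he,
    by rw [vec_zero, vec_one]; exact hde⟩
  obtain ⟨T, hT⟩ := exists_T hF hu k
  refine ⟨T, ?_⟩
  intro b c hb hc
  set g := Nat.gcd (b * d) (c * e) with hg
  have hg0 : 0 < g := Nat.gcd_pos_of_pos_left _ (Nat.mul_pos hb hd)
  have hgg : Nat.gcd (i * b) (j * c) = k * g := by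
    rw [hid, hje, hg, ← Nat.gcd_mul_left]
    congr 1 <;> ring
  have hgk : Nat.gcd (i * b) (j * c) / k = g := by
    rw [hgg]; exact Nat.mul_div_cancel_left _ hk0
  have hv0 : i * b / Nat.gcd (i * b) (j * c) = b * d / g := by
    have : i * b = k * (b * d) := by rw [hid]; ring
    rw [hgg, this, Nat.mul_div_mul_left _ _ hk0]
  have hv1 : j * c / Nat.gcd (i * b) (j * c) = c * e / g := by
    have : j * c = k * (c * e) := by rw [hje]; ring
    rw [hgg, this, Nat.mul_div_mul_left _ _ hk0]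
  have hv : Prim (vec (b * d / g) (c * e / g)) := by
    refine ⟨?_, ?_, ?_⟩
    · rw [vec_zero]; exact Nat.div_pos (Nat.gcd_le_left _ (Nat.mul_pos hb hd)) hg0
    · rw [vec_one]; exact Nat.div_pos (Nat.gcd_le_right _ (Nat.mul_pos hc he)) hg0
    · rw [vec_zero, vec_one]; exact Nat.coprime_div_gcd_div_gcd hg0
  have hgv : g • vec (b * d / g) (c * e / g) = scl ![b, c] (vec d e) := by
    ext a
    rw [scl_apply]
    fin_cases a
    · show g * vec (b * d / g) (c * e / g) 0 = b * vec d e 0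
      rw [vec_zero, vec_zero]; exact Nat.mul_div_cancel' (Nat.gcd_dvd_left _ _)
    · show g * vec (b * d / g) (c * e / g) 1 = c * vec d e 1
      rw [vec_one, vec_one]; exact Nat.mul_div_cancel' (Nat.gcd_dvd_right _ _)
  have hkv : k • scl ![b, c] (vec d e) = vec (i * b) (j * c) := by
    ext a
    show k * scl ![b, c] (vec d e) a = _
    rw [scl_apply]
    fin_cases a
    · show k * (b * vec d e 0) = vec (i * b) (j * c) 0
      rw [vec_zero, vec_zero, hid]; ring
    · show k * (c * vec d e 1) = vec (i * b) (j * c) 1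
      rw [vec_one, vec_one, hje]; ring
  have h := hT b c hb hc g _ hg0 hv hgv
  rw [hkv, vec_zero, vec_one] at h
  have hmax : k * max d e = max i j := by
    conv_rhs => rw [hid, hje]
    exact (Nat.mul_max_mul_left k d e).symm
  rw [hmax] at h
  rw [hgk]
  unfold tau
  rw [hv0, hv1]
  exact h

theorem aeval_map_int (P : MvPolynomial (Fin 3) ℤ) (x : Fin 3 → K) :
    MvPolynomial.aeval x (MvPolynomial.map (Int.castRingHom ℚ) P) =
      MvPolynomial.eval₂Hom (Int.castRingHom K) x P := by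
  rw [MvPolynomial.aeval_def, MvPolynomial.eval₂_map, MvPolynomial.coe_eval₂Hom]
  congr 1
  exact RingHom.ext_int _ _

theorem expresses_unique {F : ℕ → ℕ → N2 → MvPowerSeries (Fin 2) K} {i j : ℕ} (hi : 0 < i)
    (hj : 0 < j) {T T' : MvPolynomial (Fin 3) ℚ} (h : Expresses F i j T)
    (h' : Expresses F i j T') : T = T' := by
  have hk0 : 0 < Nat.gcd i j := Nat.gcd_pos_of_pos_left _ hi
  have hd : 0 < i / Nat.gcd i j := Nat.div_pos (Nat.gcd_le_left _ hi) hk0
  have he : 0 < j / Nat.gcd i j := Nat.div_pos (Nat.gcd_le_right _ hj) hk0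
  rw [← sub_eq_zero]
  apply dense hd he (Nat.coprime_div_gcd_div_gcd hk0)
  intro b c hb hc
  have hgcd : Nat.gcd (i / Nat.gcd i j * b) (j / Nat.gcd i j * c) =
      Nat.gcd (i * b) (j * c) / Nat.gcd i j := by
    have h1 : Nat.gcd (i * b) (j * c) =
        Nat.gcd i j * Nat.gcd (i / Nat.gcd i j * b) (j / Nat.gcd i j * c) := by
      rw [← Nat.gcd_mul_left, ← mul_assoc, ← mul_assoc,
        Nat.mul_div_cancel' (Nat.gcd_dvd_left i j), Nat.mul_div_cancel' (Nat.gcd_dvd_right i j)]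
    rw [h1, Nat.mul_div_cancel_left _ hk0]
  rw [hgcd]
  have h1 := (h b c hb hc).symm.trans (h' b c hb hc)
  rw [aeval_cast, aeval_cast] at h1
  have h2 := (algebraMap ℚ K).injective h1
  rw [map_sub, h2, sub_self]

theorem main_int {F : ℕ → ℕ → N2 → MvPowerSeries (Fin 2) K}
    (hF : ∀ b c, 0 < b → 0 < c → IsDiagram b c (F b c)) {i j : ℕ} (hi : 0 < i) (hj : 0 < j) :
    (∃! T : MvPolynomial (Fin 3) ℚ, Expresses F i j T) ∧
    ∀ T : MvPolynomial (Fin 3) ℚ, Expresses F i j T →
      ∃ P : MvPolynomial (Fin 3) ℤ,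
        MvPolynomial.C ((max i j)! : ℚ) * T = MvPolynomial.map (Int.castRingHom ℚ) P := by
  obtain ⟨P, hP⟩ := tau_int hF hi hj
  have hfQ : ((max i j)! : ℚ) ≠ 0 := by exact_mod_cast (Nat.factorial_ne_zero _)
  have hfK : ((max i j)! : K) ≠ 0 := by exact_mod_cast (Nat.factorial_ne_zero _)
  set T0 : MvPolynomial (Fin 3) ℚ := MvPolynomial.C (1 / ((max i j)! : ℚ)) *
    MvPolynomial.map (Int.castRingHom ℚ) P with hT0
  have h0 : Expresses F i j T0 := by
    intro b c hb hc
    have h := hP b c hb hc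
    apply mul_left_cancel₀ hfK
    rw [h, hT0, map_mul, MvPolynomial.aeval_C, aeval_map_int, map_div₀, map_one, map_natCast,
      ← mul_assoc, mul_one_div_cancel hfK, one_mul]
  refine ⟨⟨T0, h0, fun T hT => expresses_unique hi hj hT h0⟩, ?_⟩
  intro T hT
  refine ⟨P, ?_⟩
  rw [expresses_unique hi hj hT h0, hT0, ← mul_assoc, ← map_mul, mul_one_div_cancel hfQ, map_one,
    one_mul]

end Pool.Agent.LibScat
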