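import Pool.Agent.LibScat.Ray

/-!
From the logarithm of the wall-function to its coefficients.
-/

namespace Pool.Agent.LibScat

open MvPowerSeries Finset
open scoped Nat

set_option linter.unusedSectionVars false

variable {K : Type*} [Field K] [CharZero K]

theorem vec_zero (p q : ℕ) : vec p q 0 = p := by unfold vec; simp

theorem vec_one (p q : ℕ) : vec p q 1 = q := by unfold vec; simp

/-- The support of the logarithm of the wall-function. -/
theorem ray_sup {b c : ℕ} (hb : 0 < b) (hc : 0 < c) {f : N2 → MvPowerSeries (Fin 2) K}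
    (hf : IsDiagram b c f) {v u : N2} (hv : Prim v) (hu : Prim u) {g : ℕ} (hg0 : 0 < g)
    (hg : g • v = scl ![b, c] u) : Sup (mults (scl ![b, c] u) : Set N2) (lg (f v)) := by
  intro n hn
  have hw := hf.wall v hv
  obtain ⟨m, hm⟩ := (AddSubmonoid.mem_multiples_iff _ _).1
    (Sup.lg hw.1 (IsWallFun.sup hw) n hn)
  have hβ : ∀ i : Fin 2, 0 < ![b, c] i := by
    intro i; fin_cases i
    · exact hb
    · exact hc
  obtain ⟨U, V, R⟩ := exists_rel hb hc hf hv (show (0 : Fin 2) ≠ 1 by decide)
    (Finsupp.degree n)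
  have h1 := R.ray m (by rw [hm])
  rw [hm] at h1
  have hv0 : (v 0 : K) ≠ 0 := by
    have := hv.1
    exact_mod_cast this.ne'
  have h2 : coeff n (lg (1 + (X 0 * V) ^ ![b, c] 0)) ≠ 0 := by
    rw [← h1]; exact mul_ne_zero hv0 hn
  have h3 : n ∈ lam ![b, c] :=
    ((supd_Xpow (hβ 0) (supd_rel hβ R).2).lg (const_one_add_pow (hβ 0) V)) n (by omega) h2
  obtain ⟨w, hw'⟩ := (mem_lam_iff _ _).1 h3
  have e1 : ∀ i, m * v i = ![b, c] i * w i := by
    intro i
    have := congrArg (fun z : N2 => z i) (hm.trans hw')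
    simp only [scl_apply] at this
    exact this
  have e2 : ∀ i, g * v i = ![b, c] i * u i := by
    intro i
    have := congrArg (fun z : N2 => z i) hg
    simp only [scl_apply] at this
    exact this
  have h4 : w 0 * u 1 = w 1 * u 0 := by
    have h5 : (![b, c] 0 * ![b, c] 1) * (w 0 * u 1) = (![b, c] 0 * ![b, c] 1) * (w 1 * u 0) := by
      calc _ = (![b, c] 0 * w 0) * (![b, c] 1 * u 1) := by ring
        _ = (![b, c] 1 * w 1) * (![b, c] 0 * u 0) := by
          rw [← e1, ← e1, ← e2, ← e2]; ring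
        _ = _ := by ring
    exact Nat.eq_of_mul_eq_mul_left (Nat.mul_pos (hβ 0) (hβ 1)) h5
  have h6 : u 0 ∣ w 0 := by
    have h7 : u 0 ∣ w 0 * u 1 := by rw [h4]; exact dvd_mul_left _ _
    exact Nat.Coprime.dvd_of_dvd_mul_right hu.2.2 h7
  obtain ⟨k, hk⟩ := h6
  have h8 : w 1 = k * u 1 := by
    rw [hk] at h4
    have h9 : u 0 * (w 1) = u 0 * (k * u 1) := by
      rw [← mul_assoc, h4]; ring
    exact Nat.eq_of_mul_eq_mul_left hu.1 h9
  refine (AddSubmonoid.mem_multiples_iff _ _).2 ⟨k, ?_⟩
  rw [hw']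
  ext i
  show k * scl ![b, c] u i = _
  rw [scl_apply, scl_apply]
  have h10 : w i = k * u i := by
    fin_cases i
    · show w 0 = k * u 0
      rw [hk]; ring
    · exact h8
  rw [h10]; ring

theorem coeff_mul_ray {a : N2} (ha : a ≠ 0) {A B : MvPowerSeries (Fin 2) K}
    (hA : Sup (mults a : Set N2) A) (k : ℕ) :
    coeff (k • a) (A * B) =
      ∑ p ∈ antidiagonal k, coeff (p.1 • a) A * coeff (p.2 • a) B := by
  obtain ⟨i, hi⟩ : ∃ i, a i ≠ 0 := by
    by_contra h
    push Not at h
    exact ha (Finsupp.ext h)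
  have hinj : ∀ p q : ℕ, p • a = q • a → p = q := by
    intro p q h
    have h1 : p * a i = q * a i := congrArg (fun z : N2 => z i) h
    exact Nat.eq_of_mul_eq_mul_right (by omega) h1
  rw [coeff_mul]
  symm
  have h1 : ∑ p ∈ antidiagonal k, coeff (p.1 • a) A * coeff (p.2 • a) B =
      ∑ p ∈ (antidiagonal k).map ⟨fun p : ℕ × ℕ => (p.1 • a, p.2 • a), by
        intro p q hpq
        simp only [Prod.mk.injEq] at hpq
        exact Prod.ext (hinj _ _ hpq.1) (hinj _ _ hpq.2)⟩, coeff p.1 A * coeff p.2 B := by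
    rw [Finset.sum_map]; rfl
  rw [h1]
  apply Finset.sum_subset
  · intro p hp
    rw [Finset.mem_map] at hp
    obtain ⟨q, hq, rfl⟩ := hp
    rw [Finset.HasAntidiagonal.mem_antidiagonal] at hq ⊢
    show q.1 • a + q.2 • a = k • a
    rw [← add_smul, hq]
  · intro p hp hpn
    rw [Finset.HasAntidiagonal.mem_antidiagonal] at hp
    by_contra hne
    obtain ⟨m, hm⟩ := (AddSubmonoid.mem_multiples_iff _ _).1
      (hA p.1 (left_ne_zero_of_mul hne))
    have hle : m ≤ k := by
      have h2 : p.1 i + p.2 i = k * a i := congrArg (fun z : N2 => z i) hp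
      have h3 : m * a i = p.1 i := congrArg (fun z : N2 => z i) hm
      have h4 : m * a i ≤ k * a i := by omega
      exact Nat.le_of_mul_le_mul_right h4 (by omega)
    apply hpn
    rw [Finset.mem_map]
    refine ⟨(m, k - m), ?_, ?_⟩
    · rw [Finset.HasAntidiagonal.mem_antidiagonal]
      show m + (k - m) = k
      omega
    · show (m • a, (k - m) • a) = p
      refine Prod.ext hm ?_
      show (k - m) • a = p.2
      have h5 : p.1 + (k - m) • a = p.1 + p.2 := by
        rw [hp, ← hm, ← add_smul]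
        congr 1
        omega
      exact add_left_cancel h5

/-- The recursion for the coefficients of a series from those of its logarithm. -/
theorem tau_rec {a : N2} (ha : a ≠ 0) {f : MvPowerSeries (Fin 2) K}
    (hf1 : constantCoeff f = 1) (hL : Sup (mults a : Set N2) (lg f)) (k : ℕ) :
    (k : K) * coeff (k • a) f =
      ∑ p ∈ antidiagonal k, (p.1 : K) * coeff (p.1 • a) (lg f) * coeff (p.2 • a) f := by
  have h := congrArg (coeff (k • a)) (eul_lg_mul Finsupp.degree hf1)
  rw [coeff_mul_ray ha (hL.eul _), coeff_eul] at h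
  have hd : Finsupp.degree a ≠ 0 := fun h' => ha ((Finsupp.degree_eq_zero_iff a).1 h')
  apply cast_inj hd
  have hdeg : ∀ m : ℕ, Finsupp.degree (m • a) = m * Finsupp.degree a := by
    intro m
    rw [map_nsmul, smul_eq_mul]
  rw [hdeg] at h
  push_cast at h
  calc _ = (k : K) * ((Finsupp.degree a : ℕ) : K) * coeff (k • a) f := by ring
    _ = _ := by
      rw [← h, Finset.mul_sum]
      refine Finset.sum_congr rfl fun p _ => ?_
      rw [coeff_eul, hdeg]
      push_cast
      ring

/-- Integrality of the logarithm, on the ray of a primitive pair. -/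
theorem lg_ray' {F : ℕ → ℕ → N2 → MvPowerSeries (Fin 2) K}
    (hF : ∀ b c, 0 < b → 0 < c → IsDiagram b c (F b c)) {u : N2} (hu : Prim u) (k : ℕ)
    (hk : 0 < k) :
    ∃ P : MvPolynomial (Fin 2) ℤ, ∀ b c, 0 < b → 0 < c → ∀ (g : ℕ) (v : N2), 0 < g → Prim v →
      g • v = scl ![b, c] u →
      ((k * max (u 0) (u 1))! : K) * coeff (k • scl ![b, c] u) (lg (F b c v)) =
        (g : K) * MvPolynomial.eval₂ (Int.castRingHom K) ![(b : K), (c : K)] P := by
  have main : ∀ s t : Fin 2, s ≠ t → u t ≤ u s →
      ∃ P : MvPolynomial (Fin 2) ℤ, ∀ b c, 0 < b → 0 < c → ∀ (g : ℕ) (v : N2), 0 < g → Prim v →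
      g • v = scl ![b, c] u →
      ((k * u s)! : K) * coeff (k • scl ![b, c] u) (lg (F b c v)) =
        (g : K) * MvPolynomial.eval₂ (Int.castRingHom K) ![(b : K), (c : K)] P := by
    intro s t hst hle
    have hut : 0 < u t := by
      by_cases h : t = 0
      · rw [h]; exact hu.1
      · have : t = 1 := by omega
        rw [this]; exact hu.2.1
    have hgcd : Nat.gcd (u t) (u s) = 1 := by
      by_cases h : t = 0
      · have hs : s = 1 := by omega
        rw [h, hs]; exact hu.2.2
      · have ht : t = 1 := by omega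
        have hs : s = 0 := by omega
        rw [ht, hs, Nat.gcd_comm]; exact hu.2.2
    obtain ⟨P, hP⟩ := lg_ray hF hst (n := k • u) (show 0 < k * u t from Nat.mul_pos hk hut)
      (Nat.mul_le_mul_left k hle)
    refine ⟨P, ?_⟩
    intro b c hb hc g v hg hv hgv
    have hscl : scl ![b, c] (k • u) = k • scl ![b, c] u := by
      ext i
      show scl ![b, c] (k • u) i = k * scl ![b, c] u i
      rw [scl_apply, scl_apply]
      show ![b, c] i * (k * u i) = _
      ring
    have h1 := hP b c hb hc (k * g) v (Nat.mul_pos hk hg) hv (by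
      rw [hscl, mul_smul, hgv])
    rw [hscl] at h1
    have h2 : k * g / Nat.gcd ((k • u) t) ((k • u) s) = g := by
      show k * g / Nat.gcd (k * u t) (k * u s) = g
      rw [Nat.gcd_mul_left, hgcd, mul_one]
      exact Nat.mul_div_cancel_left _ hk
    rw [h2] at h1
    exact h1
  rcases le_total (u 0) (u 1) with h | h
  · rw [max_eq_right h]
    exact main 1 0 (by decide) h
  · rw [max_eq_left h]
    exact main 0 1 (by decide) h

theorem fac_split {k μ : ℕ} (hμ : 0 < μ) {p : ℕ × ℕ} (hp : p ∈ antidiagonal k)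
    (hp1 : 0 < p.1) :
    (k * μ - 1)! * (μ * p.1) = (k * μ - 1).choose (p.1 * μ - 1) * (p.1 * μ)! * (p.2 * μ)! := by
  rw [Finset.HasAntidiagonal.mem_antidiagonal] at hp
  have h1 : k * μ = p.1 * μ + p.2 * μ := by rw [← hp]; ring
  have h2 : 0 < p.1 * μ := Nat.mul_pos hp1 hμ
  have h3 := Nat.choose_mul_factorial_mul_factorial (show p.1 * μ - 1 ≤ k * μ - 1 by omega)
  rw [show k * μ - 1 - (p.1 * μ - 1) = p.2 * μ by omega] at h3
  rw [← h3, ← Nat.mul_factorial_pred (show p.1 * μ ≠ 0 by omega)]
  ring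

/-- The integral polynomials for the coefficients. -/
theorem exists_T {F : ℕ → ℕ → N2 → MvPowerSeries (Fin 2) K}
    (hF : ∀ b c, 0 < b → 0 < c → IsDiagram b c (F b c)) {u : N2} (hu : Prim u) (k : ℕ) :
    ∃ T : MvPolynomial (Fin 3) ℤ, ∀ b c, 0 < b → 0 < c → ∀ (g : ℕ) (v : N2), 0 < g → Prim v →
      g • v = scl ![b, c] u →
      ((k * max (u 0) (u 1))! : K) * coeff (k • scl ![b, c] u) (F b c v) =
        MvPolynomial.eval₂Hom (Int.castRingHom K) ![(b : K), (c : K), (g : K)] T := by
  set μ := max (u 0) (u 1) with hμ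
  have hμ0 : 0 < μ := lt_of_lt_of_le hu.1 (le_max_left _ _)
  have hP : ∀ m : ℕ, 0 < m → ∃ P : MvPolynomial (Fin 2) ℤ, ∀ b c, 0 < b → 0 < c →
      ∀ (g : ℕ) (v : N2), 0 < g → Prim v → g • v = scl ![b, c] u →
      ((m * μ)! : K) * coeff (m • scl ![b, c] u) (lg (F b c v)) =
        (g : K) * MvPolynomial.eval₂ (Int.castRingHom K) ![(b : K), (c : K)] P :=
    fun m hm => lg_ray' hF hu m hm
  choose! P hP' using hP
  induction k using Nat.strong_induction_on with
  | _ k ih =>
    rcases Nat.eq_zero_or_pos k with rfl | hk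
    · refine ⟨1, ?_⟩
      intro b c hb hc g v _ hv _
      rw [zero_smul, map_one, zero_mul, coeff_zero_eq_constantCoeff_apply,
        ((hF b c hb hc).wall v hv).1]
      simp
    · choose! T hT using ih
      refine ⟨∑ p ∈ antidiagonal k, if p.1 = 0 then 0 else
        (((k * μ - 1).choose (p.1 * μ - 1) : ℕ) : MvPolynomial (Fin 3) ℤ) * MvPolynomial.X 2 *
          MvPolynomial.rename (Fin.castSucc) (P p.1) * T p.2, ?_⟩
      intro b c hb hc g v hg hv hgv
      have ha : scl ![b, c] u ≠ 0 := by
        intro h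
        have h1 := congrArg (fun z : N2 => z 0) h
        simp only [scl_apply] at h1
        have h2 : b * u 0 = 0 := h1
        have h3 := Nat.mul_pos hb hu.1
        omega
      have hrec := tau_rec ha ((hF b c hb hc).wall v hv).1
        (ray_sup hb hc (hF b c hb hc) hv hu hg hgv) k
      have hkμ : 0 < k * μ := Nat.mul_pos hk hμ0
      have hfac : ((k * μ)! : K) = ((k * μ - 1)! : K) * (μ : K) * (k : K) := by
        rw [← Nat.mul_factorial_pred (show k * μ ≠ 0 by omega)]
        push_cast
        ring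
      rw [hfac, mul_assoc, hrec, Finset.mul_sum, map_sum]
      refine Finset.sum_congr rfl fun p hp => ?_
      split_ifs with h0
      · rw [h0, map_zero]; simp
      · have hp1 : 0 < p.1 := Nat.pos_of_ne_zero h0
        have hp2 : p.2 < k := by
          rw [Finset.HasAntidiagonal.mem_antidiagonal] at hp
          omega
        have e1 := hP' p.1 hp1 b c hb hc g v hg hv hgv
        have e2 := hT p.2 hp2 b c hb hc g v hg hv hgv
        have e3 := fac_split hμ0 hp hp1
        have e3' : ((k * μ - 1)! : K) * ((μ : K) * (p.1 : K)) =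
            (((k * μ - 1).choose (p.1 * μ - 1) : ℕ) : K) * ((p.1 * μ)! : K) *
              ((p.2 * μ)! : K) := by exact_mod_cast e3
        have e4 : MvPolynomial.eval₂Hom (Int.castRingHom K) ![(b : K), (c : K), (g : K)]
            (MvPolynomial.rename (Fin.castSucc) (P p.1)) =
            MvPolynomial.eval₂ (Int.castRingHom K) ![(b : K), (c : K)] (P p.1) := by
          rw [MvPolynomial.coe_eval₂Hom, MvPolynomial.eval₂_rename]
          congr 1
          funext i
          fin_cases i <;> rfl
        rw [map_mul, map_mul, map_mul, map_natCast, e4, ← e2]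
        have e5 : MvPolynomial.eval₂Hom (Int.castRingHom K) ![(b : K), (c : K), (g : K)]
            (MvPolynomial.X 2) = (g : K) := by
          rw [MvPolynomial.coe_eval₂Hom, MvPolynomial.eval₂_X]; rfl
        rw [e5]
        calc _ = (((k * μ - 1)! : K) * ((μ : K) * (p.1 : K))) *
              (coeff (p.1 • scl ![b, c] u) (lg (F b c v)) *
                coeff (p.2 • scl ![b, c] u) (F b c v)) := by ring
          _ = (((k * μ - 1).choose (p.1 * μ - 1) : ℕ) : K) *
              (((p.1 * μ)! : K) * coeff (p.1 • scl ![b, c] u) (lg (F b c v))) *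
              (((p.2 * μ)! : K) * coeff (p.2 • scl ![b, c] u) (F b c v)) := by
            rw [e3']; ring
          _ = _ := by rw [e1]; ring

end Pool.Agent.LibScat
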